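import Pool.Agent.H536Z.ModelInd

/-! The power law worm model in dimension four. -/

set_option autoImplicit false
set_option maxHeartbeats 400000

namespace Pool.Agent.H536Z

open MeasureTheory ProbabilityTheory Finset

variable {d : ℕ}

lemma sadj_of_l1 {a b : V d} (h : ∑ j, |a j - b j| = 1) : sadj a b := by
  unfold sadj
  rw [nn_le]
  intro j
  have := Finset.single_le_sum (f := fun j => |a j - b j|) (fun j _ => abs_nonneg _)
    (Finset.mem_univ j)
  rw [h, Int.abs_eq_natAbs] at this
  simp only [Pi.sub_apply]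
  omega

lemma l1_of_nadj {a b : V d} (h : nadj a b) : ∑ j, |a j - b j| = 1 := by
  obtain ⟨⟨i, s⟩, rfl⟩ := h
  rw [Finset.sum_eq_single i]
  · cases s <;> simp [vec]
  · intro j _ hj; simp [vec, Pi.single_eq_of_ne hj]
  · simp

lemma perc_iff_graph (S : Set (V d)) :
    ((∃ y : V d, {z : V d | (SimpleGraph.fromRel fun a b : V d =>
      a ∈ S ∧ b ∈ S ∧ ∑ j, |a j - b j| = 1).Reachable y z}.Infinite) → Perc sadj S) ∧
    (Perc nadj S → ∃ y : V d, {z : V d | (SimpleGraph.fromRel fun a b : V d =>
      a ∈ S ∧ b ∈ S ∧ ∑ j, |a j - b j| = 1).Reachable y z}.Infinite) := by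
  constructor
  · rintro ⟨y, hy⟩
    refine ⟨y, hy.mono fun z hz => ?_⟩
    have hz' := (SimpleGraph.reachable_iff_reflTransGen _ _).1 hz
    clear hz
    show CR sadj S y z
    induction hz' with
    | refl => exact CR.refl _ _
    | tail _ h2 ih =>
      refine Relation.ReflTransGen.tail ih ?_
      rcases ((SimpleGraph.fromRel_adj _ _ _).1 h2).2 with h | h
      · exact ⟨h.1, h.2.1, sadj_of_l1 h.2.2⟩
      · exact ⟨h.2.1, h.1, sadj_symm _ _ (sadj_of_l1 h.2.2)⟩
  · rintro ⟨y, hy⟩
    refine ⟨y, hy.mono fun z hz => ?_⟩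
    have hz' : CR nadj S y z := hz
    clear hz
    refine (SimpleGraph.reachable_iff_reflTransGen _ _).2 ?_
    induction hz' with
    | refl => exact Relation.ReflTransGen.refl
    | tail _ h2 ih =>
      refine Relation.ReflTransGen.tail ih ((SimpleGraph.fromRel_adj _ _ _).2
        ⟨?_, Or.inl ⟨h2.1, h2.2.1, l1_of_nadj h2.2.2⟩⟩)
      rintro rfl
      have := l1_of_nadj h2.2.2
      simp at this

lemma count_eq (n : ℕ) (A : Finset (V 4)) :
    (((Finset.univ.filter (fun s : Fin n → Fin 4 × Bool =>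
      (Finset.range (n + 1)).image (fun t : ℕ =>
        ∑ i ∈ Finset.univ.filter (fun i : Fin n => (i : ℕ) < t),
          (Pi.single (s i).1 (if (s i).2 then (1 : ℤ) else -1) : Fin 4 → ℤ)) = A)).card : ℝ) /
      (8 : ℝ) ^ n) = Ex n fun l : List (St 4) => ind (trace l = A) := by
  rw [Ex_eq_sum, Finset.card_filter]
  push_cast
  congr 1
  · refine Finset.sum_congr rfl fun s _ => ?_
    have : trace (List.ofFn s) = (Finset.range (n + 1)).image (fun t : ℕ =>
        ∑ i ∈ Finset.univ.filter (fun i : Fin n => (i : ℕ) < t),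
          (Pi.single (s i).1 (if (s i).2 then (1 : ℤ) else -1) : Fin 4 → ℤ)) := by
      unfold trace
      rw [List.length_ofFn]
      congr 1
      funext t
      exact pos_ofFn s t
    rw [this]
    split_ifs with h
    · rw [ind_pos h]
    · rw [ind_neg h]
  · norm_num

lemma exists_indep {ι : Type} (p : ι → ℝ) (h0 : ∀ k, 0 ≤ p k) (h1 : ∀ k, p k ≤ 1) :
    ∃ (P : Measure (ι → Bool)) (_ : IsProbabilityMeasure P),
      iIndepFun (fun k (ω : ι → Bool) => ω k) P ∧
        ∀ k, P {ω | ω k = true} = ENNReal.ofReal (p k) := by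
  let μ : ι → Measure Bool := fun k =>
    ENNReal.ofReal (p k) • Measure.dirac true + ENNReal.ofReal (1 - p k) • Measure.dirac false
  have hμ : ∀ k, IsProbabilityMeasure (μ k) := fun k => ⟨by
    simp only [μ, Measure.add_apply, Measure.smul_apply, measure_univ, smul_eq_mul, mul_one]
    rw [← ENNReal.ofReal_add (h0 k) (by linarith [h1 k])]; simp⟩
  refine ⟨Measure.infinitePi μ, inferInstance,
    iIndepFun_infinitePi (P := μ) (X := fun _ a => a) fun _ => measurable_id, fun k => ?_⟩
  have h := Measure.map_apply (μ := Measure.infinitePi μ) (measurable_pi_apply k)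
    (measurableSet_singleton true)
  rw [Measure.infinitePi_map_eval μ k] at h
  refine Eq.trans h.symm ?_
  simp [μ]

end Pool.Agent.H536Z
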