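import Mathlib

/-! Lattice geometry for percolation of random walk traces. -/

set_option autoImplicit false

namespace Pool.Agent.H536Z

open Finset

abbrev V (d : ℕ) := Fin d → ℤ

variable {d : ℕ}

/-- sup norm -/
def nn (a : V d) : ℕ := Finset.univ.sup fun j => (a j).natAbs

lemma nn_le {a : V d} {r : ℕ} : nn a ≤ r ↔ ∀ j, (a j).natAbs ≤ r := by
  simp [nn, Finset.sup_le_iff]

lemma le_nn (a : V d) (j : Fin d) : (a j).natAbs ≤ nn a := nn_le.1 le_rfl j

lemma nn_add (a b : V d) : nn (a + b) ≤ nn a + nn b := by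
  rw [nn_le]; intro j
  have h1 := le_nn a j
  have h2 := le_nn b j
  have := Int.natAbs_add_le (a j) (b j)
  simp only [Pi.add_apply]; omega

lemma nn_neg (a : V d) : nn (-a) = nn a := by
  simp [nn]

lemma nn_zero : nn (0 : V d) = 0 := by
  apply Nat.eq_zero_of_le_zero; rw [nn_le]; simp

lemma nn_sub_comm (a b : V d) : nn (a - b) = nn (b - a) := by
  rw [← nn_neg, neg_sub]

lemma nn_tri (a b c : V d) : nn (a - c) ≤ nn (a - b) + nn (b - c) := by
  have := nn_add (a - b) (b - c)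
  rwa [sub_add_sub_cancel] at this

noncomputable def box (z : V d) (r : ℕ) : Finset (V d) :=
  Fintype.piFinset fun j => Finset.Icc (z j - r) (z j + r)

lemma mem_box {z a : V d} {r : ℕ} : a ∈ box z r ↔ nn (a - z) ≤ r := by
  rw [box, Fintype.mem_piFinset, nn_le]
  refine forall_congr' fun j => ?_
  simp only [Finset.mem_Icc, Pi.sub_apply]; omega

lemma card_box (z : V d) (r : ℕ) : (box z r).card = (2 * r + 1) ^ d := by
  rw [box, Fintype.card_piFinset]
  have : ∀ j : Fin d, (Finset.Icc (z j - r) (z j + r)).card = 2 * r + 1 := by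
    intro j; rw [Int.card_Icc]; omega
  simp [this]

/-- radius of a finite set -/
def rad (A : Finset (V d)) : ℕ := A.sup nn

lemma nn_le_rad {A : Finset (V d)} {a : V d} (h : a ∈ A) : nn a ≤ rad A := Finset.le_sup h

lemma rad_le {A : Finset (V d)} {r : ℕ} : rad A ≤ r ↔ ∀ a ∈ A, nn a ≤ r := by
  simp [rad, Finset.sup_le_iff]

/-- connection inside `S` for the adjacency `adj` -/
def CR {X : Type*} (adj : X → X → Prop) (S : Set X) (a b : X) : Prop :=
  Relation.ReflTransGen (fun u w => u ∈ S ∧ w ∈ S ∧ adj u w) a b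

def Perc {X : Type*} (adj : X → X → Prop) (S : Set X) : Prop := ∃ a, {b | CR adj S a b}.Infinite

section general
variable {X : Type*} {adj : X → X → Prop}

lemma CR.refl (S : Set X) (a : X) : CR adj S a a := Relation.ReflTransGen.refl

lemma CR.trans {S : Set X} {a b c : X} (h : CR adj S a b) (h' : CR adj S b c) : CR adj S a c :=
  Relation.ReflTransGen.trans h h'

lemma CR.mono {adj' : X → X → Prop} {S T : Set X} (hST : S ⊆ T) (ha : ∀ u w, adj u w → adj' u w)
    {a b : X} (h : CR adj S a b) : CR adj' T a b := by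
  induction h with
  | refl => exact CR.refl _ _
  | tail _ h2 ih =>
    exact Relation.ReflTransGen.tail ih ⟨hST h2.1, hST h2.2.1, ha _ _ h2.2.2⟩

lemma CR.symm (hs : ∀ u w, adj u w → adj w u) {S : Set X} {a b : X} (h : CR adj S a b) :
    CR adj S b a := by
  induction h with
  | refl => exact CR.refl _ _
  | tail _ h2 ih =>
    exact Relation.ReflTransGen.head ⟨h2.2.1, h2.1, hs _ _ h2.2.2⟩ ih

lemma CR.mem_of_ne {S : Set X} {a b : X} (h : CR adj S a b) (hab : a ≠ b) : a ∈ S := by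
  rcases Relation.ReflTransGen.cases_head h with h | ⟨c, hc, _⟩
  · exact absurd h hab
  · exact hc.1

lemma CR.mem_right {S : Set X} {a b : X} (h : CR adj S a b) (ha : a ∈ S) : b ∈ S := by
  induction h with
  | refl => exact ha
  | tail _ h2 _ => exact h2.2.1

lemma Perc.mono {adj' : X → X → Prop} {S T : Set X} (hST : S ⊆ T)
    (ha : ∀ u w, adj u w → adj' u w) (h : Perc adj S) : Perc adj' T := by
  obtain ⟨a, h⟩ := h
  exact ⟨a, h.mono fun b hb => CR.mono hST ha hb⟩

/-- a connection either avoids `u` or ends with a piece that starts at a neighbour of `u` -/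
lemma CR.remove {S : Set X} {a b : X} (u : X) (h : CR adj S a b) :
    b = u ∨ CR adj (S \ {u}) a b ∨ ∃ w, adj u w ∧ w ∈ S ∧ w ≠ u ∧ CR adj (S \ {u}) w b := by
  induction h with
  | refl => exact Or.inr (Or.inl (CR.refl _ _))
  | @tail b c _ h2 ih =>
    by_cases hc : c = u
    · exact Or.inl hc
    right
    by_cases hb : b = u
    · exact Or.inr ⟨c, hb ▸ h2.2.2, h2.2.1, hc, CR.refl _ _⟩
    have step : b ∈ S \ {u} ∧ c ∈ S \ {u} ∧ adj b c := ⟨⟨h2.1, hb⟩, ⟨h2.2.1, hc⟩, h2.2.2⟩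
    rcases ih with h | h | ⟨w, h1, h3, h4, h5⟩
    · exact absurd h hb
    · exact Or.inl (Relation.ReflTransGen.tail h step)
    · exact Or.inr ⟨w, h1, h3, h4, Relation.ReflTransGen.tail h5 step⟩

lemma Perc.remove (hfin : ∀ u, {w | adj u w}.Finite) {S : Set X} (h : Perc adj S) (u : X) :
    Perc adj (S \ {u}) := by
  obtain ⟨a, h⟩ := h
  by_contra hcon
  simp only [Perc, not_exists, Set.not_infinite] at hcon
  apply h
  refine Set.Finite.subset (((Set.finite_singleton u).union (hcon a)).union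
    ((hfin u).biUnion (t := fun w => {b | CR adj (S \ {u}) w b}) fun w _ => hcon w)) ?_
  intro b hb
  rcases CR.remove u hb with h | h | ⟨w, h1, _, _, h5⟩
  · exact Or.inl (Or.inl h)
  · exact Or.inl (Or.inr h)
  · exact Or.inr (Set.mem_biUnion (s := {w | adj u w}) h1 h5)

lemma Perc.remove_finite (hfin : ∀ u, {w | adj u w}.Finite) {S : Set X} (h : Perc adj S)
    {F : Set X} (hF : F.Finite) : Perc adj (S \ F) := by
  induction F, hF using Set.Finite.induction_on with
  | empty => simpa using h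
  | @insert u F _ _ ih =>
    have := ih.remove hfin u
    refine this.mono ?_ (fun _ _ h => h)
    intro y hy
    refine ⟨hy.1.1, ?_⟩
    rintro (h | h)
    · exact hy.2 h
    · exact hy.1.2 h

lemma next_step (hfin : ∀ u, {w | adj u w}.Finite) {S : Set X} {u : X}
    (h : {b | CR adj S u b}.Infinite) :
    ∃ w, adj u w ∧ w ∈ S ∧ w ≠ u ∧ {b | CR adj (S \ {u}) w b}.Infinite := by
  by_contra hcon
  push Not at hcon
  apply h
  refine Set.Finite.subset ((Set.finite_singleton u).union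
    (((hfin u).subset (s := {w | adj u w}) (t := {w | adj u w ∧ w ∈ S ∧ w ≠ u})
      (fun w hw => hw.1)).biUnion (t := fun w => {b | CR adj (S \ {u}) w b})
      fun w hw => hcon w hw.1 hw.2.1 hw.2.2)) ?_
  intro b hb
  rcases CR.remove u hb with h | h | ⟨w, h1, h2, h3, h5⟩
  · exact Or.inl h
  · by_cases hbu : u = b
    · exact Or.inl hbu.symm
    · exact absurd rfl (h.mem_of_ne hbu).2
  · exact Or.inr (Set.mem_biUnion (s := {w | adj u w ∧ w ∈ S ∧ w ≠ u}) ⟨h1, h2, h3⟩ h5)

/-- Koenig's lemma -/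
lemma Perc.exists_path (hfin : ∀ u, {w | adj u w}.Finite) {S : Set X} (h : Perc adj S) :
    ∃ p : ℕ → X, Function.Injective p ∧ ∀ n, adj (p n) (p (n + 1)) ∧ p n ∈ S := by
  obtain ⟨a, ha⟩ := h
  have hmem : ∀ (T : Set X) (u : X), {b | CR adj T u b}.Infinite → u ∈ T := by
    intro T u hu
    obtain ⟨b, hb, hne⟩ := hu.exists_notMem_finite (Set.finite_singleton u)
    exact CR.mem_of_ne hb (fun h => hne h.symm)
  let St := {q : X × Set X // {b | CR adj q.2 q.1 b}.Infinite}
  have hstep : ∀ q : St, ∃ q' : St, adj q.1.1 q'.1.1 ∧ q'.1.2 = q.1.2 \ {q.1.1} := by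
    intro q
    obtain ⟨w, h1, _, _, h4⟩ := next_step hfin q.2
    exact ⟨⟨(w, q.1.2 \ {q.1.1}), h4⟩, h1, rfl⟩
  choose f hf1 hf2 using hstep
  let s : ℕ → St := fun n => f^[n] ⟨(a, S), ha⟩
  have hs : ∀ n, s (n + 1) = f (s n) := fun n => Function.iterate_succ_apply' _ _ _
  have hanti : ∀ m n, m ≤ n → (s n).1.2 ⊆ (s m).1.2 := by
    intro m n hmn
    induction hmn with
    | refl => exact subset_rfl
    | step _ ih => rw [hs, hf2]; exact Set.sdiff_subset.trans ih
  have hne : ∀ m n, m < n → (s m).1.1 ≠ (s n).1.1 := by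
    intro m n hmn heq
    have h1 := hanti (m + 1) n hmn (hmem _ _ (s n).2)
    rw [hs, hf2] at h1
    exact h1.2 heq.symm
  refine ⟨fun n => (s n).1.1, ?_, fun n => ⟨?_, ?_⟩⟩
  · intro m n hmn
    by_contra h
    rcases lt_or_gt_of_ne h with h | h
    · exact hne m n h hmn
    · exact hne n m h hmn.symm
  · show adj (s n).1.1 (s (n + 1)).1.1
    rw [hs]; exact hf1 _
  · exact hanti 0 n (Nat.zero_le _) (hmem _ _ (s n).2)

lemma perc_of_path {S : Set X} {p : ℕ → X} (hp : Function.Injective p)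
    (h : ∀ n, adj (p n) (p (n + 1)) ∧ p n ∈ S) : Perc adj S := by
  refine ⟨p 0, (Set.infinite_range_of_injective hp).mono ?_⟩
  rintro _ ⟨n, rfl⟩
  induction n with
  | zero => exact CR.refl _ _
  | succ n ih => exact Relation.ReflTransGen.tail ih ⟨(h n).2, (h (n + 1)).2, (h n).1⟩

end general

/-- star adjacency -/
def sadj (a b : V d) : Prop := nn (a - b) ≤ 1

lemma sadj_symm (a b : V d) (h : sadj a b) : sadj b a := by
  unfold sadj at *; rwa [nn_sub_comm]

lemma sadj_finite (u : V d) : {w | sadj u w}.Finite := by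
  refine (box u 1).finite_toSet.subset ?_
  intro w hw
  simp only [Finset.mem_coe, mem_box]
  rw [nn_sub_comm]; exact hw

def Cross (S : Set (V d)) (z : V d) (r : ℕ) : Prop :=
  ∃ a b, nn (a - z) ≤ r ∧ 2 * r ≤ nn (b - z) ∧ CR sadj S a b

lemma Cross.mono {S T : Set (V d)} (h : S ⊆ T) {z : V d} {r : ℕ} (hc : Cross S z r) :
    Cross T z r := by
  obtain ⟨a, b, h1, h2, h3⟩ := hc
  exact ⟨a, b, h1, h2, h3.mono h fun _ _ h => h⟩

lemma exit_lemma {S : Set (V d)} {a b : V d} (z : V d) (ρ : ℕ) (h : CR sadj S a b)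
    (hb : ρ ≤ nn (b - z)) (ha : nn (a - z) ≤ ρ) :
    ∃ c, nn (c - z) = ρ ∧ CR sadj (S ∩ {y | nn (y - z) ≤ ρ}) a c ∧ CR sadj S c b := by
  induction h using Relation.ReflTransGen.head_induction_on with
  | refl => exact ⟨b, le_antisymm ha hb, CR.refl _ _, CR.refl _ _⟩
  | @head a a' h1 h2 ih =>
    by_cases he : nn (a - z) = ρ
    · exact ⟨a, he, CR.refl _ _, Relation.ReflTransGen.head h1 h2⟩
    have h3 : nn (a' - z) ≤ ρ := by
      have := nn_tri a' a z
      have h4 : nn (a' - a) ≤ 1 := sadj_symm _ _ h1.2.2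
      omega
    obtain ⟨c, hc1, hc2, hc3⟩ := ih h3
    exact ⟨c, hc1, Relation.ReflTransGen.head ⟨⟨h1.1, ha⟩, ⟨h1.2.1, h3⟩, h1.2.2⟩ hc2, hc3⟩

lemma Cross.local {S : Set (V d)} {z : V d} {r : ℕ} (hc : Cross S z r) :
    Cross (S ∩ {y | nn (y - z) ≤ 2 * r}) z r := by
  obtain ⟨a, b, h1, h2, h3⟩ := hc
  obtain ⟨c, hc1, hc2, _⟩ := exit_lemma z (2 * r) h3 h2 (by omega)
  exact ⟨a, c, h1, hc1.ge, hc2⟩

noncomputable def grid (z : V d) (r m : ℕ) : Finset (V d) := (box 0 m).image fun t => z + (r : ℤ) • t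

lemma card_grid (z : V d) (r m : ℕ) : (grid z r m).card ≤ (2 * m + 1) ^ d := by
  rw [← card_box (0 : V d) m]; exact Finset.card_image_le

lemma exists_grid (z a : V d) {r m : ℕ} (hr : 0 < r) (h : nn (a - z) ≤ m * r) :
    ∃ g ∈ grid z r m, nn (a - g) ≤ r := by
  refine ⟨z + (r : ℤ) • fun j => (a j - z j) / r, Finset.mem_image.2 ⟨_, ?_, rfl⟩, ?_⟩
  · rw [mem_box, nn_le]
    intro j
    have h1 := nn_le.1 h j
    simp only [Pi.sub_apply, Pi.zero_apply, sub_zero] at h1 ⊢
    have hr' : (0 : ℤ) < r := by exact_mod_cast hr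
    have h2 : (a j - z j) ≤ (m : ℤ) * r := by
      have : ((a j - z j).natAbs : ℤ) ≤ ((m * r : ℕ) : ℤ) := by exact_mod_cast h1
      push_cast at this
      exact le_trans (le_abs_self _) this
    have h3 : -(m : ℤ) * r ≤ (a j - z j) := by
      have : ((a j - z j).natAbs : ℤ) ≤ ((m * r : ℕ) : ℤ) := by exact_mod_cast h1
      push_cast at this
      have := neg_abs_le (a j - z j)
      linarith
    have h4 : (a j - z j) / r ≤ m := Int.ediv_le_of_le_mul hr' h2
    have h5 : -(m : ℤ) ≤ (a j - z j) / r := Int.le_ediv_of_mul_le hr' h3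
    omega
  · rw [nn_le]
    intro j
    simp only [Pi.sub_apply, Pi.add_apply, Pi.smul_apply, smul_eq_mul]
    have hr' : (0 : ℤ) < r := by exact_mod_cast hr
    have h1 := Int.emod_add_mul_ediv (a j - z j) r
    have h2 := Int.emod_nonneg (a j - z j) hr'.ne'
    have h3 := Int.emod_lt_of_pos (a j - z j) hr'
    have : a j - (z j + r * ((a j - z j) / r)) = (a j - z j) % r := by linarith
    rw [this]; omega

lemma Cross.split {S : Set (V d)} {z : V d} {r : ℕ} (hr : 0 < r) (hc : Cross S z (10 * r)) :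
    ∃ g ∈ grid z r 20, ∃ g' ∈ grid z r 20, nn (g - z) ≤ 11 * r ∧ 19 * r ≤ nn (g' - z) ∧
      Cross S g r ∧ Cross S g' r := by
  obtain ⟨a, b, h1, h2, h3⟩ := hc
  obtain ⟨c, hc1, _, hc3⟩ := exit_lemma z (10 * r) h3 (by omega) h1
  obtain ⟨c', hc1', hc2', _⟩ := exit_lemma z (20 * r) hc3 (by omega) (by omega)
  have hcc : CR sadj S c c' := hc2'.mono Set.inter_subset_left fun _ _ h => h
  obtain ⟨g, hg, hg1⟩ := exists_grid z c (m := 20) hr (by omega)
  obtain ⟨g', hg', hg1'⟩ := exists_grid z c' (m := 20) hr (by omega)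
  have t1 := nn_tri g c z
  have t2 := nn_sub_comm g c
  have t3 := nn_tri c' g' z
  have t4 := nn_tri c' g z
  have t5 := nn_tri g' c z
  have t6 := nn_sub_comm g' c
  refine ⟨g, hg, g', hg', by omega, by omega, ⟨c, c', hg1, by omega, hcc⟩,
    ⟨c', c, hg1', by omega, hcc.symm sadj_symm⟩⟩

/-- sites occupied by the sets `x + A`, with `x ∈ D`, `W x A` and `p A` -/
def occ (W : V d → Finset (V d) → Prop) (D : Set (V d)) (p : Finset (V d) → Prop) : Set (V d) :=
  {a | ∃ x ∈ D, ∃ A, W x A ∧ p A ∧ a - x ∈ A}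

lemma Cross.occ_local {W : V d → Finset (V d) → Prop} {z : V d} {r : ℕ}
    (h : Cross (occ W Set.univ fun A => rad A ≤ r) z r) :
    Cross (occ W (box z (3 * r)) fun A => rad A ≤ r) z r := by
  refine h.local.mono ?_
  rintro a ⟨⟨x, _, A, h1, h2, h3⟩, h4⟩
  refine ⟨x, ?_, A, h1, h2, h3⟩
  simp only [Finset.mem_coe, mem_box]
  have t1 := nn_tri x a z
  have t2 := nn_sub_comm x a
  have t3 := nn_le_rad h3
  have t4 : nn (a - z) ≤ 2 * r := h4
  omega

lemma Perc.cross {S : Set (V d)} (h : Perc sadj S) : ∃ r0, ∀ r ≥ r0, Cross S 0 r := by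
  obtain ⟨a, h⟩ := h
  refine ⟨nn (a - 0), fun r hr => ?_⟩
  obtain ⟨b, hb, hb'⟩ := h.exists_notMem_finite (box (0 : V d) (2 * r)).finite_toSet
  simp only [Finset.mem_coe, mem_box, not_le] at hb'
  exact ⟨a, b, hr, hb'.le, hb⟩

end Pool.Agent.H536Z
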