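import Pool.Agent.H536Z.Walk

/-! Transition probabilities of simple random walk: the bound `p_n(z) ≤ C n^(-d/2)`. -/

set_option autoImplicit false

namespace Pool.Agent.H536Z

open Finset

variable {d : ℕ}

noncomputable def pp (n : ℕ) (z : V d) : ℝ := Ex n fun l => ind (endp l = z)

lemma pp_nonneg (n : ℕ) (z : V d) : 0 ≤ pp n z := Ex_ind_nonneg _ _

lemma pp_le_one (hd : 0 < d) (n : ℕ) (z : V d) : pp n z ≤ 1 := Ex_ind_le_one hd _ _

lemma pp_neg (n : ℕ) (z : V d) : pp n (-z) = pp n z := by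
  unfold pp
  rw [← Ex_flip]
  simp only [endp_flip, neg_inj]

lemma pp_succ (n : ℕ) (z : V d) : pp (n + 1) z = av fun e => pp n (z - vec e) := by
  unfold pp
  rw [Ex_succ]
  congr 1; funext e
  refine Ex_congr fun l _ => ind_congr ?_
  rw [endp_cons, eq_sub_iff_add_eq, add_comm]

lemma sum_pp (n : ℕ) (s : Finset (V d)) : ∑ z ∈ s, pp n z = Ex n fun l => ind (endp l ∈ s) := by
  unfold pp
  rw [← Ex_sum]
  refine Ex_congr fun l _ => ?_
  rw [← sum_ind_eq]
  exact Finset.sum_congr rfl fun z _ => ind_congr eq_comm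

lemma pp_add (u t : ℕ) : pp (u + t) (0 : V d) = Ex u fun l : List (St d) => pp t (endp l) := by
  unfold pp
  rw [Ex_append]
  refine Ex_congr fun l _ => ?_
  have := pp_neg t (endp l)
  unfold pp at this
  rw [← this]
  refine Ex_congr fun l' _ => ind_congr ?_
  rw [endp_append, add_comm, add_eq_zero_iff_eq_neg]

/-- one-dimensional transition probabilities -/
noncomputable def q1 : ℕ → ℤ → ℝ
  | 0, y => ind (y = 0)
  | k + 1, y => (q1 k (y - 1) + q1 k (y + 1)) / 2

lemma q1_low (k : ℕ) (y : ℤ) (h : y < -k) : q1 k y = 0 := by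
  induction k generalizing y with
  | zero => exact ind_neg (by simp at h; omega)
  | succ k ih => simp only [q1]; rw [ih, ih] <;> push_cast at h <;> first | omega | simp

lemma q1_odd (k : ℕ) (y : ℤ) (h : (y + k) % 2 = 1) : q1 k y = 0 := by
  induction k generalizing y with
  | zero => exact ind_neg (by simp at h; omega)
  | succ k ih => simp only [q1]; rw [ih, ih] <;> push_cast at h <;> first | omega | simp

lemma q1_choose (k i : ℕ) : q1 k (2 * i - k) = (k.choose i : ℝ) / 2 ^ k := by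
  induction k generalizing i with
  | zero =>
    cases i with
    | zero => simp [q1, ind]
    | succ i => simp only [q1]; rw [ind_neg (by push_cast; omega)]; simp
  | succ k ih =>
    simp only [q1]
    cases i with
    | zero =>
      have h1 := ih 0
      rw [q1_low k _ (by push_cast; omega)]
      have : (2 * ((0 : ℕ) : ℤ) - ((k + 1 : ℕ) : ℤ) + 1) = 2 * ((0 : ℕ) : ℤ) - k := by
        push_cast; ring
      rw [this, h1]; simp; field_simp; ring
    | succ i =>
      have e1 : (2 * ((i + 1 : ℕ) : ℤ) - ((k + 1 : ℕ) : ℤ) - 1) = 2 * (i : ℤ) - k := by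
        push_cast; ring
      have e2 : (2 * ((i + 1 : ℕ) : ℤ) - ((k + 1 : ℕ) : ℤ) + 1) = 2 * ((i + 1 : ℕ) : ℤ) - k := by
        push_cast; ring
      rw [e1, e2, ih, ih, Nat.choose_succ_succ]
      push_cast; field_simp; ring

lemma centralBinom_sq (m : ℕ) : (Nat.centralBinom m) ^ 2 * (2 * m + 1) ≤ 16 ^ m := by
  induction m with
  | zero => simp
  | succ m ih =>
    have h := Nat.succ_mul_centralBinom_succ m
    have hpos : 0 < (m + 1) ^ 2 := by positivity
    refine Nat.le_of_mul_le_mul_left ?_ hpos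
    have e : (m + 1) ^ 2 * ((m + 1).centralBinom ^ 2 * (2 * (m + 1) + 1)) =
        ((m + 1) * (m + 1).centralBinom) ^ 2 * (2 * m + 3) := by ring
    rw [e, h]
    have e2 : (2 * (2 * m + 1) * m.centralBinom) ^ 2 * (2 * m + 3) =
        (4 * (2 * m + 1) * (2 * m + 3)) * (m.centralBinom ^ 2 * (2 * m + 1)) := by ring
    rw [e2, pow_succ 16 m]
    calc _ ≤ (4 * (2 * m + 1) * (2 * m + 3)) * 16 ^ m := Nat.mul_le_mul_left _ ih
      _ ≤ (16 * (m + 1) ^ 2) * 16 ^ m := Nat.mul_le_mul_right _ (by nlinarith)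
      _ = _ := by ring

lemma q1_nonneg (k : ℕ) (y : ℤ) : 0 ≤ q1 k y := by
  induction k generalizing y with
  | zero => exact ind_nonneg _
  | succ k ih => simp only [q1]; have := ih (y - 1); have := ih (y + 1); positivity

lemma q1_even_sq (m : ℕ) (y : ℤ) : q1 (2 * m) y ^ 2 * (2 * m + 1) ≤ 1 := by
  by_cases h1 : y < -((2 * m : ℕ) : ℤ)
  · rw [q1_low _ _ h1]; simp
  by_cases h2 : (y + ((2 * m : ℕ) : ℤ)) % 2 = 1
  · rw [q1_odd _ _ h2]; simp
  obtain ⟨i, hi⟩ : ∃ i : ℕ, y = 2 * i - ((2 * m : ℕ) : ℤ) :=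
    ⟨((y + ((2 * m : ℕ) : ℤ)) / 2).toNat, by omega⟩
  rw [hi, q1_choose]
  have h3 : (2 * m).choose i ≤ m.centralBinom := Nat.choose_le_centralBinom i m
  have h4 : ((2 * m).choose i) ^ 2 * (2 * m + 1) ≤ 16 ^ m :=
    le_trans (Nat.mul_le_mul_right _ (Nat.pow_le_pow_left h3 2)) (centralBinom_sq m)
  have h5 : (((2 * m).choose i : ℝ)) ^ 2 * (2 * m + 1) ≤ 16 ^ m := by exact_mod_cast h4
  have h6 : ((2 : ℝ) ^ (2 * m)) ^ 2 = 16 ^ m := by
    rw [← pow_mul, show 2 * m * 2 = 4 * m by ring, pow_mul]; norm_num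
  rw [div_pow, h6, div_mul_eq_mul_div, div_le_one (by positivity)]
  exact h5

lemma q1_sq (k : ℕ) (y : ℤ) : q1 k y ^ 2 ≤ 2 / (k + 1) := by
  rw [le_div_iff₀ (by positivity)]
  rcases Nat.even_or_odd' k with ⟨m, rfl | rfl⟩
  · have := q1_even_sq m y
    push_cast; linarith
  · have h1 := q1_even_sq m (y - 1)
    have h2 := q1_even_sq m (y + 1)
    simp only [q1]
    push_cast
    have hm : (0 : ℝ) ≤ m := Nat.cast_nonneg m
    set a := q1 (2 * m) (y - 1)
    set b := q1 (2 * m) (y + 1)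
    have h3 : ((a + b) / 2) ^ 2 ≤ (a ^ 2 + b ^ 2) / 2 := by nlinarith [sq_nonneg (a - b)]
    have h4 : ((a + b) / 2) ^ 2 * (2 * m + 1) ≤ 1 := by nlinarith
    nlinarith [sq_nonneg ((a + b) / 2)]

lemma riemann_nat (k N : ℕ) : N ^ (k + 1) ≤ (k + 1) * ∑ i ∈ range N, (i + 1) ^ k := by
  induction N with
  | zero => simp
  | succ N ih =>
    rw [Finset.sum_range_succ, mul_add]
    have : (N + 1) ^ (k + 1) ≤ N ^ (k + 1) + (k + 1) * (N + 1) ^ k := by
      clear ih
      induction k with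
      | zero => simp
      | succ k ih =>
        have h1 : N ^ (k + 1) ≤ (N + 1) ^ (k + 1) := Nat.pow_le_pow_left (by omega) _
        calc (N + 1) ^ (k + 1 + 1) = (N + 1) ^ (k + 1) * N + (N + 1) ^ (k + 1) := by ring
          _ ≤ (N ^ (k + 1) + (k + 1) * (N + 1) ^ k) * N + (N + 1) ^ (k + 1) := by gcongr
          _ ≤ N ^ (k + 1) * N + (k + 1) * (N + 1) ^ k * (N + 1) + (N + 1) ^ (k + 1) := by
            nlinarith [Nat.zero_le ((k + 1) * (N + 1) ^ k)]
          _ = _ := by ring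
    omega

lemma riemann {N : ℕ} (hN : 0 < N) (k : ℕ) :
    (2 : ℝ) / (k + 1) ≤ 2 / N * ∑ i ∈ range N, (((i : ℝ) + 1) / N) ^ k := by
  have h : ((N : ℝ)) ^ (k + 1) ≤ (k + 1) * ∑ i ∈ range N, ((i : ℝ) + 1) ^ k := by
    exact_mod_cast riemann_nat k N
  have hN' : (0 : ℝ) < N := by positivity
  simp only [div_pow]
  rw [← Finset.sum_div, div_le_iff₀ (by positivity)]
  have : (2 : ℝ) / N * ((∑ i ∈ range N, ((i : ℝ) + 1) ^ k) / N ^ k) * (k + 1) =
      2 * ((k + 1) * ∑ i ∈ range N, ((i : ℝ) + 1) ^ k) / N ^ (k + 1) := by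
    field_simp; ring
  rw [this, le_div_iff₀ (by positivity)]
  linarith

noncomputable def QQ (a : Fin d → ℕ) (z : V d) : ℝ := ∏ j, q1 (a j) (z j)

noncomputable def tt (N i : ℕ) : ℝ := ((i : ℝ) + 1) / N

noncomputable def BB (N n : ℕ) (a : Fin d → ℕ) : ℝ :=
  (2 / N) ^ d * ∑ i ∈ Fintype.piFinset (fun _ : Fin d => range N),
    ((∑ j, tt N (i j)) / d) ^ n * ∏ j, tt N (i j) ^ a j

lemma QQ_step (a : Fin d → ℕ) (z : V d) (i : Fin d) :
    (QQ a (z - vec (i, true)) + QQ a (z - vec (i, false))) / 2 = QQ (a + Pi.single i 1) z := by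
  unfold QQ
  have e0 := Finset.mul_prod_erase _ (fun j => q1 ((a + Pi.single i 1 : Fin d → ℕ) j) (z j))
      (Finset.mem_univ i)
  have e1 := Finset.mul_prod_erase _ (fun j => q1 (a j) ((z - vec (i, true)) j))
      (Finset.mem_univ i)
  have e2 := Finset.mul_prod_erase _ (fun j => q1 (a j) ((z - vec (i, false)) j))
      (Finset.mem_univ i)
  refine Eq.trans ?_ e0
  rw [← e1, ← e2]
  have h1 : ∀ b, ∏ j ∈ univ.erase i, q1 (a j) ((z - vec (i, b)) j) =
      ∏ j ∈ univ.erase i, q1 ((a + Pi.single i 1 : Fin d → ℕ) j) (z j) := by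
    intro b
    refine Finset.prod_congr rfl fun j hj => ?_
    have := Finset.ne_of_mem_erase hj
    simp [vec, Pi.single_eq_of_ne this]
  rw [h1, h1]
  simp [vec, q1]
  ring

lemma BB_step (hd : 0 < d) (N n : ℕ) (a : Fin d → ℕ) :
    BB N (n + 1) a = (∑ j, BB N n (a + Pi.single j 1)) / d := by
  have hd' : (d : ℝ) ≠ 0 := by positivity
  unfold BB
  rw [← Finset.mul_sum, Finset.sum_comm, mul_div_assoc, Finset.sum_div]
  congr 1
  refine Finset.sum_congr rfl fun i _ => ?_
  have h : ∀ j : Fin d, ∏ j', tt N (i j') ^ (a + Pi.single j 1 : Fin d → ℕ) j' =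
      tt N (i j) * ∏ j', tt N (i j') ^ a j' := by
    intro j
    simp only [Pi.add_apply, pow_add, Finset.prod_mul_distrib]
    rw [mul_comm]
    congr 1
    rw [Finset.prod_eq_single j (fun b _ hb => by simp [Pi.single_eq_of_ne hb]) (by simp)]
    simp
  simp only [h]
  rw [← Finset.mul_sum, ← Finset.sum_mul, pow_succ]
  field_simp

lemma Ex_QQ (hd : 0 < d) {N : ℕ} (hN : 0 < N) (n : ℕ) (a : Fin d → ℕ) (z : V d) :
    (Ex n fun l => QQ a (z - endp l)) ^ 2 ≤ BB N n a := by
  have hd' : (0 : ℝ) < d := by positivity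
  induction n generalizing a z with
  | zero =>
    simp only [Ex, endp_nil, sub_zero, BB, QQ, pow_zero, one_mul]
    rw [← Finset.prod_pow, ← Finset.prod_univ_sum (fun _ : Fin d => range N)
      (fun j i => tt N i ^ a j)]
    have : ((2 : ℝ) / N) ^ d = ∏ _j : Fin d, (2 : ℝ) / N := by
      rw [Finset.prod_const, Finset.card_univ, Fintype.card_fin]
    rw [this, ← Finset.prod_mul_distrib]
    exact Finset.prod_le_prod (fun j _ => sq_nonneg _) fun j _ =>
      (q1_sq _ _).trans (riemann hN _)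
  | succ n ih =>
    rw [Ex_succ, av_eq, BB_step hd]
    have h1 : ∀ i : Fin d, ((Ex n fun l => QQ a (z - endp ((i, true) :: l))) +
        Ex n fun l => QQ a (z - endp ((i, false) :: l))) / 2 =
        Ex n fun l => QQ (a + Pi.single i 1) (z - endp l) := by
      intro i
      rw [← Ex_add, div_eq_mul_inv, ← Ex_mul']
      refine Ex_congr fun l _ => ?_
      rw [← QQ_step, div_eq_mul_inv]
      simp only [endp_cons]
      congr 3 <;> abel
    simp only [h1]
    have h2 := sq_sum_le_card_mul_sum_sq (s := (univ : Finset (Fin d)))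
      (f := fun i => Ex n fun l => QQ (a + Pi.single i 1) (z - endp l))
    simp only [Finset.card_univ, Fintype.card_fin] at h2
    have h3 := Finset.sum_le_sum fun i (_ : i ∈ (univ : Finset (Fin d))) =>
      ih (a + Pi.single i 1) z
    rw [div_pow, div_le_div_iff₀ (by positivity) hd']
    nlinarith [mul_le_mul_of_nonneg_left h3 hd'.le]

lemma QQ_zero (z : V d) : QQ 0 z = ind (z = 0) := by
  unfold QQ
  by_cases h : z = 0
  · subst h; simp [q1, ind]
  · rw [ind_neg h]
    obtain ⟨j, hj⟩ := Function.ne_iff.1 h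
    exact Finset.prod_eq_zero (Finset.mem_univ j) (ind_neg hj)

lemma BB_end (hd : 0 < d) {n : ℕ} (hn : 0 < n) :
    BB n n (0 : Fin d → ℕ) ≤ (2 / n * (1 - Real.exp (-1 / d))⁻¹) ^ d := by
  have hd' : (0 : ℝ) < d := by positivity
  have hn' : (0 : ℝ) < n := by positivity
  set r := Real.exp (-1 / d) with hr
  have hr0 : 0 ≤ r := (Real.exp_pos _).le
  have hr1 : r < 1 := by
    rw [hr, Real.exp_lt_one_iff]; exact div_neg_of_neg_of_pos (by norm_num) hd'
  unfold BB
  rw [mul_pow]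
  refine mul_le_mul_of_nonneg_left ?_ (by positivity)
  have h1 : ∀ i ∈ Fintype.piFinset (fun _ : Fin d => range n),
      ((∑ j, tt n (i j)) / d) ^ n * ∏ j, tt n (i j) ^ (0 : Fin d → ℕ) j ≤
        ∏ j, r ^ (n - 1 - i j) := by
    intro i hi
    rw [Fintype.mem_piFinset] at hi
    simp only [Pi.zero_apply, pow_zero, Finset.prod_const_one, mul_one]
    have e1 : ∀ j, r ^ (n - 1 - i j) = Real.exp ((tt n (i j) - 1) / d) ^ n := by
      intro j
      have hj := Finset.mem_range.1 (hi j)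
      rw [hr, ← Real.exp_nat_mul, ← Real.exp_nat_mul]
      congr 1
      have : ((n - 1 - i j : ℕ) : ℝ) = n - 1 - i j := by
        rw [Nat.cast_sub (by omega), Nat.cast_sub (by omega)]; simp
      rw [this, tt]; field_simp; ring
    simp only [e1]
    rw [Finset.prod_pow, ← Real.exp_sum]
    refine pow_le_pow_left₀ (div_nonneg (Finset.sum_nonneg fun j _ => by
      unfold tt; positivity) hd'.le) ?_ n
    refine le_trans (le_of_eq ?_) (Real.add_one_le_exp _)
    rw [← Finset.sum_div, Finset.sum_sub_distrib]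
    simp; field_simp; ring
  refine (Finset.sum_le_sum h1).trans ?_
  rw [← Finset.prod_univ_sum (fun _ : Fin d => range n) (fun _ i => r ^ (n - 1 - i))]
  rw [Finset.sum_range_reflect (fun i => r ^ i) n, Finset.prod_const, Finset.card_univ,
    Fintype.card_fin]
  refine pow_le_pow_left₀ (Finset.sum_nonneg fun i _ => by positivity) ?_ d
  rw [← tsum_geometric_of_lt_one hr0 hr1]
  exact (summable_geometric_of_lt_one hr0 hr1).sum_le_tsum _ fun i _ => by positivity

theorem heat (hd : 0 < d) : ∃ C : ℝ, 1 ≤ C ∧ ∀ (n : ℕ) (z : V d), pp n z ^ 2 * (n + 1) ^ d ≤ C := by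
  set c := (1 - Real.exp (-1 / d))⁻¹ with hc
  have hd' : (0 : ℝ) < d := by positivity
  have hc0 : 0 ≤ c := by
    rw [hc, inv_nonneg, sub_nonneg, Real.exp_le_one_iff]
    exact (div_neg_of_neg_of_pos (by norm_num) hd').le
  refine ⟨1 + (4 * c) ^ d, le_add_of_nonneg_right (by positivity), fun n z => ?_⟩
  rcases Nat.eq_zero_or_pos n with rfl | hn
  · have h1 := pp_le_one hd 0 z
    have h2 := pp_nonneg 0 z
    have : 0 ≤ (4 * c) ^ d := by positivity
    simp only [Nat.cast_zero, zero_add, one_pow, mul_one]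
    nlinarith
  have h1 := (Ex_QQ hd hn n 0 z).trans (BB_end hd hn)
  have h2 : (Ex n fun l => QQ 0 (z - endp l)) = pp n z :=
    Ex_congr fun l _ => by rw [QQ_zero]; exact ind_congr (by rw [sub_eq_zero, eq_comm])
  rw [h2] at h1
  have hn' : (1 : ℝ) ≤ n := by exact_mod_cast hn
  refine (mul_le_mul_of_nonneg_right h1 (by positivity)).trans ?_
  rw [← mul_pow]
  refine le_add_of_nonneg_of_le zero_le_one (pow_le_pow_left₀ (by positivity) ?_ d)
  have : 2 / (n : ℝ) * c * (n + 1) = c * (2 * (n + 1) / n) := by ring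
  rw [this, mul_comm 4 c]
  refine mul_le_mul_of_nonneg_left ?_ hc0
  rw [div_le_iff₀ (by positivity)]; linarith

end Pool.Agent.H536Z
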