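import Pool.Agent.H536Z.Saus

/-! A second moment bound for the probability that a walk hits a set of small energy. -/

set_option autoImplicit false

namespace Pool.Agent.H536Z

open Finset

variable {d : ℕ}

noncomputable def En (N : ℕ) (y : ℕ → V d) (n : ℕ) : ℝ :=
  ∑ i ∈ range n, ∑ i' ∈ range n, gg N (y i - y i')

noncomputable def ee (d n N : ℕ) : ℝ :=
  ∑ u ∈ range (n + 1), ∑ t ∈ range (N + 1), pp (u + t) (0 : V d)

noncomputable def KK (d n N : ℕ) : ℝ := 8 * n * ee d n N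

lemma one_le_ee (n N : ℕ) : 1 ≤ ee d n N := by
  unfold ee
  have h0 : pp (0 + 0) (0 : V d) = 1 := by simp [pp, Ex, ind]
  rw [← h0]
  refine le_trans ?_ (Finset.single_le_sum (f := fun u => ∑ t ∈ range (N + 1), pp (u + t) (0 : V d))
    (fun u _ => Finset.sum_nonneg fun t _ => pp_nonneg _ _) (Finset.mem_range.2 (Nat.succ_pos n)))
  exact Finset.single_le_sum (f := fun t => pp (0 + t) (0 : V d)) (fun t _ => pp_nonneg _ _)
    (Finset.mem_range.2 (Nat.succ_pos N))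

lemma sum_inj_le {f : ℕ → ℝ} (hf : ∀ u, 0 ≤ f u) (s : Finset ℕ) (g : ℕ → ℕ) (N : ℕ)
    (hg : Set.InjOn g s) (h : ∀ t ∈ s, g t < N) : ∑ t ∈ s, f (g t) ≤ ∑ u ∈ range N, f u := by
  rw [← Finset.sum_image hg]
  refine Finset.sum_le_sum_of_subset_of_nonneg ?_ fun u _ _ => hf u
  intro u hu
  obtain ⟨t, ht, rfl⟩ := Finset.mem_image.1 hu
  exact Finset.mem_range.2 (h t ht)

lemma dbl {f : ℕ → ℝ} (hf : ∀ u, 0 ≤ f u) (N : ℕ) :
    ∑ t ∈ range N, ∑ t' ∈ range N, f (t - t' + (t' - t)) ≤ 2 * N * ∑ u ∈ range (N + 1), f u := by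
  refine (Finset.sum_le_card_nsmul _ _ (2 * ∑ u ∈ range (N + 1), f u) fun t ht => ?_).trans
    (le_of_eq (by simp; ring))
  have ht' := Finset.mem_range.1 ht
  rw [← Finset.sum_filter_add_sum_filter_not (range N) (fun t' => t' ≤ t), two_mul]
  refine add_le_add (sum_inj_le hf _ (fun t' => t - t' + (t' - t)) _ ?_ ?_)
    (sum_inj_le hf _ (fun t' => t - t' + (t' - t)) _ ?_ ?_)
  · intro a ha b hb h
    simp only [Finset.coe_filter, Finset.mem_range, Set.mem_ofPred_eq] at ha hb h; omega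
  · intro a ha
    simp only [Finset.mem_filter, Finset.mem_range] at ha; omega
  · intro a ha b hb h
    simp only [Finset.coe_filter, Finset.mem_range, Set.mem_ofPred_eq] at ha hb h; omega
  · intro a ha
    simp only [Finset.mem_filter, Finset.mem_range] at ha; omega

lemma En_exp (hd : 0 < d) (n N : ℕ) :
    Ex n (fun l : List (St d) => En N (pos l) n) ≤ 2 * n * ee d n N := by
  unfold En ee
  rw [Ex_sum]
  refine le_trans (le_of_eq ?_) (dbl (f := fun u => ∑ t ∈ range (N + 1), pp (u + t) (0 : V d))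
    (fun u => Finset.sum_nonneg fun t _ => pp_nonneg _ _) n)
  refine Finset.sum_congr rfl fun i hi => ?_
  rw [Ex_sum]
  refine Finset.sum_congr rfl fun i' hi' => ?_
  rw [Ex_incr hd (gg N) (Finset.mem_range.1 hi).le (Finset.mem_range.1 hi').le]
  unfold gg
  rw [Ex_sum]
  exact Finset.sum_congr rfl fun t _ => (pp_add _ _).symm

lemma conf (hd : 0 < d) (hd4 : d ≤ 4) {s : ℕ} (hs : 0 < s) :
    7 / 8 ≤ Ex (s ^ 2) fun l : List (St d) => ind (rad (trace l) ≤ 3 * s) := by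
  have h1 := rad_tail hd (ρ := 3 * s) (by omega) (s ^ 2)
  have h2 : Ex (s ^ 2) (fun l : List (St d) => 1 - ind (3 * s ≤ rad (trace l))) ≤
      Ex (s ^ 2) fun l : List (St d) => ind (rad (trace l) ≤ 3 * s) := by
    refine Ex_mono fun l _ => ?_
    rw [← ind_not]
    exact ind_mono fun h => by omega
  rw [Ex_sub, Ex_const hd] at h2
  have h3 : 15 * (d : ℝ) * ((s ^ 2 : ℕ) : ℝ) ^ 3 / ((3 * s : ℕ) : ℝ) ^ 6 ≤ 1 / 8 := by
    rw [div_le_iff₀ (by positivity)]
    have : (d : ℝ) ≤ 4 := by exact_mod_cast hd4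
    push_cast
    have h4 : (0 : ℝ) ≤ (s : ℝ) ^ 6 := by positivity
    nlinarith
  linarith

lemma good2 (hd : 0 < d) (hd4 : d ≤ 4) {s : ℕ} (hs : 0 < s) (N : ℕ) :
    1 / 2 ≤ Ex (s ^ 2) fun l : List (St d) =>
      ind (rad (trace l) ≤ 3 * s ∧ En N (pos l) (s ^ 2) ≤ KK d (s ^ 2) N) := by
  have he := one_le_ee (d := d) (s ^ 2) N
  have hK : 0 < KK d (s ^ 2) N := by unfold KK; positivity
  have h1 : Ex (s ^ 2) (fun l : List (St d) => ind (rad (trace l) ≤ 3 * s) -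
      (KK d (s ^ 2) N)⁻¹ * En N (pos l) (s ^ 2)) ≤ Ex (s ^ 2) fun l : List (St d) =>
      ind (rad (trace l) ≤ 3 * s ∧ En N (pos l) (s ^ 2) ≤ KK d (s ^ 2) N) := by
    refine Ex_mono fun l _ => ?_
    have h0 : 0 ≤ En N (pos l) (s ^ 2) :=
      Finset.sum_nonneg fun _ _ => Finset.sum_nonneg fun _ _ => gg_nonneg _ _
    by_cases h : En N (pos l) (s ^ 2) ≤ KK d (s ^ 2) N
    · rw [ind_and, ind_pos h, mul_one]
      have : 0 ≤ (KK d (s ^ 2) N)⁻¹ * En N (pos l) (s ^ 2) := by positivity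
      linarith
    · have h2 : 1 ≤ (KK d (s ^ 2) N)⁻¹ * En N (pos l) (s ^ 2) := by
        rw [le_inv_mul_iff₀ hK]; linarith
      have := ind_le_one (rad (trace l) ≤ 3 * s)
      have := ind_nonneg (rad (trace l) ≤ 3 * s ∧ En N (pos l) (s ^ 2) ≤ KK d (s ^ 2) N)
      linarith
  rw [Ex_sub, Ex_mul] at h1
  have h2 := conf hd hd4 hs
  have h3 : (KK d (s ^ 2) N)⁻¹ * Ex (s ^ 2) (fun l : List (St d) => En N (pos l) (s ^ 2)) ≤
      1 / 4 := by
    rw [inv_mul_le_iff₀ hK]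
    refine (En_exp hd _ _).trans (le_of_eq ?_)
    unfold KK; ring
  linarith

lemma sq_count {X ι : Type*} (D : Finset X) (T : Finset ι) (w : ι → X) :
    ∑ x ∈ D, (∑ τ ∈ T, ind (x = w τ)) ^ 2 ≤ ∑ τ ∈ T, ∑ τ' ∈ T, ind (w τ = w τ') := by
  simp only [sq, Finset.sum_mul_sum]
  rw [Finset.sum_comm]
  refine Finset.sum_le_sum fun τ _ => ?_
  rw [Finset.sum_comm]
  refine Finset.sum_le_sum fun τ' _ => ?_
  have : ∀ x, ind (x = w τ) * ind (x = w τ') = ind (x = w τ) * ind (w τ = w τ') := by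
    intro x
    by_cases h : x = w τ
    · rw [h]
    · rw [ind_neg h, zero_mul, zero_mul]
  simp only [this]
  rw [← Finset.sum_mul, sum_ind_eq]
  exact mul_le_of_le_one_left (ind_nonneg _) (ind_le_one _)

lemma small_box (hd : 0 < d) {N ρ : ℕ}
    (hann : ∀ (t : ℕ) (z : V d), N ≤ 8 * (t + 1) → (2 * ρ + 1 : ℝ) ^ d * pp t z ≤ 1 / 8) (y : V d) :
    ∑ t ∈ range N, Ex N (fun l : List (St d) => ind (y - pos l t ∈ box 0 ρ)) ≤ N / 4 := by
  have h1 : ∀ t ∈ range N, Ex N (fun l : List (St d) => ind (y - pos l t ∈ box 0 ρ)) ≤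
      ind (t ∈ range (N / 8)) + 1 / 8 := by
    intro t ht
    by_cases h : N ≤ 8 * (t + 1)
    · have h2 := Ex_incr hd (fun z => ind (y - z ∈ box 0 ρ)) (Finset.mem_range.1 ht).le
        (Nat.zero_le N)
      simp only [pos_zero, sub_zero, Nat.zero_sub, add_zero, Nat.sub_zero] at h2
      rw [h2]
      have h3 : (Ex t fun l : List (St d) => ind (y - endp l ∈ box 0 ρ)) =
          ∑ z ∈ box y ρ, pp t z := by
        rw [sum_pp]
        exact Ex_congr fun l _ => ind_congr (by rw [mem_box, mem_box, sub_zero, nn_sub_comm])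
      rw [h3]
      have hp : (0 : ℝ) < (2 * ρ + 1 : ℝ) ^ d := by positivity
      refine le_add_of_nonneg_of_le (ind_nonneg _) ((Finset.sum_le_card_nsmul _ _
        (1 / 8 / (2 * ρ + 1 : ℝ) ^ d) fun z _ => ?_).trans (le_of_eq ?_))
      · rw [le_div_iff₀ hp, mul_comm]; exact hann t z h
      · rw [card_box, nsmul_eq_mul]; push_cast; field_simp
    · rw [ind_pos (Finset.mem_range.2 (by omega))]
      have := Ex_ind_le_one hd N fun l : List (St d) => y - pos l t ∈ box 0 ρ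
      linarith
  refine (Finset.sum_le_sum h1).trans ?_
  rw [Finset.sum_add_distrib]
  have h2 := sum_ind_mem (range N) (range (N / 8))
  have h3 : ((N / 8 : ℕ) : ℝ) ≤ N / 8 := Nat.cast_div_le
  simp only [Finset.card_range, Finset.sum_const, nsmul_eq_mul] at h2 ⊢
  linarith

lemma hit1 (hd : 0 < d) (hd4 : d ≤ 4) (y : ℕ → V d) (n : ℕ) {s ρ : ℕ} (hs : 0 < s)
    (hy : ∀ i < n, nn (y i) ≤ s) {K : ℝ} (hK : 0 < K) (hE : En (s ^ 2) y n ≤ K)
    (hann : ∀ (t : ℕ) (z : V d), s ^ 2 ≤ 8 * (t + 1) → (2 * ρ + 1 : ℝ) ^ d * pp t z ≤ 1 / 8) :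
    (n : ℝ) ^ 2 * s ^ 2 / (8 * K) ≤ ∑ x ∈ box (0 : V d) (4 * s) \ box 0 ρ, Ex (s ^ 2)
      fun l => ind (rad (trace l) ≤ 3 * s ∧ ∃ i < n, y i - x ∈ trace l) := by
  set N := s ^ 2 with hN
  set D := box (0 : V d) (4 * s) \ box 0 ρ with hD
  set T := range N ×ˢ range n with hT
  set lam : ℝ := n / (4 * K) with hlam
  have hlam0 : 0 ≤ lam := by positivity
  let J : V d → List (St d) → ℝ := fun x l => ∑ τ ∈ T, ind (x = y τ.2 - pos l τ.1)
  let c : List (St d) → ℝ := fun l => ind (rad (trace l) ≤ 3 * s)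
  have hpt : ∀ l : List (St d), l.length = N →
      2 * lam * (c l * ∑ x ∈ D, J x l) - lam ^ 2 * ∑ x ∈ D, J x l ^ 2 ≤
      ∑ x ∈ D, ind (rad (trace l) ≤ 3 * s ∧ ∃ i < n, y i - x ∈ trace l) := by
    intro l hl
    rw [Finset.mul_sum, Finset.mul_sum, Finset.mul_sum, ← Finset.sum_sub_distrib]
    refine Finset.sum_le_sum fun x _ => ?_
    by_cases h1 : rad (trace l) ≤ 3 * s
    · by_cases h2 : ∃ i < n, y i - x ∈ trace l
      · rw [ind_pos ⟨h1, h2⟩]
        simp only [c, ind_pos h1]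
        nlinarith [sq_nonneg (1 - lam * J x l)]
      · have : J x l = 0 := by
          refine Finset.sum_eq_zero fun τ hτ => ind_neg fun h => h2 ?_
          obtain ⟨h3, h4⟩ := Finset.mem_product.1 hτ
          refine ⟨τ.2, Finset.mem_range.1 h4, ?_⟩
          rw [h, sub_sub_cancel]
          exact pos_mem_trace l (by rw [hl]; exact (Finset.mem_range.1 h3).le)
        rw [this]; simp [ind_nonneg]
    · simp only [c, ind_neg h1]
      have := ind_nonneg (rad (trace l) ≤ 3 * s ∧ ∃ i < n, y i - x ∈ trace l)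
      nlinarith [sq_nonneg (lam * J x l)]
  have hA : (n : ℝ) * N / 2 ≤ Ex N fun l => c l * ∑ x ∈ D, J x l := by
    have h1 : ∀ l : List (St d), l.length = N →
        (n : ℝ) * N * c l - ∑ τ ∈ T, ind (y τ.2 - pos l τ.1 ∈ box 0 ρ) ≤
          c l * ∑ x ∈ D, J x l := by
      intro l hl
      by_cases h1 : rad (trace l) ≤ 3 * s
      · simp only [c, ind_pos h1, J, mul_one, one_mul]
        rw [Finset.sum_comm]
        have : (n : ℝ) * N = ∑ τ ∈ T, (1 : ℝ) := by simp [hT, mul_comm]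
        rw [this, ← Finset.sum_sub_distrib]
        refine Finset.sum_le_sum fun τ hτ => ?_
        obtain ⟨h3, h4⟩ := Finset.mem_product.1 hτ
        rw [sum_ind_eq, ← ind_not]
        refine ind_mono fun h => Finset.mem_sdiff.2 ⟨?_, h⟩
        rw [mem_box, sub_zero]
        have t1 := nn_add (y τ.2) (-pos l τ.1)
        have t2 := hy τ.2 (Finset.mem_range.1 h4)
        have t3 := nn_le_rad (pos_mem_trace l (t := τ.1)
          (by rw [hl]; exact (Finset.mem_range.1 h3).le))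
        rw [nn_neg, ← sub_eq_add_neg] at t1
        omega
      · simp only [c, ind_neg h1, mul_zero, zero_mul, zero_sub, neg_nonpos]
        exact Finset.sum_nonneg fun _ _ => ind_nonneg _
    refine le_trans ?_ (Ex_mono h1)
    rw [Ex_sub, Ex_mul, Ex_sum]
    have h2 : 7 / 8 ≤ Ex N c := conf hd hd4 hs
    have h3 : ∑ τ ∈ T, Ex N (fun l : List (St d) => ind (y τ.2 - pos l τ.1 ∈ box 0 ρ)) ≤
        n * (N / 4) := by
      rw [hT, Finset.sum_product_right]
      exact (Finset.sum_le_card_nsmul _ _ _ fun i _ => small_box hd hann (y i)).trans (by simp)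
    have h4 : (0 : ℝ) ≤ (n : ℝ) * N := by positivity
    nlinarith
  have hB : (Ex N fun l => ∑ x ∈ D, J x l ^ 2) ≤ 2 * N * K := by
    refine (Ex_mono fun l _ => sq_count D T fun τ => y τ.2 - pos l τ.1).trans ?_
    rw [Ex_sum]
    have h1 : ∀ τ ∈ T, Ex N (fun l : List (St d) =>
        ∑ τ' ∈ T, ind (y τ.2 - pos l τ.1 = y τ'.2 - pos l τ'.1)) =
        ∑ τ' ∈ T, pp (τ.1 - τ'.1 + (τ'.1 - τ.1)) (y τ.2 - y τ'.2) := by
      intro τ hτ
      rw [Ex_sum]
      refine Finset.sum_congr rfl fun τ' hτ' => ?_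
      have := Ex_incr hd (fun z => ind (z = y τ.2 - y τ'.2))
        (Finset.mem_range.1 (Finset.mem_product.1 hτ).1).le
        (Finset.mem_range.1 (Finset.mem_product.1 hτ').1).le
      unfold pp
      rw [← this]
      refine Ex_congr fun l _ => ind_congr ?_
      rw [sub_eq_sub_iff_sub_eq_sub, eq_comm]
    rw [Finset.sum_congr rfl h1, hT]
    simp only [Finset.sum_product_right]
    refine le_trans ?_ (mul_le_mul_of_nonneg_left hE (by positivity))
    unfold En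
    rw [Finset.mul_sum]
    refine Finset.sum_le_sum fun i _ => ?_
    rw [Finset.sum_comm, Finset.mul_sum]
    refine Finset.sum_le_sum fun i' _ => ?_
    exact dbl (f := fun u => pp u (y i - y i')) (fun u => pp_nonneg _ _) N
  rw [← Ex_sum]
  refine le_trans ?_ (Ex_mono hpt)
  rw [Ex_sub, Ex_mul, Ex_mul]
  have e : (n : ℝ) ^ 2 * s ^ 2 / (8 * K) = 2 * lam * (n * N / 2) - lam ^ 2 * (2 * N * K) := by
    rw [hlam, hN]; push_cast; field_simp; ring
  rw [e]
  exact sub_le_sub (mul_le_mul_of_nonneg_left hA (by positivity))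
    (mul_le_mul_of_nonneg_left hB (by positivity))

/-- a connected set that contains a well spread family of points -/
def Good (M s : ℕ) (x : V d) (A : Finset (V d)) : Prop :=
  (∀ a ∈ A, CR nadj {b | b - x ∈ A} x (x + a)) ∧ ∃ y : ℕ → V d,
    (∀ i < s ^ 2, y i - x ∈ A ∧ nn (y i) ≤ 10 * s) ∧
      En ((M * s) ^ 2) y (s ^ 2) ≤ KK d (s ^ 2) ((M * s) ^ 2)

lemma hit2 (hd : 0 < d) (hd4 : d ≤ 4) (y : ℕ → V d) (n M : ℕ) {s : ℕ} (hs : 0 < s) {x : V d}
    (hx : nn x ≤ 4 * s) {n' : ℕ} (hn' : 2 * s ^ 2 ≤ n') :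
    (Ex (s ^ 2) fun l => ind (rad (trace l) ≤ 3 * s ∧ ∃ i < n, y i - x ∈ trace l)) * (1 / 2) ≤
      Ex n' fun l => ind (Good M s x (trace l) ∧ ∃ i < n, y i - x ∈ trace l) := by
  obtain ⟨w, rfl⟩ : ∃ w, n' = s ^ 2 + (s ^ 2 + w) := ⟨n' - 2 * s ^ 2, by omega⟩
  rw [Ex_append, ← Ex_mul']
  refine Ex_mono fun l1 _ => ?_
  refine (mul_le_mul_of_nonneg_left (good2 hd hd4 hs ((M * s) ^ 2)) (ind_nonneg _)).trans ?_
  rw [Ex_append, ← Ex_mul]
  refine Ex_mono fun l2 hl2 => ?_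
  rw [← ind_and, ← Ex_const hd w (ind _)]
  refine Ex_mono fun l3 _ => ind_mono ?_
  rintro ⟨⟨h1, i, hi, h2⟩, h3, h4⟩
  refine ⟨⟨trace_conn _ x, fun i => x + endp l1 + pos l2 i, fun i hi => ⟨?_, ?_⟩, ?_⟩,
    i, hi, mem_trace_append.2 (Or.inl h2)⟩
  · refine mem_trace_append.2 (Or.inr (mem_trace_append.2 (Or.inl ?_)))
    have : x + endp l1 + pos l2 i - x - endp l1 = pos l2 i := by abel
    rw [this]
    exact pos_mem_trace l2 (by omega)
  · have t1 := nn_add (x + endp l1) (pos l2 i)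
    have t2 := nn_add x (endp l1)
    have t3 := nn_le_rad (endp_mem_trace l1)
    have t4 := nn_le_rad (pos_mem_trace l2 (t := i) (by omega))
    show nn (x + endp l1 + pos l2 i) ≤ 10 * s
    omega
  · unfold En at h4 ⊢
    simpa only [add_sub_add_left_eq_sub] using h4

lemma exists_spread (hd : 0 < d) (hd4 : d ≤ 4) {s : ℕ} (hs : 0 < s) (N : ℕ) :
    ∃ y : ℕ → V d, (∀ i < s ^ 2, nn (y i) ≤ 10 * s) ∧ En N y (s ^ 2) ≤ KK d (s ^ 2) N := by
  obtain ⟨l, hl, h1, h2⟩ := exists_of_Ex_pos (lt_of_lt_of_le (by norm_num) (good2 hd hd4 hs N))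
  refine ⟨pos l, fun i hi => ?_, h2⟩
  have := nn_le_rad (pos_mem_trace l (t := i) (by omega))
  omega

lemma conv_le {f : ℕ → ℝ} (hf : ∀ u, 0 ≤ f u) (n N : ℕ) :
    ∑ u ∈ range (n + 1), ∑ t ∈ range (N + 1), f (u + t) ≤
      ∑ w ∈ range (n + N + 1), ((w : ℝ) + 1) * f w := by
  rw [← Finset.sum_product']
  have hsub : range (n + 1) ×ˢ range (N + 1) ⊆ (range (n + N + 1)).biUnion HasAntidiagonal.antidiagonal := by
    intro p hp
    simp only [Finset.mem_product, Finset.mem_range, Finset.mem_biUnion,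
      HasAntidiagonal.mem_antidiagonal] at hp ⊢
    exact ⟨p.1 + p.2, by omega, rfl⟩
  refine (Finset.sum_le_sum_of_subset_of_nonneg hsub fun p _ _ => hf _).trans (le_of_eq ?_)
  rw [Finset.sum_biUnion]
  · refine Finset.sum_congr rfl fun w _ => ?_
    rw [Finset.sum_congr rfl (g := fun _ => f w)
      fun p hp => by rw [HasAntidiagonal.mem_antidiagonal.1 hp]]
    simp
  · intro a _ b _ hab
    rw [Function.onFun, Finset.disjoint_left]
    intro p h1 h2
    rw [HasAntidiagonal.mem_antidiagonal] at h1 h2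
    exact hab (h1.symm.trans h2)

lemma sum_rpow_le {a : ℝ} (ha0 : 0 < a) (ha1 : a ≤ 1) (W : ℕ) :
    ∑ w ∈ range W, ((w : ℝ) + 1) ^ (a - 1) ≤ (W : ℝ) ^ a / a := by
  induction W with
  | zero => simp; positivity
  | succ W ih =>
    rw [Finset.sum_range_succ]
    have hW : (0 : ℝ) < (W : ℝ) + 1 := by positivity
    have h1 := rpow_one_add_le_one_add_mul_self (s := -1 / ((W : ℝ) + 1)) (p := a)
      (by rw [le_div_iff₀ hW]; have : (0 : ℝ) ≤ W := Nat.cast_nonneg W; linarith) ha0.le ha1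
    have e1 : 1 + -1 / ((W : ℝ) + 1) = W / (W + 1) := by field_simp; ring
    rw [e1, Real.div_rpow (Nat.cast_nonneg W) hW.le, div_le_iff₀ (by positivity)] at h1
    have e2 : ((W : ℝ) + 1) ^ (a - 1) = ((W : ℝ) + 1) ^ a / (W + 1) := Real.rpow_sub_one hW.ne' a
    push_cast
    rw [e2, le_div_iff₀ ha0] at *
    have e3 : (1 + a * (-1 / ((W : ℝ) + 1))) * ((W : ℝ) + 1) ^ a =
        ((W : ℝ) + 1) ^ a - ((W : ℝ) + 1) ^ a / (W + 1) * a := by field_simp; ring
    rw [e3] at h1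
    linarith

lemma ee_le {C a : ℝ} (hC1 : 1 ≤ C) (hC : ∀ (n : ℕ) (z : V d), pp n z ^ 2 * (n + 1) ^ d ≤ C)
    (ha0 : 0 < a) (ha1 : a ≤ 1) (had : 4 - 2 * a ≤ d) (n N : ℕ) :
    ee d n N ≤ C * ((n + N + 1 : ℕ) : ℝ) ^ a / a := by
  refine (conv_le (f := fun w => pp w (0 : V d)) (fun _ => pp_nonneg _ _) n N).trans ?_
  rw [mul_div_assoc]
  refine le_trans ?_ (mul_le_mul_of_nonneg_left (sum_rpow_le ha0 ha1 _) (by linarith))
  rw [Finset.mul_sum]
  refine Finset.sum_le_sum fun w _ => ?_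
  have hw : (1 : ℝ) ≤ (w : ℝ) + 1 := by have : (0 : ℝ) ≤ w := Nat.cast_nonneg w; linarith
  have hw0 : (0 : ℝ) < (w : ℝ) + 1 := by linarith
  have h1 : pp w (0 : V d) * ((w : ℝ) + 1) ^ (2 - a) ≤ C := by
    have h2 : (pp w (0 : V d) * ((w : ℝ) + 1) ^ (2 - a)) ^ 2 ≤ C := by
      rw [mul_pow]
      refine le_trans (mul_le_mul_of_nonneg_left ?_ (sq_nonneg _)) (hC w 0)
      rw [← Real.rpow_natCast, ← Real.rpow_mul hw0.le, ← Real.rpow_natCast]
      exact Real.rpow_le_rpow_of_exponent_le hw (by push_cast; linarith)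
    nlinarith
  have e : ((w : ℝ) + 1) * pp w (0 : V d) =
      (pp w (0 : V d) * ((w : ℝ) + 1) ^ (2 - a)) * ((w : ℝ) + 1) ^ (a - 1) := by
    rw [mul_assoc, ← Real.rpow_add hw0]
    have : 2 - a + (a - 1) = 1 := by ring
    rw [this, Real.rpow_one, mul_comm]
  rw [e]
  exact mul_le_mul_of_nonneg_right h1 (by positivity)

end Pool.Agent.H536Z
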