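import Pool.Agent.H536Z.Upper

/-! An abstract criterion for percolation: a chain of sets on growing scales. -/

set_option autoImplicit false

namespace Pool.Agent.H536Z

open MeasureTheory ProbabilityTheory

variable {d : ℕ} {Ω : Type*}

def Gam (W : V d → Ω → Finset (V d) → Prop) (D : ℕ → Finset (V d))
    (Good : ℕ → V d → Finset (V d) → Prop) : ℕ → Ω → V d × Finset (V d) → Prop
  | 0, ω, q => q.1 ∈ D 0 ∧ W q.1 ω q.2 ∧ Good 0 q.1 q.2
  | k + 1, ω, q => q.1 ∈ D (k + 1) ∧ W q.1 ω q.2 ∧ Good (k + 1) q.1 q.2 ∧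
      ∃ q', Gam W D Good k ω q' ∧ ∃ a ∈ q'.2, q'.1 + a - q.1 ∈ q.2

lemma Gam.basic {W : V d → Ω → Finset (V d) → Prop} {D : ℕ → Finset (V d)}
    {Good : ℕ → V d → Finset (V d) → Prop} {k : ℕ} {ω : Ω} {q : V d × Finset (V d)}
    (h : Gam W D Good k ω q) : q.1 ∈ D k ∧ W q.1 ω q.2 ∧ Good k q.1 q.2 := by
  cases k with
  | zero => exact h
  | succ k => exact ⟨h.1, h.2.1, h.2.2.1⟩

lemma Gam_meas (W : V d → Ω → Finset (V d) → Prop) (D : ℕ → Finset (V d))
    (Good : ℕ → V d → Finset (V d) → Prop) (k : ℕ) (q : V d × Finset (V d)) :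
    MeasurableSet[G W {x | ∃ j ≤ k, x ∈ D j}] {ω | Gam W D Good k ω q} := by
  induction k generalizing q with
  | zero =>
    have : {ω | Gam W D Good 0 ω q} = ⋃ (_ : q.1 ∈ D 0 ∧ Good 0 q.1 q.2), {ω | W q.1 ω q.2} := by
      ext ω; simp only [Gam, Set.mem_ofPred_eq, Set.mem_iUnion, exists_prop]; tauto
    rw [this]
    exact MeasurableSet.iUnion fun h => G_basic W (D := {x | ∃ j ≤ 0, x ∈ D j}) ⟨0, le_rfl, h.1⟩ _
  | succ k ih =>
    have : {ω | Gam W D Good (k + 1) ω q} = ⋃ (_ : q.1 ∈ D (k + 1) ∧ Good (k + 1) q.1 q.2),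
        {ω | W q.1 ω q.2} ∩ ⋃ q' : V d × Finset (V d),
          ⋃ (_ : ∃ a ∈ q'.2, q'.1 + a - q.1 ∈ q.2), {ω | Gam W D Good k ω q'} := by
      ext ω
      simp only [Gam, Set.mem_ofPred_eq, Set.mem_iUnion, exists_prop, Set.mem_inter_iff]
      constructor
      · rintro ⟨h1, h2, h3, q', h4, h5⟩; exact ⟨⟨h1, h3⟩, h2, q', h5, h4⟩
      · rintro ⟨⟨h1, h3⟩, h2, q', h5, h4⟩; exact ⟨h1, h2, h3, q', h4, h5⟩
    rw [this]
    refine MeasurableSet.iUnion fun h => (G_basic W (D := {x | ∃ j ≤ k + 1, x ∈ D j}) ⟨k + 1, le_rfl, h.1⟩ _).inter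
      (MeasurableSet.iUnion fun q' => MeasurableSet.iUnion fun _ => ?_)
    refine G_mono W ?_ _ (ih q')
    rintro x ⟨j, hj, hx⟩
    exact ⟨j, by omega, hx⟩

/-- no set placed at a site `y` of `D` satisfies `φ y` -/
def NoHit (W : V d → Ω → Finset (V d) → Prop) (D : Finset (V d))
    (φ : V d → Finset (V d) → Prop) : Set Ω := {ω | ∀ y ∈ D, ∀ B, W y ω B → ¬ φ y B}

lemma NoHit_meas (W : V d → Ω → Finset (V d) → Prop) (D : Finset (V d))
    (φ : V d → Finset (V d) → Prop) : MeasurableSet[G W D] (NoHit W D φ) := by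
  have : NoHit W D φ = ⋂ y, ⋂ (_ : y ∈ D), ⋂ B, ⋂ (_ : φ y B), {ω | W y ω B}ᶜ := by
    ext ω
    simp only [NoHit, Set.mem_ofPred_eq, Set.mem_iInter, Set.mem_compl_iff]
    refine forall_congr' fun y => forall_congr' fun _ => forall_congr' fun B => ?_
    tauto
  rw [this]
  exact MeasurableSet.iInter fun y => MeasurableSet.iInter fun hy => MeasurableSet.iInter fun B =>
    MeasurableSet.iInter fun _ => (G_basic W hy B).compl

variable [mΩ : MeasurableSpace Ω] (P : Measure Ω) [IsProbabilityMeasure P]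
  (W : V d → Ω → Finset (V d) → Prop)

lemma NoHit_le (hind : ∀ D D', Disjoint D D' → Indep (G W D) (G W D') P)
    (φ : V d → Finset (V d) → Prop) (c : V d → ℝ)
    (h : ∀ y, P.real {ω | ∀ B, W y ω B → ¬ φ y B} ≤ Real.exp (-c y)) (D : Finset (V d)) :
    P.real (NoHit W D φ) ≤ Real.exp (-∑ y ∈ D, c y) := by
  classical
  induction D using Finset.induction_on with
  | empty => simp [measureReal_le_one]
  | insert y D hy ih =>
    have h1 : NoHit W (insert y D) φ = NoHit W {y} φ ∩ NoHit W D φ := by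
      ext ω; simp [NoHit]
    have h2 : NoHit W {y} φ = {ω | ∀ B, W y ω B → ¬ φ y B} := by
      ext ω; simp [NoHit]
    rw [h1, indep_real (hind _ _ (by simpa using hy)) (NoHit_meas W {y} φ) (NoHit_meas W D φ),
      Finset.sum_insert hy, neg_add, Real.exp_add, h2]
    exact mul_le_mul (h y) ih measureReal_nonneg (Real.exp_pos _).le

theorem lower (hmeas : ∀ x A, MeasurableSet {ω | W x ω A})
    (hind : ∀ D D', Disjoint D D' → Indep (G W D) (G W D') P)
    (adj : V d → V d → Prop) (hsymm : ∀ u w, adj u w → adj w u)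
    (D : ℕ → Finset (V d)) (hD : ∀ j k, j < k → Disjoint (D j) (D k))
    (Good : ℕ → V d → Finset (V d) → Prop)
    (hconn : ∀ k x A, Good k x A → ∀ a ∈ A, CR adj {b | b - x ∈ A} x (x + a))
    (e : ℕ → ENNReal) (he : ∑' k, e k < 1)
    (h0 : P (NoHit W (D 0) (Good 0)) ≤ e 0)
    (hstep : ∀ k x A, x ∈ D k → Good k x A →
      P (NoHit W (D (k + 1)) fun y B => Good (k + 1) y B ∧ ∃ a ∈ A, x + a - y ∈ B) ≤ e (k + 1)) :
    P {ω | Perc adj (occ (fun x => W x ω) Set.univ fun _ => True)} ≠ 0 := by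
  classical
  intro hzero
  have hGle : ∀ D, G W D ≤ mΩ := fun D => G_le W fun x _ A => hmeas x A
  let E : ℕ → Set Ω := fun k => {ω | ∃ q, Gam W D Good k ω q}
  have hE : ∀ k, P (E k \ E (k + 1)) ≤ e (k + 1) := by
    intro k
    obtain ⟨f, hf⟩ := exists_surjective_nat (V d × Finset (V d))
    let g : ℕ → Set Ω := fun n => {ω | Gam W D Good k ω (f n)}
    have hg : ∀ n, MeasurableSet[G W {x | ∃ j ≤ k, x ∈ D j}] (disjointed g n) := fun n =>
      MeasurableSet.disjointed (fun n => Gam_meas W D Good k (f n)) n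
    let N : ℕ → Set Ω := fun n => NoHit W (D (k + 1))
      fun y B => Good (k + 1) y B ∧ ∃ a ∈ (f n).2, (f n).1 + a - y ∈ B
    have hsub : E k \ E (k + 1) ⊆ ⋃ n, disjointed g n ∩ N n := by
      rintro ω ⟨⟨q, hq⟩, h2⟩
      obtain ⟨n, rfl⟩ := hf q
      have : ω ∈ ⋃ n, disjointed g n := by
        rw [iUnion_disjointed]; exact Set.mem_iUnion.2 ⟨n, hq⟩
      obtain ⟨m, hm⟩ := Set.mem_iUnion.1 this
      refine Set.mem_iUnion.2 ⟨m, hm, ?_⟩
      intro y hy B hB hφ
      exact h2 ⟨(y, B), hy, hB, hφ.1, f m, disjointed_subset g m hm, hφ.2⟩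
    have hdisj : Disjoint {x | ∃ j ≤ k, x ∈ D j} (D (k + 1) : Set (V d)) := by
      rw [Set.disjoint_left]
      rintro x ⟨j, hj, hx⟩ hx'
      exact Finset.disjoint_left.1 (hD j (k + 1) (by omega)) hx hx'
    have hterm : ∀ n, P (disjointed g n ∩ N n) ≤ P (disjointed g n) * e (k + 1) := by
      intro n
      rcases (disjointed g n).eq_empty_or_nonempty with h | ⟨ω, hω⟩
      · simp [h]
      have hb := Gam.basic (disjointed_subset g n hω)
      rw [(Indep_iff _ _ P).1 (hind _ _ hdisj) _ _ (hg n) (NoHit_meas W _ _)]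
      exact mul_le_mul_right (hstep k _ _ hb.1 hb.2.2) _
    refine (measure_mono hsub).trans ((measure_iUnion_le _).trans
      ((ENNReal.tsum_le_tsum hterm).trans ?_))
    rw [ENNReal.tsum_mul_right,
      ← measure_iUnion (disjoint_disjointed g) fun n => hGle _ _ (hg n)]
    exact mul_le_of_le_one_left' prob_le_one
  let bad : ℕ → Set Ω := fun k => match k with
    | 0 => (E 0)ᶜ
    | k + 1 => E k \ E (k + 1)
  have hbad : ∀ k, P (bad k) ≤ e k := by
    intro k
    cases k with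
    | zero =>
      refine le_trans (measure_mono ?_) h0
      intro ω hω y hy B hB hg
      exact hω ⟨(y, B), hy, hB, hg⟩
    | succ k => exact hE k
  have hcover : (Set.univ : Set Ω) ⊆
      {ω | Perc adj (occ (fun x => W x ω) Set.univ fun _ => True)} ∪ ⋃ k, bad k := by
    intro ω _
    by_cases hb : ω ∈ ⋃ k, bad k
    · exact Or.inr hb
    left
    simp only [Set.mem_iUnion, not_exists] at hb
    have hall : ∀ k, ω ∈ E k := by
      intro k
      induction k with
      | zero => exact not_not.1 (hb 0)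
      | succ k ih => by_contra h; exact hb (k + 1) ⟨ih, h⟩
    set S := occ (fun x => W x ω) Set.univ fun _ => True with hS
    have hin : ∀ k q, Gam W D Good k ω q → ∀ a ∈ q.2, CR adj S q.1 (q.1 + a) := by
      intro k q hq a ha
      refine (hconn k _ _ hq.basic.2.2 a ha).mono ?_ fun _ _ h => h
      intro b hb
      exact ⟨q.1, trivial, q.2, hq.basic.2.1, trivial, hb⟩
    have hchain : ∀ k q, Gam W D Good k ω q → ∃ x0 ∈ D 0, CR adj S x0 q.1 := by
      intro k
      induction k with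
      | zero => intro q hq; exact ⟨q.1, hq.1, CR.refl _ _⟩
      | succ k ih =>
        intro q hq
        obtain ⟨q', h1, a, ha, h2⟩ := hq.2.2.2
        obtain ⟨x0, hx0, h3⟩ := ih q' h1
        refine ⟨x0, hx0, h3.trans ((hin k q' h1 a ha).trans ?_)⟩
        have := (hin (k + 1) q hq _ h2).symm hsymm
        rwa [add_sub_cancel] at this
    by_contra hnp
    simp only [Set.mem_ofPred_eq, Perc, not_exists, Set.not_infinite] at hnp
    have hfinU : (⋃ x0 ∈ (D 0 : Set (V d)), {b | CR adj S x0 b}).Finite :=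
      (D 0).finite_toSet.biUnion fun x0 _ => hnp x0
    choose q hq using hall
    have hinj : Function.Injective fun k => (q k).1 := by
      intro j k hjk
      by_contra hne
      rcases lt_or_gt_of_ne hne with h | h
      · exact Finset.disjoint_left.1 (hD j k h) (hq j).basic.1
          (by simp only at hjk; rw [hjk]; exact (hq k).basic.1)
      · exact Finset.disjoint_left.1 (hD k j h) (hq k).basic.1
          (by simp only at hjk; rw [← hjk]; exact (hq j).basic.1)
    refine (Set.infinite_range_of_injective hinj) (hfinU.subset ?_)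
    rintro _ ⟨k, rfl⟩
    obtain ⟨x0, hx0, h⟩ := hchain k _ (hq k)
    exact Set.mem_biUnion hx0 h
  have h1 := (measure_mono (μ := P) hcover).trans (measure_union_le _ _)
  rw [hzero, zero_add, measure_univ] at h1
  have h2 := h1.trans ((measure_iUnion_le _).trans (ENNReal.tsum_le_tsum hbad))
  exact absurd he (not_lt.2 h2)

end Pool.Agent.H536Z
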