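import Pool.Agent.H536Z.PercThm

/-! The two concrete descriptions of the worm soup satisfy `Model`. -/

set_option autoImplicit false

namespace Pool.Agent.H536Z

open MeasureTheory ProbabilityTheory Finset

variable {d : ℕ}

lemma pos_ofFn {n : ℕ} (s : Fin n → St d) (t : ℕ) :
    pos (List.ofFn s) t = ∑ i : Fin n with i.val < t, vec (s i) := by
  unfold pos endp
  rw [List.map_take, List.map_ofFn, List.sum_take_ofFn]; rfl

lemma sum_ind_trace (φ : Finset (V d) → Prop) (s : Finset (Finset (V d))) (B : Finset (V d)) :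
    ∑ A ∈ s, ind (φ A) * ind (B = A) = ind (φ B) * ind (B ∈ s) := by
  rw [← sum_ind_eq, Finset.mul_sum]
  refine Finset.sum_congr rfl fun A _ => ?_
  by_cases h : B = A
  · rw [h]
  · rw [ind_neg h, ind_neg (Ne.symm h), mul_zero, mul_zero]

theorem indicator_model (hd : 0 < d) {Ω : Type*} [mΩ : MeasurableSpace Ω] (P : Measure Ω)
    [IsProbabilityMeasure P] (ξ : V d × Finset (V d) → Ω → Bool) (hξ : ∀ k, Measurable (ξ k))
    (hind : iIndepFun ξ P) {v : ℝ} (hv : 0 ≤ v) {q : ℕ → ℝ} (hq0 : ∀ n, 0 ≤ q n)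
    (hq : Summable q)
    (hP : ∀ k, P {ω | ξ k ω = true} = ENNReal.ofReal (1 - Real.exp
      (-(v * ∑' n, q n * Ex n fun l => ind (trace l = k.2))))) :
    Model P (fun x ω A => ξ (x, A) ω = true) v q := by
  classical
  have hnn : ∀ (A : Finset (V d)) n, 0 ≤ q n * Ex n fun l => ind (trace l = A) :=
    fun A n => mul_nonneg (hq0 n) (Ex_ind_nonneg _ _)
  have hsum : ∀ A : Finset (V d), Summable fun n => q n * Ex n fun l => ind (trace l = A) :=
    fun A => Summable.of_nonneg_of_le (hnn A)
      (fun n => mul_le_of_le_one_right (hq0 n) (Ex_ind_le_one hd _ _)) hq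
  have hm : ∀ k, MeasurableSet[MeasurableSpace.comap (ξ k) inferInstance] {ω | ξ k ω = true} :=
    fun k => ⟨{true}, trivial, rfl⟩
  have hP' : ∀ x (A : Finset (V d)), P {ω | ξ (x, A) ω = true} ≤
      ∑' n, ENNReal.ofReal (v * (q n * Ex n fun l => ind (trace l = A))) := by
    intro x A
    rw [hP, ← ENNReal.ofReal_tsum_of_nonneg (fun n => mul_nonneg hv (hnn A n))
      ((hsum A).mul_left v), tsum_mul_left]
    refine ENNReal.ofReal_le_ofReal ?_
    have := Real.add_one_le_exp (-(v * ∑' n, q n * Ex n fun l => ind (trace l = A)))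
    linarith
  have hup : ∀ x (φ : Finset (V d) → Prop), ∑' A, P {ω | ξ (x, A) ω = true ∧ φ A} ≤
      ∑' n, ENNReal.ofReal (v * (q n * Ex n fun l => ind (φ (trace l)))) := by
    intro x φ
    have h1 : ∀ A, P {ω | ξ (x, A) ω = true ∧ φ A} ≤
        ∑' n, ENNReal.ofReal (v * (q n * Ex n fun l => ind (φ A) * ind (trace l = A))) := by
      intro A
      by_cases h : φ A
      · simp only [h, and_true, ind_pos, one_mul]; exact hP' x A
      · simp [h]
    refine (ENNReal.tsum_le_tsum h1).trans ?_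
    rw [ENNReal.tsum_comm]
    refine ENNReal.tsum_le_tsum fun n => tsum_ofReal_le (fun A => mul_nonneg hv (mul_nonneg (hq0 n)
      (Ex_nonneg fun l => mul_nonneg (ind_nonneg _) (ind_nonneg _)))) fun s => ?_
    rw [← Finset.mul_sum, ← Finset.mul_sum, ← Ex_sum]
    refine mul_le_mul_of_nonneg_left (mul_le_mul_of_nonneg_left (Ex_mono fun l _ => ?_)
      (hq0 n)) hv
    rw [sum_ind_trace]
    exact mul_le_of_le_one_right (ind_nonneg _) (ind_le_one _)
  refine ⟨fun x A => hξ _ (measurableSet_singleton true), fun D D' hD => ?_, fun x φ => ?_,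
    fun x => ?_, fun x φ F => ?_⟩
  · have h1 := indep_iSup_of_disjoint (fun k => (hξ k).comap_le) hind.iIndep
      (S := {k | k.1 ∈ D}) (T := {k | k.1 ∈ D'})
      (Set.disjoint_left.2 fun k h1 h2 => Set.disjoint_left.1 hD h1 h2)
    have h2 : ∀ D : Set (V d), G (fun x ω A => ξ (x, A) ω = true) D ≤
        ⨆ k ∈ {k : V d × Finset (V d) | k.1 ∈ D}, MeasurableSpace.comap (ξ k) inferInstance := by
      intro D
      refine G_le _ fun x hx A => ?_
      exact le_iSup₂ (f := fun (k : V d × Finset (V d)) (_ : k ∈ {k : V d × Finset (V d) | k.1 ∈ D})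
        => MeasurableSpace.comap (ξ k) inferInstance) (x, A) hx _ (hm (x, A))
    exact indep_of_indep_of_le_right (indep_of_indep_of_le_left h1 (h2 D)) (h2 D')
  · refine le_trans ?_ (hup x φ)
    refine le_trans (measure_mono ?_) (measure_iUnion_le _)
    rintro ω ⟨A, h⟩
    exact Set.mem_iUnion.2 ⟨A, h⟩
  · have h1 := hup x fun _ => True
    simp only [and_true] at h1
    refine ae_finite_setOfPred_mem (s := fun A => {ω | ξ (x, A) ω = true})
      (ne_top_of_le_ne_top (b := ENNReal.ofReal (v * ∑' n, q n)) ENNReal.ofReal_ne_top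
        (h1.trans (tsum_ofReal_le (fun n => mul_nonneg hv (mul_nonneg (hq0 n) (Ex_ind_nonneg _ _)))
          fun s => ?_)))
    rw [← Finset.mul_sum]
    refine mul_le_mul_of_nonneg_left (le_trans (Finset.sum_le_sum fun n _ =>
      mul_le_of_le_one_right (hq0 n) (Ex_ind_le_one hd _ _)) ?_) hv
    exact hq.sum_le_tsum s fun n _ => hq0 n
  · set 𝒜 := ((box (0 : V d) (F.sup id)).powerset).filter φ with h𝒜
    have hsub : {ω | ∀ B, ξ (x, B) ω = true → ¬ φ B} ⊆ ⋂ A ∈ 𝒜, {ω | ξ (x, A) ω = true}ᶜ := by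
      intro ω hω
      simp only [Set.mem_iInter]
      exact fun A hA h => hω A h (Finset.mem_filter.1 hA).2
    have h1 := (hind.precomp (g := fun A => (x, A)) (Prod.mk_right_injective x)).meas_biInter
      (S := 𝒜) (s := fun A => {ω | ξ (x, A) ω = true}ᶜ) fun A _ => (hm (x, A)).compl
    have h2 : ∀ A, P {ω | ξ (x, A) ω = true}ᶜ = ENNReal.ofReal (Real.exp
        (-(v * ∑' n, q n * Ex n fun l => ind (trace l = A)))) := by
      intro A
      have h0 : 0 ≤ v * ∑' n, q n * Ex n fun l => ind (trace l = A) :=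
        mul_nonneg hv (tsum_nonneg (hnn A))
      have hms : MeasurableSet {ω | ξ (x, A) ω = true} := hξ _ (measurableSet_singleton true)
      rw [prob_compl_eq_one_sub hms, hP, ← ENNReal.ofReal_one,
        ← ENNReal.ofReal_sub _ (by rw [sub_nonneg, Real.exp_le_one_iff]; linarith)]
      simp
    refine real_le_of_le (Real.exp_pos _).le ((measure_mono hsub).trans ?_)
    rw [h1]
    simp only [h2]
    rw [← ENNReal.ofReal_prod_of_nonneg fun A _ => (Real.exp_pos _).le, ← Real.exp_sum]
    refine ENNReal.ofReal_le_ofReal (Real.exp_le_exp.2 ?_)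
    rw [Finset.sum_neg_distrib, ← Finset.mul_sum]
    refine neg_le_neg (mul_le_mul_of_nonneg_left ?_ hv)
    refine le_trans ?_ (Finset.sum_le_sum fun A _ => (hsum A).sum_le_tsum F fun n _ => hnn A n)
    rw [Finset.sum_comm]
    refine Finset.sum_le_sum fun n hn => ?_
    rw [← Finset.mul_sum, ← Ex_sum]
    refine mul_le_mul_of_nonneg_left (Ex_mono fun l hl => ?_) (hq0 n)
    have := sum_ind_trace (fun _ => True) 𝒜 (trace l)
    simp only [ind_pos, one_mul] at this
    rw [this]
    refine ind_mono fun h => Finset.mem_filter.2 ⟨Finset.mem_powerset.2 fun a ha => ?_, h⟩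
    rw [mem_box, sub_zero]
    have h3 : n ≤ F.sup id := Finset.le_sup (f := id) hn
    have h4 := (nn_le_rad ha).trans (rad_trace_le l)
    omega

end Pool.Agent.H536Z
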