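import Pool.Agent.H536Z.ModelInd

/-! The product description of the worm soup satisfies `Model`. -/

set_option autoImplicit false
set_option maxHeartbeats 400000

namespace Pool.Agent.H536Z

open MeasureTheory ProbabilityTheory Finset

variable {d : ℕ}

lemma indep_prod {α β : Type*} {m1 m2 : MeasurableSpace α} {n1 n2 : MeasurableSpace β}
    [mα : MeasurableSpace α] [mβ : MeasurableSpace β] {μ : Measure α} {ν : Measure β}
    [IsProbabilityMeasure μ] [IsProbabilityMeasure ν] (h1 : m1 ≤ mα) (h2 : m2 ≤ mα)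
    (k1 : n1 ≤ mβ) (k2 : n2 ≤ mβ) (hm : Indep m1 m2 μ) (hn : Indep n1 n2 ν) :
    Indep (m1.prod n1) (m2.prod n2) (μ.prod ν) := by
  have hle : ∀ {m : MeasurableSpace α} {n : MeasurableSpace β}, m ≤ mα → n ≤ mβ →
      m.prod n ≤ mα.prod mβ := fun h k =>
    sup_le_sup (MeasurableSpace.comap_mono h) (MeasurableSpace.comap_mono k)
  refine IndepSets.indep (hle h1 k1) (hle h2 k2) (@isPiSystem_prod α β m1 n1)
    (@isPiSystem_prod α β m2 n2) (@generateFrom_prod α β m1 n1).symm
    (@generateFrom_prod α β m2 n2).symm ?_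
  rw [IndepSets_iff]
  rintro _ _ ⟨s, hs, t, ht, rfl⟩ ⟨s', hs', t', ht', rfl⟩
  simp only [Set.prod_inter_prod, Measure.prod_prod]
  rw [(Indep_iff _ _ μ).1 hm s s' hs hs', (Indep_iff _ _ ν).1 hn t t' ht ht']
  ring

/-- sigma-algebra of the coordinates in `S` -/
@[instance_reducible] def coord (ι : Type*) (α : Type*) [mα : MeasurableSpace α] (S : Set ι) :
    MeasurableSpace (ι → α) := ⨆ i ∈ S, MeasurableSpace.comap (fun ω => ω i) mα

lemma coord_le (ι : Type*) (α : Type*) [mα : MeasurableSpace α] (S : Set ι) :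
    coord ι α S ≤ MeasurableSpace.pi :=
  iSup₂_le fun i _ => (measurable_pi_apply i).comap_le

lemma coord_meas {ι α : Type*} [mα : MeasurableSpace α] {S : Set ι} {i : ι} (hi : i ∈ S)
    {t : Set α} (ht : MeasurableSet t) : MeasurableSet[coord ι α S] {ω | ω i ∈ t} :=
  le_iSup₂ (f := fun (i : ι) (_ : i ∈ S) => MeasurableSpace.comap (fun ω : ι → α => ω i) mα)
    i hi _ ⟨t, ht, rfl⟩

lemma coord_indep {ι α : Type*} [mα : MeasurableSpace α] (μ : Measure α) [IsProbabilityMeasure μ]
    {S T : Set ι} (h : Disjoint S T) :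
    Indep (coord ι α S) (coord ι α T) (Measure.infinitePi fun _ : ι => μ) :=
  indep_iSup_of_disjoint (fun i => (measurable_pi_apply i).comap_le)
    (iIndepFun_infinitePi (P := fun _ : ι => μ) (X := fun _ a => a)
      fun _ => measurable_id).iIndep h

lemma coord_eval {ι α : Type*} [mα : MeasurableSpace α] (μ : Measure α) [IsProbabilityMeasure μ]
    (i : ι) {t : Set α} (ht : MeasurableSet t) :
    (Measure.infinitePi fun _ : ι => μ) {ω | ω i ∈ t} = μ t := by
  have h := Measure.map_apply (μ := Measure.infinitePi fun _ : ι => μ) (measurable_pi_apply i) ht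
  rw [Measure.infinitePi_map_eval (fun _ : ι => μ) i] at h
  exact h.symm

section product

variable {X E : Type} [MeasurableSpace E] [DiscreteMeasurableSpace E]
  (σ : E ≃ St d) (off : ℕ)

/-- the worm with index `p` has `n` steps and its trace satisfies `φ` -/
def Wm (p : X × ℕ) (φ : Finset (V d) → Prop) : Set ((X × ℕ → ℕ) × (X × ℕ × ℕ → E)) :=
  ⋃ n : ℕ, {L | L p ∈ ({n + off} : Set ℕ)} ×ˢ
    {S | φ (trace (List.ofFn fun k : Fin n => σ (S (p.1, p.2, k))))}

omit [MeasurableSpace E] [DiscreteMeasurableSpace E] in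
lemma steps_eq (p : X × ℕ) (φ : Finset (V d) → Prop) (n : ℕ) :
    {S : X × ℕ × ℕ → E | φ (trace (List.ofFn fun k : Fin n => σ (S (p.1, p.2, k))))} =
      ⋃ s ∈ (open Classical in
        (Finset.univ.filter fun s : Fin n → St d => φ (trace (List.ofFn s)))),
        ⋂ k : Fin n, {S | S (p.1, p.2, k) ∈ ({σ.symm (s k)} : Set E)} := by
  ext S
  simp only [Set.mem_ofPred_eq, Set.mem_iUnion, Finset.mem_filter, Finset.mem_univ, true_and,
    Set.mem_iInter, Set.mem_singleton_iff, exists_prop]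
  constructor
  · intro h; exact ⟨_, h, fun k => by simp⟩
  · rintro ⟨s, h1, h2⟩
    simpa only [h2, Equiv.apply_symm_apply] using h1

@[instance_reducible] def HH (X E : Type) [MeasurableSpace E] (S : Set (X × ℕ)) :
    MeasurableSpace ((X × ℕ → ℕ) × (X × ℕ × ℕ → E)) :=
  (coord (X × ℕ) ℕ S).prod (coord (X × ℕ × ℕ) E {p | (p.1, p.2.1) ∈ S})

lemma HH_le (S : Set (X × ℕ)) : HH X E S ≤ Prod.instMeasurableSpace :=
  sup_le_sup (MeasurableSpace.comap_mono (coord_le _ _ _))
    (MeasurableSpace.comap_mono (coord_le _ _ _))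

lemma Wm_meas {S : Set (X × ℕ)} {p : X × ℕ} (hp : p ∈ S) (φ : Finset (V d) → Prop) :
    MeasurableSet[HH X E S] (Wm σ off p φ) := by
  refine MeasurableSet.iUnion fun n => @MeasurableSet.prod _ _ (coord (X × ℕ) ℕ S)
    (coord (X × ℕ × ℕ) E {p | (p.1, p.2.1) ∈ S}) _ _ (coord_meas hp trivial) ?_
  rw [steps_eq]
  exact Finset.measurableSet_biUnion _ fun s _ => MeasurableSet.iInter fun k =>
    coord_meas (S := {p : X × ℕ × ℕ | (p.1, p.2.1) ∈ S}) (i := (p.1, p.2, (k : ℕ))) hp
      MeasurableSet.of_discrete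

variable (μL : Measure ℕ) [IsProbabilityMeasure μL] (μE : Measure E) [IsProbabilityMeasure μE]

omit [DiscreteMeasurableSpace E] in
lemma HH_indep {S T : Set (X × ℕ)} (h : Disjoint S T) :
    Indep (HH X E S) (HH X E T) ((Measure.infinitePi fun _ : X × ℕ => μL).prod
      (Measure.infinitePi fun _ : X × ℕ × ℕ => μE)) :=
  indep_prod (coord_le _ _ _) (coord_le _ _ _) (coord_le _ _ _) (coord_le _ _ _)
    (coord_indep μL h) (coord_indep μE
      (Set.disjoint_left.2 fun _ h1 h2 => Set.disjoint_left.1 h h1 h2))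

lemma steps_prob (hE : ∀ e, μE {e} = ENNReal.ofReal (1 / (2 * d))) (p : X × ℕ)
    (φ : Finset (V d) → Prop) (n : ℕ) :
    (Measure.infinitePi fun _ : X × ℕ × ℕ => μE)
      {S | φ (trace (List.ofFn fun k : Fin n => σ (S (p.1, p.2, k))))} =
      ENNReal.ofReal (Ex n fun l => ind (φ (trace l))) := by
  classical
  have hi := (iIndepFun_infinitePi (P := fun _ : X × ℕ × ℕ => μE) (X := fun _ a => a)
      fun _ => measurable_id).precomp (g := fun k : Fin n => (p.1, p.2, (k : ℕ)))
      (fun a b h => Fin.ext (by simpa using h))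
  have h1 : ∀ s : Fin n → St d, (Measure.infinitePi fun _ : X × ℕ × ℕ => μE)
      (⋂ k : Fin n, {S | S (p.1, p.2, k) ∈ ({σ.symm (s k)} : Set E)}) =
      ENNReal.ofReal (1 / (2 * d) ^ n) := by
    intro s
    rw [hi.meas_iInter (s := fun k : Fin n => {S | S (p.1, p.2, k) ∈ ({σ.symm (s k)} : Set E)})
      fun k => ⟨{σ.symm (s k)}, MeasurableSet.of_discrete, rfl⟩]
    simp only [coord_eval μE _ MeasurableSet.of_discrete, hE]
    rw [Finset.prod_const, Finset.card_univ, Fintype.card_fin,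
      ← ENNReal.ofReal_pow (by positivity), div_pow, one_pow]
  rw [steps_eq, measure_biUnion_finset]
  · simp only [h1]
    rw [← ENNReal.ofReal_sum_of_nonneg fun _ _ => by positivity, Ex_eq_sum, Finset.sum_div,
      Finset.sum_filter]
    congr 1
    refine Finset.sum_congr rfl fun s _ => ?_
    split_ifs with h
    · rw [ind_pos h]
    · rw [ind_neg h, zero_div]
  · intro s _ s' _ hne
    rw [Function.onFun, Set.disjoint_left]
    intro S h2 h3
    simp only [Set.mem_iInter, Set.mem_ofPred_eq, Set.mem_singleton_iff] at h2 h3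
    exact hne (funext fun k => σ.symm.injective ((h2 k).symm.trans (h3 k)))
  · exact fun s _ => MeasurableSet.iInter fun k =>
      measurable_pi_apply _ MeasurableSet.of_discrete

lemma Wm_prob (hE : ∀ e, μE {e} = ENNReal.ofReal (1 / (2 * d))) {q : ℕ → ℝ} (hq0 : ∀ n, 0 ≤ q n)
    (hL : ∀ n, μL {n + off} = ENNReal.ofReal (q n)) (p : X × ℕ) (φ : Finset (V d) → Prop) :
    ((Measure.infinitePi fun _ : X × ℕ => μL).prod (Measure.infinitePi fun _ : X × ℕ × ℕ => μE))
      (Wm σ off p φ) = ∑' n, ENNReal.ofReal (q n * Ex n fun l => ind (φ (trace l))) := by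
  unfold Wm
  rw [measure_iUnion]
  · refine tsum_congr fun n => ?_
    rw [Measure.prod_prod, coord_eval μL _ trivial, hL, steps_prob σ μE hE,
      ENNReal.ofReal_mul (hq0 n)]
  · intro n n' hne
    rw [Function.onFun, Set.disjoint_left]
    rintro ω ⟨h1, _⟩ ⟨h2, _⟩
    simp only [Set.mem_ofPred_eq, Set.mem_singleton_iff] at h1 h2
    omega
  · intro n
    refine MeasurableSet.prod (measurable_pi_apply p trivial) ?_
    rw [steps_eq]
    exact Finset.measurableSet_biUnion _ fun s _ => MeasurableSet.iInter fun k =>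
      measurable_pi_apply _ MeasurableSet.of_discrete

/-- the worms of the product description -/
def PW (ι : X ≃ V d) (x : V d) (ω : (X → ℕ) × ((X × ℕ → ℕ) × (X × ℕ × ℕ → E)))
    (A : Finset (V d)) : Prop :=
  ∃ i < ω.1 (ι.symm x), ω.2 ∈ Wm σ off (ι.symm x, i) fun B => B = A

theorem product_model (ι : X ≃ V d) (μN : Measure ℕ) [IsProbabilityMeasure μN] {v : ℝ}
    (hv : 0 ≤ v) (hN : ∀ j, μN {j} = ENNReal.ofReal (Real.exp (-v) * v ^ j / j.factorial))
    (hE : ∀ e, μE {e} = ENNReal.ofReal (1 / (2 * d))) {q : ℕ → ℝ} (hq0 : ∀ n, 0 ≤ q n)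
    (hL : ∀ n, μL {n + off} = ENNReal.ofReal (q n)) :
    Model ((Measure.infinitePi fun _ : X => μN).prod
      ((Measure.infinitePi fun _ : X × ℕ => μL).prod (Measure.infinitePi fun _ : X × ℕ × ℕ => μE)))
      (PW σ off ι) v q := by
  set P' := (Measure.infinitePi fun _ : X × ℕ => μL).prod
    (Measure.infinitePi fun _ : X × ℕ × ℕ => μE) with hP'
  have hrep : ∀ x (φ : Finset (V d) → Prop), {ω | ∃ A, PW σ off ι x ω A ∧ φ A} =
      ⋃ j : ℕ, {N : X → ℕ | N (ι.symm x) ∈ ({j} : Set ℕ)} ×ˢ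
        ⋃ i ∈ range j, Wm σ off (ι.symm x, i) φ := by
    intro x φ
    ext ω
    simp only [PW, Wm, Set.mem_ofPred_eq, Set.mem_iUnion, Set.mem_prod, Set.mem_singleton_iff,
      Finset.mem_range, exists_prop]
    constructor
    · rintro ⟨A, ⟨i, hi, n, h1, rfl⟩, h2⟩
      exact ⟨_, rfl, i, hi, n, h1, h2⟩
    · rintro ⟨j, rfl, i, hi, n, h1, h2⟩
      exact ⟨_, ⟨i, hi, n, h1, rfl⟩, h2⟩
  let H0 : Set (V d) → MeasurableSpace ((X → ℕ) × ((X × ℕ → ℕ) × (X × ℕ × ℕ → E))) := fun D =>
    (coord X ℕ {y | ι y ∈ D}).prod (HH X E {p | ι p.1 ∈ D})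
  have hH0 : ∀ D, G (PW σ off ι) D ≤ H0 D := by
    intro D
    refine G_le _ fun x hx A => ?_
    have := hrep x fun B => B = A
    simp only [exists_eq_right] at this
    rw [this]
    refine MeasurableSet.iUnion fun j => @MeasurableSet.prod _ _ (coord X ℕ {y | ι y ∈ D})
      (HH X E {p | ι p.1 ∈ D}) _ _ (coord_meas (by simpa using hx) trivial) ?_
    exact Finset.measurableSet_biUnion _ fun i _ => Wm_meas σ off (by simpa using hx) _
  have hH0le : ∀ D, H0 D ≤ Prod.instMeasurableSpace := fun D =>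
    sup_le_sup (MeasurableSpace.comap_mono (coord_le _ _ _))
      (MeasurableSpace.comap_mono (HH_le _))
  refine ⟨fun x A => hH0le _ _ (hH0 Set.univ _ (G_basic _ (Set.mem_univ x) A)), fun D D' hD => ?_,
    fun x φ => ?_, fun x => Filter.Eventually.of_forall fun ω => ?_, fun x φ F => ?_⟩
  · refine indep_of_indep_of_le_right (indep_of_indep_of_le_left ?_ (hH0 D)) (hH0 D')
    exact indep_prod (coord_le _ _ _) (coord_le _ _ _) (HH_le _) (HH_le _)
      (coord_indep μN (Set.disjoint_left.2 fun _ h1 h2 => Set.disjoint_left.1 hD h1 h2))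
      (HH_indep μL μE (Set.disjoint_left.2 fun _ h1 h2 => Set.disjoint_left.1 hD h1 h2))
  · rw [hrep]
    set p := ∑' n, ENNReal.ofReal (q n * Ex n fun l => ind (φ (trace l))) with hp
    have h1 : ∀ j : ℕ, ((Measure.infinitePi fun _ : X => μN).prod P')
        ({N : X → ℕ | N (ι.symm x) ∈ ({j} : Set ℕ)} ×ˢ ⋃ i ∈ range j, Wm σ off (ι.symm x, i) φ) ≤
        ENNReal.ofReal (Real.exp (-v) * v ^ j / j.factorial * j) * p := by
      intro j
      rw [Measure.prod_prod, coord_eval μN _ trivial, hN, ENNReal.ofReal_mul (by positivity),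
        mul_assoc]
      refine mul_le_mul_right ((measure_biUnion_finset_le _ _).trans (le_of_eq ?_)) _
      simp only [hP', Wm_prob σ off μL μE hE hq0 hL, ← hp]
      simp
    refine (measure_iUnion_le _).trans ((ENNReal.tsum_le_tsum h1).trans ?_)
    rw [ENNReal.tsum_mul_right]
    simp only [ENNReal.ofReal_mul hv]
    rw [ENNReal.tsum_mul_left]
    refine mul_le_mul_left (tsum_ofReal_le_nat (fun j => by positivity) fun M => ?_) _
    cases M with
    | zero => simpa using hv
    | succ M =>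
      rw [Finset.sum_range_succ']
      have h2 : ∀ j : ℕ, Real.exp (-v) * v ^ (j + 1) / (j + 1).factorial * ((j + 1 : ℕ) : ℝ) =
          v * Real.exp (-v) * (v ^ j / j.factorial) := by
        intro j
        rw [Nat.factorial_succ]; push_cast; field_simp; ring
      simp only [h2]
      rw [← Finset.mul_sum]
      have h3 := Real.sum_le_exp_of_nonneg hv M
      have h4 := mul_le_mul_of_nonneg_left h3 (mul_nonneg hv (Real.exp_pos (-v)).le)
      rw [mul_assoc v _ (Real.exp v), ← Real.exp_add] at h4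
      simpa using h4
  · refine Set.Finite.subset ((range (ω.1 (ι.symm x))).finite_toSet.image fun i =>
      trace (List.ofFn fun k : Fin (ω.2.1 (ι.symm x, i) - off) => σ (ω.2.2 (ι.symm x, i, k)))) ?_
    rintro A ⟨i, hi, h⟩
    simp only [Wm, Set.mem_iUnion, Set.mem_prod, Set.mem_ofPred_eq, Set.mem_singleton_iff] at h
    obtain ⟨n, h1, h2⟩ := h
    refine ⟨i, Finset.mem_coe.2 (Finset.mem_range.2 hi), ?_⟩
    have : ω.2.1 (ι.symm x, i) - off = n := by omega
    simp only
    rw [← h2]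
    subst this
    rfl
  · set p0 := ∑ n ∈ F, q n * Ex n fun l => ind (φ (trace l)) with hp0
    have hp00 : 0 ≤ p0 := Finset.sum_nonneg fun n _ => mul_nonneg (hq0 n) (Ex_ind_nonneg _ _)
    have h0 : ∀ i, ENNReal.ofReal p0 ≤ P' (Wm σ off (ι.symm x, i) φ) := by
      intro i
      rw [hP', Wm_prob σ off μL μE hE hq0 hL, hp0,
        ENNReal.ofReal_sum_of_nonneg fun n _ => mul_nonneg (hq0 n) (Ex_ind_nonneg _ _)]
      exact ENNReal.sum_le_tsum F
    have hp1 : p0 ≤ 1 := ENNReal.ofReal_le_one.1 ((h0 0).trans prob_le_one)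
    have h1 : ∀ i, P' (Wm σ off (ι.symm x, i) φ)ᶜ ≤ ENNReal.ofReal (1 - p0) := by
      intro i
      rw [prob_compl_eq_one_sub (HH_le _ _ (Wm_meas σ off (Set.mem_univ _) φ)),
        ENNReal.ofReal_sub _ hp00, ENNReal.ofReal_one]
      exact tsub_le_tsub_left (h0 i) _
    have h2 : ∀ j : ℕ, P' (⋂ i ∈ range j, (Wm σ off (ι.symm x, i) φ)ᶜ) ≤
        ENNReal.ofReal ((1 - p0) ^ j) := by
      intro j
      induction j with
      | zero => simp
      | succ j ih =>
        rw [Finset.range_add_one, Finset.set_biInter_insert]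
        have hd : Disjoint ({(ι.symm x, j)} : Set (X × ℕ)) {p | p.2 < j} := by simp
        have m1 : MeasurableSet[HH X E {(ι.symm x, j)}] (Wm σ off (ι.symm x, j) φ)ᶜ :=
          (Wm_meas σ off (S := {(ι.symm x, j)}) (Set.mem_singleton _) φ).compl
        have m2 : MeasurableSet[HH X E {p | p.2 < j}]
            (⋂ i ∈ range j, (Wm σ off (ι.symm x, i) φ)ᶜ) :=
          Finset.measurableSet_biInter _ fun i hi =>
            (Wm_meas σ off (S := {p | p.2 < j}) (p := (ι.symm x, i))
              (Finset.mem_range.1 hi) φ).compl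
        have h3 := (Indep_iff _ _ P').1 (HH_indep μL μE hd) _ _ m1 m2
        rw [h3, pow_succ', ENNReal.ofReal_mul (by linarith)]
        exact mul_le_mul' (h1 j) ih
    have hsub : {ω | ∀ B, PW σ off ι x ω B → ¬ φ B} ⊆
        ⋃ j : ℕ, {N : X → ℕ | N (ι.symm x) ∈ ({j} : Set ℕ)} ×ˢ
          ⋂ i ∈ range j, (Wm σ off (ι.symm x, i) φ)ᶜ := by
      intro ω hω
      refine Set.mem_iUnion.2 ⟨ω.1 (ι.symm x), rfl, ?_⟩
      simp only [Set.mem_iInter, Finset.mem_range]
      intro i hi h
      have : ω ∈ {ω | ∃ A, PW σ off ι x ω A ∧ φ A} := by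
        rw [hrep]
        exact Set.mem_iUnion.2 ⟨_, rfl, Set.mem_iUnion₂.2 ⟨i, Finset.mem_range.2 hi, h⟩⟩
      obtain ⟨A, h3, h4⟩ := this
      exact hω A h3 h4
    have h1p : 0 ≤ 1 - p0 := by linarith
    refine real_le_of_le (Real.exp_pos _).le ((measure_mono hsub).trans
      ((measure_iUnion_le _).trans (le_trans (ENNReal.tsum_le_tsum fun j => ?_)
      (tsum_ofReal_le_nat (f := fun j => Real.exp (-v) * v ^ j / j.factorial * (1 - p0) ^ j)
        (fun j => by positivity) fun M => ?_))))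
    · rw [Measure.prod_prod, coord_eval μN _ trivial, hN, ENNReal.ofReal_mul (by positivity)]
      exact mul_le_mul_right (h2 j) _
    · have h3 := Real.sum_le_exp_of_nonneg (mul_nonneg hv h1p) M
      have h4 := mul_le_mul_of_nonneg_left h3 (Real.exp_pos (-v)).le
      rw [← Real.exp_add, Finset.mul_sum] at h4
      refine le_trans (le_of_eq (Finset.sum_congr rfl fun j _ => ?_)) (h4.trans (le_of_eq ?_))
      · rw [mul_pow]; ring
      · congr 1; ring

end product

end Pool.Agent.H536Z
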