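import Pool.Agent.H536Z.Saus
import Pool.Agent.H536Z.Lower

/-! Poisson soups of random walk traces: absence of percolation at small intensity. -/

set_option autoImplicit false

namespace Pool.Agent.H536Z

open MeasureTheory ProbabilityTheory Finset

variable {d : ℕ}

/-- what is used about a soup of worms with intensity `v`, whose number of steps has law `q` -/
structure Model {Ω : Type*} [MeasurableSpace Ω] (P : Measure Ω)
    (W : V d → Ω → Finset (V d) → Prop) (v : ℝ) (q : ℕ → ℝ) : Prop where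
  meas : ∀ x A, MeasurableSet {ω | W x ω A}
  indep : ∀ D D', Disjoint D D' → Indep (G W D) (G W D') P
  up : ∀ x (φ : Finset (V d) → Prop), P {ω | ∃ A, W x ω A ∧ φ A} ≤
    ∑' n, ENNReal.ofReal (v * (q n * Ex n fun l => ind (φ (trace l))))
  fin : ∀ x, ∀ᵐ ω ∂P, {A | W x ω A}.Finite
  low : ∀ x (φ : Finset (V d) → Prop) (F : Finset ℕ), P.real {ω | ∀ B, W x ω B → ¬ φ B} ≤
    Real.exp (-(v * ∑ n ∈ F, q n * Ex n fun l => ind (φ (trace l))))

lemma tsum_ofReal_le {ι : Type*} {f : ι → ℝ} (hf : ∀ i, 0 ≤ f i) {c : ℝ}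
    (h : ∀ s : Finset ι, ∑ i ∈ s, f i ≤ c) : ∑' i, ENNReal.ofReal (f i) ≤ ENNReal.ofReal c := by
  rw [ENNReal.tsum_eq_iSup_sum]
  refine iSup_le fun s => ?_
  rw [← ENNReal.ofReal_sum_of_nonneg fun i _ => hf i]
  exact ENNReal.ofReal_le_ofReal (h s)

lemma tsum_ofReal_le_nat {f : ℕ → ℝ} (hf : ∀ i, 0 ≤ f i) {c : ℝ}
    (h : ∀ M, ∑ i ∈ range M, f i ≤ c) : ∑' i, ENNReal.ofReal (f i) ≤ ENNReal.ofReal c := by
  refine tsum_ofReal_le hf fun s => ?_
  obtain ⟨M, hM⟩ := Finset.exists_nat_subset_range s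
  exact (Finset.sum_le_sum_of_subset_of_nonneg hM fun i _ _ => hf i).trans (h M)

lemma real_le_of_le {Ω : Type*} [MeasurableSpace Ω] {P : Measure Ω} {s : Set Ω} {c : ℝ}
    (hc : 0 ≤ c) (h : P s ≤ ENNReal.ofReal c) : P.real s ≤ c :=
  ENNReal.toReal_le_of_le_ofReal hc h

theorem nonperc (hd : 0 < d) (q : ℕ → ℝ) (hq0 : ∀ n, 0 ≤ q n) (hq1 : ∀ M, ∑ n ∈ range M, q n ≤ 1)
    {K : ℝ} (hK : 0 ≤ K)
    (ha : ∀ k M : ℕ, ((10 : ℝ) ^ k) ^ d * ∑ n ∈ range M,
      q n * Ex n (fun l : List (St d) => ind (10 ^ k < rad (trace l))) ≤ K)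
    (hb : ∀ k0 : ℕ, ∃ k ≥ k0, ∀ M, ∑ n ∈ range M, q n * uu d n (10 ^ k) ≤ K) :
    ∃ v0 : ℝ, 0 < v0 ∧ ∀ v, 0 ≤ v → v ≤ v0 → ∀ (Ω : Type) [MeasurableSpace Ω] (P : Measure Ω)
      [IsProbabilityMeasure P] (W : V d → Ω → Finset (V d) → Prop), Model P W v q →
      P {ω | Perc sadj (occ (fun x => W x ω) Set.univ fun _ => True)} = 0 := by
  set ε : ℝ := 1 / (4 * (41 ^ d) ^ 2) with hε
  have hε0 : 0 < ε := by positivity
  have hε4 : ε ≤ 1 / 4 := by
    rw [hε]
    refine one_div_le_one_div_of_le (by norm_num) ?_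
    have : (1 : ℝ) ≤ (41 ^ d) ^ 2 := one_le_pow₀ (one_le_pow₀ (by norm_num))
    linarith
  refine ⟨ε / (61 ^ d * (K + 1)), by positivity, fun v hv0 hv Ω _ P _ W hM => ?_⟩
  rw [le_div_iff₀ (by positivity)] at hv
  have h61 : (1 : ℝ) ≤ 61 ^ d := one_le_pow₀ (by norm_num)
  have hvK : v * K ≤ v * (61 ^ d * (K + 1)) :=
    mul_le_mul_of_nonneg_left (by nlinarith) hv0
  refine upper P W hM.meas hM.indep hε0.le (by rw [hε]; field_simp; exact le_rfl) (fun x => ?_)
    (fun k x => ?_) (fun k0 => ?_) hM.fin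
  · have h1 := hM.up x fun _ => True
    simp only [and_true] at h1
    have h2 : P.real {ω | ∃ A, W x ω A} ≤ v := by
      refine real_le_of_le hv0 (h1.trans (tsum_ofReal_le_nat
        (fun n => mul_nonneg hv0 (mul_nonneg (hq0 n) (Ex_ind_nonneg _ _))) fun M => ?_))
      rw [← Finset.mul_sum]
      refine mul_le_of_le_one_right hv0 (le_trans (Finset.sum_le_sum fun n _ => ?_) (hq1 M))
      exact mul_le_of_le_one_right (hq0 n) (Ex_ind_le_one hd _ _)
    have h3 : (7 : ℝ) ^ d ≤ 61 ^ d := pow_le_pow_left₀ (by norm_num) (by norm_num) d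
    have h4 : (7 : ℝ) ^ d * P.real {ω | ∃ A, W x ω A} ≤ 61 ^ d * v :=
      mul_le_mul h3 h2 measureReal_nonneg (by positivity)
    nlinarith [mul_nonneg hv0 (mul_nonneg (by positivity : (0 : ℝ) ≤ 61 ^ d) hK)]
  · have hp : (0 : ℝ) < ((10 : ℝ) ^ k) ^ d := by positivity
    have h2 : P.real {ω | ∃ A, W x ω A ∧ 10 ^ k < rad A} ≤ v * (K / ((10 : ℝ) ^ k) ^ d) := by
      refine real_le_of_le (by positivity) ((hM.up x _).trans (tsum_ofReal_le_nat
        (fun n => mul_nonneg hv0 (mul_nonneg (hq0 n) (Ex_ind_nonneg _ _))) fun M => ?_))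
      rw [← Finset.mul_sum]
      refine mul_le_mul_of_nonneg_left ?_ hv0
      rw [le_div_iff₀ hp, mul_comm]; exact ha k M
    have h3 : ((60 : ℝ) * 10 ^ k + 1) ^ d ≤ (61 * 10 ^ k) ^ d := by
      refine pow_le_pow_left₀ (by positivity) ?_ d
      have : (1 : ℝ) ≤ 10 ^ k := one_le_pow₀ (by norm_num)
      linarith
    refine (mul_le_mul h3 h2 measureReal_nonneg (by positivity)).trans ?_
    have : ((61 : ℝ) * 10 ^ k) ^ d * (v * (K / ((10 : ℝ) ^ k) ^ d)) = v * (61 ^ d * K) := by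
      rw [mul_pow]; field_simp
    rw [this]
    nlinarith [mul_nonneg hv0 (by positivity : (0 : ℝ) ≤ 61 ^ d)]
  · obtain ⟨k, hk, hk'⟩ := hb k0
    refine ⟨k, hk, le_trans (real_le_of_le (c := v * K) (by positivity) ?_) (by linarith)⟩
    have hsub : {ω | ∃ x A, W x ω A ∧ 10 ^ k < rad A ∧ ∃ a ∈ A, nn (x + a) ≤ 2 * 10 ^ k} ⊆
        ⋃ x, {ω | ∃ A, W x ω A ∧ (10 ^ k < rad A ∧ x ∈ saus (2 * 10 ^ k) A)} := by
      rintro ω ⟨x, A, h1, h2, h3⟩
      exact Set.mem_iUnion.2 ⟨x, A, h1, h2, mem_saus.2 h3⟩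
    refine (measure_mono hsub).trans ((measure_iUnion_le _).trans
      ((ENNReal.tsum_le_tsum fun x => hM.up x _).trans ?_))
    rw [ENNReal.tsum_comm]
    refine le_trans (ENNReal.tsum_le_tsum fun n => ?_) (tsum_ofReal_le_nat
      (f := fun n => v * (q n * uu d n (10 ^ k)))
      (fun n => mul_nonneg hv0 (mul_nonneg (hq0 n) (uu_nonneg _ _))) fun M => ?_)
    · refine tsum_ofReal_le
        (fun x => mul_nonneg hv0 (mul_nonneg (hq0 n) (Ex_ind_nonneg _ _))) fun s => ?_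
      rw [← Finset.mul_sum, ← Finset.mul_sum, ← Ex_sum]
      refine mul_le_mul_of_nonneg_left (mul_le_mul_of_nonneg_left (Ex_mono fun l _ => ?_)
        (hq0 n)) hv0
      simp only [ind_and]
      rw [← Finset.mul_sum]
      exact mul_le_mul_of_nonneg_left (sum_ind_mem _ _) (ind_nonneg _)
    · rw [← Finset.mul_sum]
      exact mul_le_mul_of_nonneg_left (hk' M) hv0

/-- the critical power law -/
theorem nonperc_crit (hd : 0 < d) (hd5 : d ≤ 5) (q : ℕ → ℝ) (hq0 : ∀ n, 0 ≤ q n)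
    (hq1 : ∀ M, ∑ n ∈ range M, q n ≤ 1) {K : ℝ} (hK : 0 ≤ K)
    (h1 : ∀ r : ℕ, 0 < r → (r : ℝ) ^ d * ∑ n ∈ range (r ^ 2), q n * (n : ℝ) ^ 3 ≤ K * r ^ 6)
    (h2 : ∀ r M : ℕ, 0 < r → (r : ℝ) ^ d * ∑ n ∈ Ico (r ^ 2) M, q n * (n : ℝ) ≤ K * r ^ 2) :
    ∃ v0 : ℝ, 0 < v0 ∧ ∀ v, 0 ≤ v → v ≤ v0 → ∀ (Ω : Type) [MeasurableSpace Ω] (P : Measure Ω)
      [IsProbabilityMeasure P] (W : V d → Ω → Finset (V d) → Prop), Model P W v q →
      P {ω | Perc sadj (occ (fun x => W x ω) Set.univ fun _ => True)} = 0 := by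
  have key : ∀ r M : ℕ, 0 < r → ∑ n ∈ range M, q n * uu d n r ≤
      30 * d * 14 ^ d * K + 2 * (7 ^ d + 30 * d * 14 ^ d) * K := by
    intro r M hr
    have hr' : (0 : ℝ) < r := by positivity
    have hsub : range M ⊆ range (r ^ 2) ∪ Ico (r ^ 2) M := by
      intro n hn
      simp only [Finset.mem_union, Finset.mem_range, Finset.mem_Ico] at hn ⊢
      omega
    refine (Finset.sum_le_sum_of_subset_of_nonneg hsub
      fun n _ _ => mul_nonneg (hq0 n) (uu_nonneg _ _)).trans ?_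
    rw [Finset.sum_union (by
      rw [Finset.disjoint_left]; intro n h1 h2
      simp only [Finset.mem_range, Finset.mem_Ico] at h1 h2; omega)]
    refine add_le_add ?_ ?_
    · refine (Finset.sum_le_sum fun n _ =>
        mul_le_mul_of_nonneg_left (uu_small hd hd5 hr n) (hq0 n)).trans ?_
      have e : ∑ n ∈ range (r ^ 2), q n * (30 * d * 14 ^ d * n ^ 3 * r ^ d / (r : ℝ) ^ 6) =
          30 * d * 14 ^ d * (((r : ℝ) ^ d * ∑ n ∈ range (r ^ 2), q n * (n : ℝ) ^ 3) / r ^ 6) := by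
        rw [Finset.mul_sum, Finset.sum_div, Finset.mul_sum]
        exact Finset.sum_congr rfl fun n _ => by ring
      rw [e]
      refine mul_le_mul_of_nonneg_left ?_ (by positivity)
      rw [div_le_iff₀ (by positivity)]; exact h1 r hr
    · refine (Finset.sum_le_sum fun n hn =>
        mul_le_mul_of_nonneg_left (uu_large hd hd5 hr (Finset.mem_Ico.1 hn).1) (hq0 n)).trans ?_
      have e : ∑ n ∈ Ico (r ^ 2) M,
          q n * (2 * (7 ^ d + 30 * d * 14 ^ d) * n * r ^ d / (r : ℝ) ^ 2) =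
          2 * (7 ^ d + 30 * d * 14 ^ d) *
            (((r : ℝ) ^ d * ∑ n ∈ Ico (r ^ 2) M, q n * (n : ℝ)) / r ^ 2) := by
        rw [Finset.mul_sum, Finset.sum_div, Finset.mul_sum]
        exact Finset.sum_congr rfl fun n _ => by ring
      rw [e]
      refine mul_le_mul_of_nonneg_left ?_ (by positivity)
      rw [div_le_iff₀ (by positivity)]; exact h2 r M hr
  refine nonperc hd q hq0 hq1 (K := 30 * d * 14 ^ d * K + 2 * (7 ^ d + 30 * d * 14 ^ d) * K)
    (by positivity) (fun k M => ?_) fun k0 => ⟨k0, le_rfl, fun M => key _ M (by positivity)⟩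
  refine le_trans ?_ (key (10 ^ k) M (by positivity))
  rw [Finset.mul_sum]
  refine Finset.sum_le_sum fun n _ => ?_
  rw [mul_left_comm]
  refine mul_le_mul_of_nonneg_left ?_ (hq0 n)
  rw [← Ex_mul]
  refine Ex_mono fun l _ => ?_
  rw [mul_comm]
  refine mul_le_mul_of_nonneg_left ?_ (ind_nonneg _)
  have h3 := le_card_saus (2 * 10 ^ k) (zero_mem_trace l)
  have h4 : (10 ^ k) ^ d ≤ (2 * (2 * 10 ^ k) + 1) ^ d := Nat.pow_le_pow_left (by omega) d
  exact_mod_cast h4.trans h3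

lemma crit_four {q : ℕ → ℝ} (hq0 : ∀ n, 0 ≤ q n) {C : ℝ} (hC : 0 ≤ C)
    (h : ∀ n : ℕ, q n * ((n : ℝ) + 1) ^ 3 ≤ C) :
    (∀ r : ℕ, 0 < r → (r : ℝ) ^ 4 * ∑ n ∈ range (r ^ 2), q n * (n : ℝ) ^ 3 ≤ (2 * C) * r ^ 6) ∧
    (∀ r M : ℕ, 0 < r →
      (r : ℝ) ^ 4 * ∑ n ∈ Ico (r ^ 2) M, q n * (n : ℝ) ≤ (2 * C) * r ^ 2) := by
  constructor
  · intro r hr
    have h1 : ∑ n ∈ range (r ^ 2), q n * (n : ℝ) ^ 3 ≤ r ^ 2 * C := by
      refine (Finset.sum_le_card_nsmul _ _ C fun n _ => le_trans ?_ (h n)).trans (by simp)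
      exact mul_le_mul_of_nonneg_left (pow_le_pow_left₀ (by positivity) (by linarith) 3) (hq0 n)
    have : (0 : ℝ) ≤ C * r ^ 6 := by positivity
    nlinarith [mul_le_mul_of_nonneg_left h1 (by positivity : (0 : ℝ) ≤ (r : ℝ) ^ 4)]
  · intro r M hr
    have tel : ∀ m M : ℕ, 0 < m → m ≤ M → ∑ n ∈ Ico m M, q n * (n : ℝ) ≤ C / m - C / M := by
      intro m M hm hM
      induction M, hM using Nat.le_induction with
      | base => simp
      | succ M hM ih =>
        rw [Finset.sum_Ico_succ_top hM]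
        have hM' : (0 : ℝ) < M := by exact_mod_cast lt_of_lt_of_le hm hM
        have h3 : q M * M ≤ C / M - C / ((M + 1 : ℕ) : ℝ) := by
          have e : C / M - C / ((M + 1 : ℕ) : ℝ) = C / (M * (M + 1)) := by
            push_cast; field_simp; ring
          rw [e, le_div_iff₀ (by positivity)]
          refine le_trans ?_ (h M)
          rw [mul_assoc]
          exact mul_le_mul_of_nonneg_left (by nlinarith) (hq0 M)
        linarith
    have hr' : (0 : ℝ) < r := by positivity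
    by_cases hM : r ^ 2 ≤ M
    · have h3 := tel (r ^ 2) M (by positivity) hM
      have h4 : 0 ≤ C / M := by positivity
      have h5 : ∑ n ∈ Ico (r ^ 2) M, q n * (n : ℝ) ≤ C / r ^ 2 := by push_cast at h3; linarith
      refine (mul_le_mul_of_nonneg_left h5 (by positivity)).trans ?_
      have : (r : ℝ) ^ 4 * (C / r ^ 2) = C * r ^ 2 := by field_simp
      rw [this]
      have : (0 : ℝ) ≤ C * r ^ 2 := by positivity
      linarith
    · rw [Finset.Ico_eq_empty (by omega)]; simp; positivity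

lemma crit_three {q : ℕ → ℝ} (hq0 : ∀ n, 0 ≤ q n) {C : ℝ} (hC : 0 ≤ C)
    (h : ∀ n : ℕ, q n * (((n : ℝ) + 1) ^ 2 * √((n : ℝ) + 1)) ≤ C) :
    (∀ r : ℕ, 0 < r → (r : ℝ) ^ 3 * ∑ n ∈ range (r ^ 2), q n * (n : ℝ) ^ 3 ≤ (2 * C) * r ^ 6) ∧
    (∀ r M : ℕ, 0 < r →
      (r : ℝ) ^ 3 * ∑ n ∈ Ico (r ^ 2) M, q n * (n : ℝ) ≤ (2 * C) * r ^ 2) := by
  constructor
  · intro r hr
    have h1 : ∑ n ∈ range (r ^ 2), q n * (n : ℝ) ^ 3 ≤ r ^ 2 * (C * r) := by
      refine (Finset.sum_le_card_nsmul _ _ (C * r) fun n hn => ?_).trans (by simp)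
      have hn' : (n : ℝ) + 1 ≤ r ^ 2 := by exact_mod_cast Finset.mem_range.1 hn
      have hs : √((n : ℝ) + 1) ≤ r := Real.sqrt_le_iff.2 ⟨by positivity, hn'⟩
      have hs2 : √((n : ℝ) + 1) * √((n : ℝ) + 1) = n + 1 := Real.mul_self_sqrt (by positivity)
      have hs0 := Real.sqrt_nonneg ((n : ℝ) + 1)
      calc q n * (n : ℝ) ^ 3 ≤ q n * ((n : ℝ) + 1) ^ 3 :=
            mul_le_mul_of_nonneg_left (pow_le_pow_left₀ (by positivity) (by linarith) 3) (hq0 n)
        _ = q n * (((n : ℝ) + 1) ^ 2 * √((n : ℝ) + 1)) * √((n : ℝ) + 1) := by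
            rw [mul_assoc, mul_assoc, hs2]; ring
        _ ≤ C * r := mul_le_mul (h n) hs hs0 hC
    have : (0 : ℝ) ≤ C * r ^ 6 := by positivity
    nlinarith [mul_le_mul_of_nonneg_left h1 (by positivity : (0 : ℝ) ≤ (r : ℝ) ^ 3)]
  · intro r M hr
    have tel : ∀ m M : ℕ, 0 < m → m ≤ M →
        ∑ n ∈ Ico m M, q n * (n : ℝ) ≤ 2 * C / √m - 2 * C / √M := by
      intro m M hm hM
      induction M, hM using Nat.le_induction with
      | base => simp
      | succ M hM ih =>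
        rw [Finset.sum_Ico_succ_top hM]
        have hM' : (0 : ℝ) < M := by exact_mod_cast lt_of_lt_of_le hm hM
        have h3 : q M * M ≤ 2 * C / √M - 2 * C / √((M + 1 : ℕ) : ℝ) := by
          push_cast
          have h4 := h M
          set a := √(M : ℝ) with ha
          set b := √((M : ℝ) + 1) with hb
          have ha2 : a * a = M := Real.mul_self_sqrt hM'.le
          have hb2 : b * b = M + 1 := Real.mul_self_sqrt (by positivity)
          have ha0 : 0 < a := Real.sqrt_pos.2 hM'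
          have hab : a ≤ b := Real.sqrt_le_sqrt (by linarith)
          have hb0 : 0 < b := by linarith
          have e : 2 * C / a - 2 * C / b = 2 * C / (a * b * (a + b)) := by
            field_simp
            have : (b - a) * (a + b) = 1 := by nlinarith
            linear_combination C * this
          rw [e, le_div_iff₀ (by positivity)]
          have h5 : a * b * (a + b) ≤ 2 * (b * b * b) := by
            have : a * b ≤ b * b := mul_le_mul_of_nonneg_right hab hb0.le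
            nlinarith [mul_pos ha0 hb0]
          have h6 : (M : ℝ) * (a * b * (a + b)) ≤ 2 * ((M + 1) ^ 2 * b) := by
            rw [hb2] at h5
            have : (M : ℝ) * (a * b * (a + b)) ≤ (M + 1) * (2 * ((M + 1) * b)) :=
              mul_le_mul (by linarith) h5 (by positivity) (by positivity)
            nlinarith
          have h7 := mul_le_mul_of_nonneg_left h6 (hq0 M)
          nlinarith
        linarith
    have hr' : (0 : ℝ) < r := by positivity
    by_cases hM : r ^ 2 ≤ M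
    · have h3 := tel (r ^ 2) M (by positivity) hM
      have h4 : 0 ≤ 2 * C / √M := by positivity
      have h6 : √((r ^ 2 : ℕ) : ℝ) = r := by push_cast; exact Real.sqrt_sq hr'.le
      rw [h6] at h3
      have h5 : ∑ n ∈ Ico (r ^ 2) M, q n * (n : ℝ) ≤ 2 * C / r := by linarith
      refine (mul_le_mul_of_nonneg_left h5 (by positivity)).trans (le_of_eq ?_)
      field_simp
    · rw [Finset.Ico_eq_empty (by omega)]; simp; positivity

end Pool.Agent.H536Z
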