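import Pool.Agent.H536Z.Hit
import Pool.Agent.H536Z.NonPerc

/-! Poisson soups of random walk traces: percolation at every intensity for heavy tails. -/

set_option autoImplicit false

namespace Pool.Agent.H536Z

open MeasureTheory ProbabilityTheory Finset

variable {d : ℕ}

lemma annulus (hd : 0 < d) {C : ℝ} (hC1 : 1 ≤ C)
    (hC : ∀ (n : ℕ) (z : V d), pp n z ^ 2 * (n + 1) ^ d ≤ C) {M s : ℕ} (hs : 0 < s)
    (hM : 64 * C * 648 ^ d ≤ M) (t : ℕ) (z : V d) (ht : (M * s) ^ 2 ≤ 8 * (t + 1)) :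
    (2 * ((4 * s : ℕ) : ℝ) + 1) ^ d * pp t z ≤ 1 / 8 := by
  have hs' : (1 : ℝ) ≤ s := by exact_mod_cast hs
  have h648 : (1 : ℝ) ≤ 648 ^ d := one_le_pow₀ (by norm_num)
  have hM1 : (1 : ℝ) ≤ M := by nlinarith
  have ht' : ((M : ℝ) * s) ^ 2 ≤ 8 * (t + 1) := by exact_mod_cast ht
  have hp := pp_nonneg t z
  set X := (2 * ((4 * s : ℕ) : ℝ) + 1) ^ d with hX
  have hX0 : 0 ≤ X := by positivity
  have hX1 : X ≤ (9 * s) ^ d := pow_le_pow_left₀ (by positivity) (by push_cast; linarith) d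
  have hMd : (M : ℝ) ≤ ((M : ℝ) ^ 2) ^ d := by
    calc (M : ℝ) ≤ M ^ 2 := by nlinarith
      _ ≤ _ := le_self_pow₀ (by nlinarith) hd.ne'
  have h1 : ((M : ℝ) ^ 2) ^ d * ((s : ℝ) ^ 2) ^ d ≤ 8 ^ d * ((t : ℝ) + 1) ^ d := by
    rw [← mul_pow, ← mul_pow, ← mul_pow]
    exact pow_le_pow_left₀ (by positivity) ht' d
  have h2 : X ^ 2 ≤ 81 ^ d * ((s : ℝ) ^ 2) ^ d := by
    refine (pow_le_pow_left₀ hX0 hX1 2).trans (le_of_eq ?_)
    rw [← pow_mul, mul_comm d 2, pow_mul, ← mul_pow]; congr 1; ring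
  have h3 : (X * pp t z) ^ 2 * ((M : ℝ) ^ 2) ^ d ≤ 648 ^ d * C := by
    calc (X * pp t z) ^ 2 * ((M : ℝ) ^ 2) ^ d = X ^ 2 * (pp t z ^ 2 * ((M : ℝ) ^ 2) ^ d) := by ring
      _ ≤ (81 ^ d * ((s : ℝ) ^ 2) ^ d) * (pp t z ^ 2 * ((M : ℝ) ^ 2) ^ d) :=
          mul_le_mul_of_nonneg_right h2 (by positivity)
      _ = 81 ^ d * (pp t z ^ 2 * (((M : ℝ) ^ 2) ^ d * ((s : ℝ) ^ 2) ^ d)) := by ring
      _ ≤ 81 ^ d * (pp t z ^ 2 * (8 ^ d * ((t : ℝ) + 1) ^ d)) := by gcongr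
      _ = (81 * 8) ^ d * (pp t z ^ 2 * ((t : ℝ) + 1) ^ d) := by rw [mul_pow]; ring
      _ ≤ 648 ^ d * C := by
          rw [show (81 * 8 : ℝ) = 648 by norm_num]
          exact mul_le_mul_of_nonneg_left (hC t z) (by positivity)
  have h4 : (X * pp t z) ^ 2 * (64 * (648 ^ d * C)) ≤ 648 ^ d * C := by
    refine le_trans (mul_le_mul_of_nonneg_left ?_ (sq_nonneg _)) h3
    linarith
  have h5 : (X * pp t z) ^ 2 ≤ (1 / 8) ^ 2 := by
    have hpos : (0 : ℝ) < 648 ^ d * C := by positivity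
    by_contra hcon
    push Not at hcon
    nlinarith
  exact le_of_sq_le_sq_of_nonneg' h5
where
  le_of_sq_le_sq_of_nonneg' {a : ℝ} (h : a ^ 2 ≤ (1 / 8) ^ 2) : a ≤ 1 / 8 := by nlinarith

lemma step_bound (hd : 0 < d) (hd4 : d ≤ 4) {C a c β : ℝ} (hC1 : 1 ≤ C)
    (hC : ∀ (n : ℕ) (z : V d), pp n z ^ 2 * (n + 1) ^ d ≤ C)
    (ha0 : 0 < a) (ha1 : a ≤ 1) (had : 4 - 2 * a ≤ d) (hc : 0 < c) (hβ : 0 ≤ β)
    {q : ℕ → ℝ} (hq : ∀ n : ℕ, c * ((n : ℝ) + 1) ^ (-β) ≤ q n) {M s : ℕ} (hs : 0 < s)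
    (hM10 : 10 ≤ M) (hM : 64 * C * 648 ^ d ≤ M) (y : ℕ → V d)
    (hy : ∀ i < s ^ 2, nn (y i) ≤ 10 * s)
    (hE : En ((M * s) ^ 2) y (s ^ 2) ≤ KK d (s ^ 2) ((M * s) ^ 2)) :
    c * a / (3456 * C * M ^ 2) * (3 * ((M : ℝ) * s) ^ 2) ^ (3 - β - a) ≤
      ∑ x ∈ box (0 : V d) (4 * (M * s)) \ box 0 (4 * s),
        ∑ n ∈ Ico (2 * (M * s) ^ 2) (3 * (M * s) ^ 2), q n * Ex n
          fun l => ind (Good M (M * s) x (trace l) ∧ ∃ i < s ^ 2, y i - x ∈ trace l) := by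
  have hMs : 0 < M * s := by positivity
  have he := one_le_ee (d := d) (s ^ 2) ((M * s) ^ 2)
  have hK : 0 < KK d (s ^ 2) ((M * s) ^ 2) := by unfold KK; positivity
  have h1 := hit1 hd hd4 y (s ^ 2) (ρ := 4 * s) hMs
    (fun i hi => (hy i hi).trans (Nat.mul_le_mul_right _ hM10)) hK hE
    (annulus hd hC1 hC hs hM)
  set N : ℕ := (M * s) ^ 2 with hN
  have hN0 : 0 < N := by positivity
  have hN' : (0 : ℝ) < N := by positivity
  have hNr : ((M : ℝ) * s) ^ 2 = N := by rw [hN]; push_cast; ring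
  have h3N : (0 : ℝ) < 3 * N := by positivity
  have h2 : ∀ x ∈ box (0 : V d) (4 * (M * s)) \ box 0 (4 * s),
      (N * (c * (3 * (N : ℝ)) ^ (-β)) / 2) * (Ex N fun l =>
        ind (rad (trace l) ≤ 3 * (M * s) ∧ ∃ i < s ^ 2, y i - x ∈ trace l)) ≤
      ∑ n ∈ Ico (2 * N) (3 * N), q n * Ex n
          fun l => ind (Good M (M * s) x (trace l) ∧ ∃ i < s ^ 2, y i - x ∈ trace l) := by
    intro x hx
    have hx' : nn x ≤ 4 * (M * s) := by
      have := mem_box.1 (Finset.mem_sdiff.1 hx).1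
      rwa [sub_zero] at this
    refine le_trans (le_of_eq ?_) (Finset.card_nsmul_le_sum _ _
      ((c * (3 * (N : ℝ)) ^ (-β)) * ((Ex N fun l =>
        ind (rad (trace l) ≤ 3 * (M * s) ∧ ∃ i < s ^ 2, y i - x ∈ trace l)) * (1 / 2)))
      fun n hn => ?_)
    · rw [Nat.card_Ico, show 3 * N - 2 * N = N by omega, nsmul_eq_mul]; ring
    · obtain ⟨hn1, hn2⟩ := Finset.mem_Ico.1 hn
      have h4 : c * (3 * (N : ℝ)) ^ (-β) ≤ q n := by
        refine le_trans (mul_le_mul_of_nonneg_left ?_ hc.le) (hq n)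
        refine Real.rpow_le_rpow_of_nonpos (by positivity) ?_ (by linarith)
        exact_mod_cast hn2
      exact mul_le_mul h4 (hit2 hd hd4 y _ M hMs hx' hn1)
        (mul_nonneg (Ex_ind_nonneg _ _) (by norm_num)) (le_trans (by positivity) h4)
  refine le_trans ?_ (Finset.sum_le_sum h2)
  rw [← Finset.mul_sum]
  refine le_trans ?_ (mul_le_mul_of_nonneg_left h1 (by positivity))
  have h5 : ee d (s ^ 2) N ≤ C * (3 * (N : ℝ)) ^ a / a := by
    refine (ee_le hC1 hC ha0 ha1 had _ _).trans ?_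
    have : s ^ 2 + N + 1 ≤ 3 * N := by
      have : s ^ 2 ≤ N := by rw [hN]; exact Nat.pow_le_pow_left (by nlinarith) 2
      omega
    have h6 : ((s ^ 2 + N + 1 : ℕ) : ℝ) ≤ 3 * N := by exact_mod_cast this
    gcongr
  have h6 : KK d (s ^ 2) N ≤ 8 * (s : ℝ) ^ 2 * (C * (3 * (N : ℝ)) ^ a / a) := by
    unfold KK; push_cast; gcongr
  have h7 : ((s ^ 2 : ℕ) : ℝ) ^ 2 * ((M * s : ℕ) : ℝ) ^ 2 /
      (8 * (8 * (s : ℝ) ^ 2 * (C * (3 * (N : ℝ)) ^ a / a))) ≤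
      ((s ^ 2 : ℕ) : ℝ) ^ 2 * ((M * s : ℕ) : ℝ) ^ 2 / (8 * KK d (s ^ 2) N) := by
    gcongr
  refine le_trans (le_of_eq ?_) (mul_le_mul_of_nonneg_left h7 (by positivity))
  rw [hNr, show 3 - β - a = 3 + (-β) - a by ring, Real.rpow_sub h3N, Real.rpow_add h3N]
  have e3 : (3 * (N : ℝ)) ^ (3 : ℝ) = 27 * N ^ 3 := by
    rw [show (3 : ℝ) = ((3 : ℕ) : ℝ) by norm_num, Real.rpow_natCast]; push_cast; ring
  rw [e3]
  have hpa : 0 < (3 * (N : ℝ)) ^ a := by positivity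
  generalize (3 * (N : ℝ)) ^ a = X at *
  generalize (3 * (N : ℝ)) ^ (-β) = Y at *
  push_cast
  rw [hNr]
  have hM0 : (0 : ℝ) < M := by positivity
  have hs0 : (0 : ℝ) < s := by positivity
  rw [← hNr]
  field_simp
  ring

theorem perc_heavy (hd : 0 < d) (hd4 : d ≤ 4) {a c β : ℝ}
    (ha0 : 0 < a) (ha1 : a ≤ 1) (had : 4 - 2 * a ≤ d) (hc : 0 < c) (hβ : 0 ≤ β) (hlt : β + a < 3)
    {q : ℕ → ℝ} (hq : ∀ n : ℕ, c * ((n : ℝ) + 1) ^ (-β) ≤ q n) {v : ℝ} (hv : 0 < v)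
    {Ω : Type*} [MeasurableSpace Ω] (P : Measure Ω) [IsProbabilityMeasure P]
    (W : V d → Ω → Finset (V d) → Prop) (hW : Model P W v q) :
    P {ω | Perc nadj (occ (fun x => W x ω) Set.univ fun _ => True)} ≠ 0 := by
  obtain ⟨C, hC1, hC⟩ := heat hd
  obtain ⟨M, hM'⟩ := exists_nat_ge (max 10 (64 * C * 648 ^ d))
  have hM10 : 10 ≤ M := by exact_mod_cast (le_max_left _ _).trans hM'
  have hM : 64 * C * 648 ^ d ≤ M := (le_max_right _ _).trans hM'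
  have hM0 : (1 : ℝ) < M := by exact_mod_cast (by omega : 1 < M)
  have hq0 : ∀ n, 0 ≤ q n := fun n => le_trans (by positivity) (hq n)
  set κ : ℝ := c * a / (3456 * C * M ^ 2) with hκ
  have hκ0 : 0 < κ := by positivity
  set θ : ℝ := (M : ℝ) ^ (3 - β - a) with hθ
  have hθ1 : 1 < θ := Real.one_lt_rpow hM0 (by linarith)
  set r : ℝ := θ⁻¹ with hr
  have hr0 : 0 ≤ r := by positivity
  have hr1 : r < 1 := inv_lt_one_of_one_lt₀ hθ1
  have key : ∀ (j : ℕ) (y : ℕ → V d), (∀ i < (M ^ j) ^ 2, nn (y i) ≤ 10 * M ^ j) →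
      En ((M * M ^ j) ^ 2) y ((M ^ j) ^ 2) ≤ KK d ((M ^ j) ^ 2) ((M * M ^ j) ^ 2) →
      P (NoHit W (box (0 : V d) (4 * (M * M ^ j)) \ box 0 (4 * M ^ j))
        fun x B => Good M (M * M ^ j) x B ∧ ∃ i < (M ^ j) ^ 2, y i - x ∈ B) ≤
        ENNReal.ofReal ((v * κ)⁻¹ * r ^ j) := by
    intro j y hy hE
    have h1 := NoHit_le P W hW.indep
      (fun x B => Good M (M * M ^ j) x B ∧ ∃ i < (M ^ j) ^ 2, y i - x ∈ B) _
      (fun x => hW.low x _ (Ico (2 * (M * M ^ j) ^ 2) (3 * (M * M ^ j) ^ 2)))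
      (box (0 : V d) (4 * (M * M ^ j)) \ box 0 (4 * M ^ j))
    have h2 := step_bound hd hd4 hC1 hC ha0 ha1 had hc hβ hq (s := M ^ j) (by positivity)
      hM10 hM y hy hE
    rw [← Finset.mul_sum] at h1
    have h3 : θ ^ j ≤ (3 * ((M : ℝ) * (M ^ j : ℕ)) ^ 2) ^ (3 - β - a) := by
      rw [hθ, ← Real.rpow_natCast, ← Real.rpow_mul (by positivity), mul_comm,
        Real.rpow_mul (by positivity), Real.rpow_natCast]
      refine Real.rpow_le_rpow (by positivity) ?_ (by linarith)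
      push_cast
      have : (1 : ℝ) ≤ (M : ℝ) ^ j := one_le_pow₀ hM0.le
      have h4 : (M : ℝ) ^ j ≤ M * M ^ j := by nlinarith
      nlinarith
    have h4 := (mul_le_mul_of_nonneg_left h3 hκ0.le).trans h2
    have h5 := mul_le_mul_of_nonneg_left h4 hv.le
    rw [← ENNReal.ofReal_toReal (measure_ne_top P _)]
    refine ENNReal.ofReal_le_ofReal (h1.trans ((Real.exp_le_exp.2 (neg_le_neg h5)).trans ?_))
    have h6 : 0 < v * (κ * θ ^ j) := by positivity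
    rw [Real.exp_neg, hr, inv_pow, ← mul_inv, mul_assoc]
    exact inv_anti₀ h6 (by linarith [Real.add_one_le_exp (v * (κ * θ ^ j))])
  obtain ⟨k0, hk0⟩ := exists_pow_lt_of_lt_one (x := v * κ * (1 - r)) (y := r)
    (by have : 0 < 1 - r := by linarith
        positivity) hr1
  refine lower P W hW.meas hW.indep nadj nadj_symm
    (fun k => box (0 : V d) (4 * (M * M ^ (k + k0))) \ box 0 (4 * M ^ (k + k0))) ?_
    (fun k => Good M (M * M ^ (k + k0))) (fun k x A h => h.1)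
    (fun k => ENNReal.ofReal ((v * κ)⁻¹ * r ^ (k + k0))) ?_ ?_ ?_
  · intro j k hjk
    rw [Finset.disjoint_left]
    intro x h1 h2
    refine (Finset.mem_sdiff.1 h2).2 ?_
    have h3 := (Finset.mem_sdiff.1 h1).1
    rw [mem_box] at h3 ⊢
    have : M * M ^ (j + k0) ≤ M ^ (k + k0) := by
      rw [← pow_succ']; exact Nat.pow_le_pow_right (by omega) (by omega)
    omega
  · refine lt_of_le_of_lt (tsum_ofReal_le_nat (c := (v * κ)⁻¹ * r ^ k0 * (1 - r)⁻¹)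
      (fun k => by positivity) fun N => ?_) ?_
    · simp only [pow_add]
      have : ∑ i ∈ range N, (v * κ)⁻¹ * (r ^ i * r ^ k0) =
          (v * κ)⁻¹ * r ^ k0 * ∑ i ∈ range N, r ^ i := by
        rw [Finset.mul_sum]; exact Finset.sum_congr rfl fun i _ => by ring
      rw [this]
      refine mul_le_mul_of_nonneg_left ?_ (by positivity)
      rw [← tsum_geometric_of_lt_one hr0 hr1]
      exact (summable_geometric_of_lt_one hr0 hr1).sum_le_tsum _ fun i _ => by positivity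
    · rw [ENNReal.ofReal_lt_one]
      have h1 : 0 < 1 - r := by linarith
      have : (v * κ)⁻¹ * r ^ k0 * (1 - r)⁻¹ = r ^ k0 / (v * κ * (1 - r)) := by field_simp
      rw [this, div_lt_one (by positivity)]
      exact hk0
  · obtain ⟨y, hy, hE⟩ := exists_spread hd hd4 (s := M ^ (0 + k0)) (by positivity)
      ((M * M ^ (0 + k0)) ^ 2)
    refine le_trans (measure_mono ?_) (key (0 + k0) y hy hE)
    intro ω hω x hx B hB h
    exact hω x hx B hB h.1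
  · intro k x A _ hA
    obtain ⟨y, hy, hE⟩ := hA.2
    have e : M * M ^ (k + k0) = M ^ (k + 1 + k0) := by ring
    rw [e] at hy hE
    refine le_trans (measure_mono ?_) (key (k + 1 + k0) y (fun i hi => (hy i hi).2) hE)
    rintro ω hω z hz B hB ⟨h1, i, hi, h2⟩
    exact hω z hz B hB ⟨h1, y i - x, (hy i hi).1, by simpa using h2⟩

end Pool.Agent.H536Z
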