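import Mathlib

/-! The random length worm model on the square lattice. -/

set_option autoImplicit false

namespace Pool.Agent.H536Z.Plane

open MeasureTheory ProbabilityTheory
open scoped NNReal ENNReal

/-- the nearest neighbour lattice on `ℤ²` -/
def lattice : SimpleGraph (ℤ × ℤ) :=
  SimpleGraph.fromRel fun a b => |a.1 - b.1| + |a.2 - b.2| = 1

/-- the four unit steps -/
def step : Fin 4 → ℤ × ℤ := ![(1, 0), (-1, 0), (0, 1), (0, -1)]

/-- a configuration: the number of worms at each site `x`, the length of worm number `i` at `x`,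
and step number `k` of worm number `i` at `x` -/
abbrev Config : Type := (ℤ × ℤ → ℕ) × ((ℤ × ℤ) × ℕ → ℕ) × ((ℤ × ℤ) × ℕ × ℕ → Fin 4)

/-- all coordinates are independent: Poisson(`v`) numbers of worms, lengths of law `m`,
uniform steps -/
noncomputable def law (m : PMF ℕ) (v : ℝ≥0) : Measure Config :=
  (Measure.infinitePi fun _ : ℤ × ℤ => poissonMeasure v).prod
    ((Measure.infinitePi fun _ : (ℤ × ℤ) × ℕ => m.toMeasure).prod
      (Measure.infinitePi fun _ : (ℤ × ℤ) × ℕ × ℕ => (PMF.uniformOfFintype (Fin 4)).toMeasure))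

/-- the union of the traces `{X(0), …, X(L)}` of all worms -/
def wormSet (ω : Config) : Set (ℤ × ℤ) :=
  {a | ∃ (x : ℤ × ℤ) (i : ℕ), i < ω.1 x ∧ ∃ t ≤ ω.2.1 (x, i),
    a = x + ∑ k ∈ Finset.range t, step (ω.2.2 (x, i, k))}

/-- the subgraph of the lattice induced by `S` has an infinite connected component -/
def Percolates (S : Set (ℤ × ℤ)) : Prop :=
  ∃ C : (lattice.induce S).ConnectedComponent, C.supp.Infinite

/-- the critical intensity -/
noncomputable def vc (m : PMF ℕ) : ℝ≥0∞ :=
  sInf {w : ℝ≥0∞ | ∃ v : ℝ≥0, 0 < v ∧ w = v ∧ 0 < law m v {ω | Percolates (wormSet ω)}}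

end Pool.Agent.H536Z.Plane
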