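import Pool.Agent.H536Z.Three
import Pool.Agent.H536Z.PlaneDefs

/-! A length law with infinite mean and positive critical intensity in the plane. -/

set_option autoImplicit false
set_option maxHeartbeats 400000

namespace Pool.Agent.H536Z

open MeasureTheory ProbabilityTheory Finset
open scoped NNReal ENNReal

noncomputable def ell : ℕ → ℕ
  | 0 => 1
  | j + 1 => Classical.choose (tau_two ((4 * 10 ^ ell j + 1) ^ 2 * 2 ^ (j + 1)) (by positivity))

lemma ell_spec (j : ℕ) :
    (4 * 10 ^ ell j + 1) ^ 2 * 2 ^ (j + 1) * tau 2 (ell (j + 1)) ≤ ell (j + 1) :=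
  Classical.choose_spec (tau_two ((4 * 10 ^ ell j + 1) ^ 2 * 2 ^ (j + 1)) (by positivity))

lemma ell_grow (j : ℕ) : (ell j + 1) ^ 2 * 2 ^ (j + 1) ≤ ell (j + 1) := by
  have h1 := ell_spec j
  have h2 := one_le_tau (d := 2) (by norm_num) (ell (j + 1))
  have h3 : ((4 * 10 ^ ell j + 1) ^ 2 * 2 ^ (j + 1) : ℝ) ≤ ell (j + 1) :=
    le_trans (le_mul_of_one_le_right (by positivity) h2) h1
  have h4 : (4 * 10 ^ ell j + 1) ^ 2 * 2 ^ (j + 1) ≤ ell (j + 1) := by exact_mod_cast h3
  have h5 : ell j < 10 ^ ell j := Nat.lt_pow_self (by norm_num)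
  exact le_trans (Nat.mul_le_mul_right _ (Nat.pow_le_pow_left (by omega) 2)) h4

lemma ell_strictMono : StrictMono ell := strictMono_nat_of_lt_succ fun j => by
  have h1 := ell_grow j
  have h2 : 1 ≤ 2 ^ (j + 1) := Nat.one_le_two_pow
  nlinarith

lemma two_pow_le_ell (j : ℕ) : 2 ^ j ≤ ell j := by
  cases j with
  | zero => exact le_rfl
  | succ j =>
    have h1 := ell_grow j
    have : 1 ≤ (ell j + 1) ^ 2 := Nat.one_le_pow _ _ (by omega)
    nlinarith [Nat.zero_le (2 ^ (j + 1))]

lemma ell_pos (j : ℕ) : 0 < ell j := lt_of_lt_of_le (by positivity) (two_pow_le_ell j)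

lemma wsum_ne_top : ∑' i, ((ell i : ℝ≥0∞))⁻¹ ≠ ⊤ := by
  refine ne_top_of_le_ne_top (b := ∑' i : ℕ, (2⁻¹ : ℝ≥0∞) ^ i) ?_ (ENNReal.tsum_le_tsum fun i => ?_)
  · rw [ENNReal.tsum_geometric]; simp
  · rw [← ENNReal.inv_pow]
    refine ENNReal.inv_le_inv.2 ?_
    exact_mod_cast two_pow_le_ell i

lemma one_le_wsum : 1 ≤ ∑' i, ((ell i : ℝ≥0∞))⁻¹ := by
  refine le_trans (le_of_eq ?_) (ENNReal.le_tsum 0)
  simp [ell]

noncomputable def mm : PMF ℕ :=
  (PMF.normalize (fun i => ((ell i : ℝ≥0∞))⁻¹)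
    (lt_of_lt_of_le one_pos one_le_wsum).ne' wsum_ne_top).map ell

lemma mm_ell (i : ℕ) : mm (ell i) = ((ell i : ℝ≥0∞))⁻¹ * (∑' i, ((ell i : ℝ≥0∞))⁻¹)⁻¹ := by
  rw [mm, PMF.map_apply, tsum_eq_single i]
  · simp [PMF.normalize_apply]
  · intro j hj
    rw [if_neg fun h => hj (ell_strictMono.injective h).symm]

lemma mm_off {n : ℕ} (h : ∀ i, n ≠ ell i) : mm n = 0 := by
  rw [mm, PMF.map_apply]
  simp [h]

lemma mm_zero : mm 0 = 0 := mm_off fun i => (ell_pos i).ne

lemma mm_mean : ∑' n : ℕ, (n : ℝ≥0∞) * mm n = ⊤ := by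
  refine top_le_iff.1 (le_trans (le_of_eq ?_)
    (ENNReal.tsum_comp_le_tsum_of_injective ell_strictMono.injective fun n => (n : ℝ≥0∞) * mm n))
  have : ∀ i, (ell i : ℝ≥0∞) * mm (ell i) = (∑' i, ((ell i : ℝ≥0∞))⁻¹)⁻¹ := by
    intro i
    rw [mm_ell, ← mul_assoc, ENNReal.mul_inv_cancel (by exact_mod_cast (ell_pos i).ne') (by simp),
      one_mul]
  simp only [this]
  exact (ENNReal.tsum_const_eq_top_of_ne_zero (ENNReal.inv_ne_zero.2 wsum_ne_top)).symm

lemma mm_le (i : ℕ) : (mm (ell i)).toReal ≤ 1 / ell i := by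
  refine ENNReal.toReal_le_of_le_ofReal (by positivity) ?_
  rw [mm_ell, one_div, ENNReal.ofReal_inv_of_pos (by exact_mod_cast ell_pos i),
    ENNReal.ofReal_natCast]
  exact mul_le_of_le_one_right' (ENNReal.inv_le_one.2 one_le_wsum)

lemma mm_sum {g : ℕ → ℝ} (hg : ∀ n, 0 ≤ g n) (M : ℕ) :
    ∑ n ∈ range M, (mm (n + 0)).toReal * g n ≤ ∑ i ∈ range M, g (ell i) / ell i := by
  classical
  simp only [add_zero]
  rw [← Finset.sum_subset (s₁ := (range M).filter fun n => ∃ i, n = ell i) (Finset.filter_subset _ _)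
    fun n hn hn' => by
      rw [mm_off fun i hi => hn' (Finset.mem_filter.2 ⟨hn, i, hi⟩)]; simp]
  have hsub : ((range M).filter fun n => ∃ i, n = ell i) ⊆ (range M).image ell := by
    intro n hn
    obtain ⟨h1, i, rfl⟩ := Finset.mem_filter.1 hn
    refine Finset.mem_image.2 ⟨i, ?_, rfl⟩
    have := ell_strictMono.id_le i
    simp only [Finset.mem_range, id] at h1 this ⊢; omega
  refine (Finset.sum_le_sum_of_subset_of_nonneg hsub fun n _ _ =>
    mul_nonneg ENNReal.toReal_nonneg (hg n)).trans ?_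
  rw [Finset.sum_image fun a _ b _ h => ell_strictMono.injective h]
  refine Finset.sum_le_sum fun i _ => ?_
  refine (mul_le_mul_of_nonneg_right (mm_le i) (hg _)).trans (le_of_eq ?_)
  ring

lemma plane_a (r M : ℕ) (hr : 0 < r) : (r : ℝ) ^ 2 * ∑ n ∈ range M, (mm (n + 0)).toReal *
    Ex n (fun l : List (St 2) => ind (r < rad (trace l))) ≤ 32 := by
  classical
  have hr' : (0 : ℝ) < r := by positivity
  refine (mul_le_mul_of_nonneg_left (mm_sum (fun n => Ex_ind_nonneg _ _) M) (by positivity)).trans ?_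
  have hex : ∃ i, r < ell i := ⟨r + 1, ell_strictMono.id_le (r + 1)⟩
  set i0 := Nat.find hex with hi0
  have h1 : ∀ i ∈ range M, (r : ℝ) ^ 2 *
      (Ex (ell i) (fun l : List (St 2) => ind (r < rad (trace l))) / ell i) ≤
      30 * ind (i = i0) + (1 / 2) ^ i := by
    intro i _
    have hl : (0 : ℝ) < ell i := by exact_mod_cast ell_pos i
    have hP1 := Ex_ind_le_one (d := 2) (by norm_num) (ell i) fun l => r < rad (trace l)
    have hP0 := Ex_ind_nonneg (d := 2) (ell i) fun l => r < rad (trace l)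
    rcases lt_trichotomy i i0 with h | h | h
    · have h2 : ¬ r < ell i := Nat.find_min hex h
      have : Ex (ell i) (fun l : List (St 2) => ind (r < rad (trace l))) = 0 := by
        rw [← Ex_zero (d := 2) (ell i)]
        exact Ex_congr fun l hl => ind_neg (by have := rad_trace_le l; omega)
      rw [this]
      have := ind_nonneg (i = i0)
      simp only [zero_div, mul_zero]; positivity
    · rw [ind_pos h, mul_one]
      refine le_add_of_le_of_nonneg ?_ (by positivity)
      rw [← mul_div_assoc, div_le_iff₀ hl]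
      rcases le_total ((r : ℝ) ^ 2) (ell i) with h2 | h2
      · nlinarith [sq_nonneg (r : ℝ)]
      · have h3 := (Ex_mono (n := ell i) fun l _ => ind_mono
          (fun h : r < rad (trace l) => h.le)).trans (rad_tail (d := 2) (by norm_num) hr (ell i))
        refine (mul_le_mul_of_nonneg_left h3 (by positivity)).trans ?_
        rw [← mul_div_assoc, div_le_iff₀ (by positivity)]
        have h4 : (ell i : ℝ) ^ 2 ≤ (r ^ 2) ^ 2 := pow_le_pow_left₀ hl.le h2 2
        have h5 : 0 ≤ 30 * (ell i : ℝ) * r ^ 2 := by positivity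
        push_cast
        nlinarith [mul_le_mul_of_nonneg_left h4 h5]
    · obtain ⟨j, rfl⟩ : ∃ j, i = j + 1 := ⟨i - 1, by omega⟩
      have h2 : r < ell j := lt_of_lt_of_le (Nat.find_spec hex) (ell_strictMono.monotone (by omega))
      have h3 : r ^ 2 * 2 ^ (j + 1) ≤ ell (j + 1) :=
        le_trans (Nat.mul_le_mul_right _ (Nat.pow_le_pow_left (by omega) 2)) (ell_grow j)
      have h4 : (r : ℝ) ^ 2 * 2 ^ (j + 1) ≤ ell (j + 1) := by exact_mod_cast h3
      refine le_add_of_nonneg_of_le (mul_nonneg (by norm_num) (ind_nonneg _)) ?_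
      rw [← mul_div_assoc, div_le_iff₀ hl, one_div, inv_pow, ← div_eq_inv_mul,
        le_div_iff₀ (by positivity)]
      refine le_trans ?_ h4
      exact mul_le_mul_of_nonneg_right (mul_le_of_le_one_right (by positivity) hP1) (by positivity)
  rw [Finset.mul_sum]
  refine (Finset.sum_le_sum h1).trans ?_
  rw [Finset.sum_add_distrib, ← Finset.mul_sum, sum_ind_eq]
  have h2 := sum_geometric_two_le M
  have h3 := ind_le_one (i0 ∈ range M)
  linarith

lemma plane_b (i M : ℕ) :
    ∑ n ∈ range M, (mm (n + 0)).toReal * uu 2 n (10 ^ ell i) ≤ 32 := by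
  refine (mm_sum (fun n => uu_nonneg _ _) M).trans (le_trans (Finset.sum_le_sum
    (g := fun j => (1 / 2 : ℝ) ^ j) fun j _ => ?_) ((sum_geometric_two_le M).trans (by norm_num)))
  have hl : (0 : ℝ) < ell j := by exact_mod_cast ell_pos j
  rcases le_or_gt j i with h | h
  · have h1 := ell_strictMono.monotone h
    have h2 : ell i < 10 ^ ell i := Nat.lt_pow_self (by norm_num)
    have : uu 2 (ell j) (10 ^ ell i) = 0 := by
      rw [← Ex_zero (d := 2) (ell j)]
      exact Ex_congr fun l hl => by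
        rw [ind_neg (by have := rad_trace_le l; omega), zero_mul]
    rw [this, zero_div]; positivity
  · obtain ⟨j, rfl⟩ : ∃ j', j = j' + 1 := ⟨j - 1, by omega⟩
    have h1 : ell i ≤ ell j := ell_strictMono.monotone (by omega)
    have h2 : uu 2 (ell (j + 1)) (10 ^ ell i) ≤ (4 * 10 ^ ell j + 1) ^ 2 * tau 2 (ell (j + 1)) := by
      refine (uu_le_ff _ _).trans ?_
      unfold ff tau
      rw [← Ex_mul]
      refine Ex_mono fun l _ => ?_
      have h3 := card_saus_le' (2 * 10 ^ ell i) (trace l)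
      have h4 : 10 ^ ell i ≤ 10 ^ ell j := Nat.pow_le_pow_right (by norm_num) h1
      have h5 : (saus (2 * 10 ^ ell i) (trace l)).card ≤
          (4 * 10 ^ ell j + 1) ^ 2 * (trace l).card := by
        have h6 : 2 * (2 * 10 ^ ell i) + 1 ≤ 4 * 10 ^ ell j + 1 := by omega
        rw [mul_comm ((4 * 10 ^ ell j + 1) ^ 2)]
        exact h3.trans (Nat.mul_le_mul_left _ (Nat.pow_le_pow_left h6 2))
      exact_mod_cast h5
    rw [div_le_iff₀ hl, one_div, inv_pow, ← div_eq_inv_mul, le_div_iff₀ (by positivity)]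
    refine (mul_le_mul_of_nonneg_right h2 (by positivity)).trans (le_trans (le_of_eq ?_)
      (ell_spec j))
    ring

def io2 : (ℤ × ℤ) ≃+ V 2 where
  toFun p := ![p.1, p.2]
  invFun a := (a 0, a 1)
  left_inv _ := rfl
  right_inv a := by funext j; fin_cases j <;> rfl
  map_add' p q := by funext j; fin_cases j <;> rfl

def si2 : Fin 4 ≃ St 2 where
  toFun := ![(0, true), (0, false), (1, true), (1, false)]
  invFun e := ⟨2 * e.1 + if e.2 then 0 else 1, by have := e.1.2; split_ifs <;> omega⟩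
  left_inv := by decide
  right_inv := by decide

lemma vec_si2 (e : Fin 4) : vec (si2 e) = io2 (Plane.step e) := by
  revert e; decide

lemma perc_of_percolates (ω : Plane.Config) (h : Plane.Percolates (Plane.wormSet ω)) :
    Perc sadj (occ (fun x => PW si2 0 io2.toEquiv x ω) Set.univ fun _ => True) := by
  obtain ⟨C, hC⟩ := h
  obtain ⟨a, rfl⟩ := C.exists_rep
  have hmem : ∀ b : Plane.wormSet ω,
      io2 b ∈ occ (fun x => PW si2 0 io2.toEquiv x ω) Set.univ fun _ => True := by
    rintro ⟨b, x, i, hi, t, ht, h2⟩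
    refine (mem_occ_PW _ _ _ _ _).2 ⟨x, i, hi, t, ht, ?_⟩
    simp only [h2, map_add, map_sum, vec_si2]
    rfl
  have hinj : Function.Injective fun b : Plane.wormSet ω => io2 b :=
    io2.injective.comp Subtype.val_injective
  refine ⟨io2 a, (hC.image hinj.injOn).mono ?_⟩
  rintro _ ⟨b, hb, rfl⟩
  have hb' : (Plane.lattice.induce (Plane.wormSet ω)).Reachable a b :=
    (SimpleGraph.ConnectedComponent.exact hb).symm
  have hz := (SimpleGraph.reachable_iff_reflTransGen _ _).1 hb'
  clear hb hb'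
  show CR sadj _ (io2 a) (io2 b)
  induction hz with
  | refl => exact CR.refl _ _
  | @tail u w _ h2 ih =>
    refine Relation.ReflTransGen.tail ih ⟨hmem u, hmem w, ?_⟩
    have h3 : Plane.lattice.Adj u w := h2
    rcases ((SimpleGraph.fromRel_adj _ _ _).1 h3).2 with h | h
    · exact sadj_of_l1 (by rw [Fin.sum_univ_two]; exact h)
    · exact sadj_symm _ _ (sadj_of_l1 (by rw [Fin.sum_univ_two]; exact h))

theorem plane_main : 0 < Plane.vc mm := by
  obtain ⟨v0, hv0, hv⟩ := nonperc (d := 2) (by norm_num) (fun n => (mm (n + 0)).toReal)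
    (fun n => ENNReal.toReal_nonneg) (pmf_sum_le mm 0) (K := 32) (by norm_num)
    (fun k M => by
      have := plane_a (10 ^ k) M (by positivity)
      push_cast at this; exact this)
    (fun k0 => ⟨ell k0, ell_strictMono.id_le k0, plane_b k0⟩)
  refine lt_of_lt_of_le (ENNReal.ofReal_pos.2 hv0) (le_sInf ?_)
  rintro w ⟨v, _, rfl, h⟩
  by_contra hlt
  have hle : (v : ℝ) ≤ v0 := by
    have := (not_le.1 hlt).le
    rw [← ENNReal.ofReal_coe_nnreal] at this
    exact (ENNReal.ofReal_le_ofReal_iff hv0.le).1 this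
  have h1 := hv v v.2 hle _ _ _ (pmf_model si2 0 io2.toEquiv mm (poissonMeasure v) v.2
    (poissonMeasure_singleton v))
  refine h.ne' (le_antisymm (le_trans (measure_mono ?_) h1.le) bot_le)
  exact fun ω hω => perc_of_percolates ω hω

end Pool.Agent.H536Z
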