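import Pool.Agent.H536Z.Heat

/-! Volume of neighbourhoods of the trace of a random walk. -/

set_option autoImplicit false

namespace Pool.Agent.H536Z

open Finset

variable {d : ℕ}

noncomputable def saus (r : ℕ) (A : Finset (V d)) : Finset (V d) := A.biUnion fun a => box (-a) r

lemma mem_saus {r : ℕ} {A : Finset (V d)} {x : V d} :
    x ∈ saus r A ↔ ∃ a ∈ A, nn (x + a) ≤ r := by
  simp [saus, mem_box]

lemma saus_subset (r : ℕ) (A : Finset (V d)) : saus r A ⊆ box 0 (r + rad A) := by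
  intro x hx
  obtain ⟨a, ha, h⟩ := mem_saus.1 hx
  rw [mem_box, sub_zero]
  have h1 := nn_add (x + a) (-a)
  have h2 := nn_le_rad ha
  rw [add_neg_cancel_right, nn_neg] at h1
  omega

lemma card_saus_le (r : ℕ) (A : Finset (V d)) : (saus r A).card ≤ (2 * (r + rad A) + 1) ^ d := by
  rw [← card_box (0 : V d)]; exact Finset.card_le_card (saus_subset r A)

lemma card_saus_le' (r : ℕ) (A : Finset (V d)) : (saus r A).card ≤ A.card * (2 * r + 1) ^ d :=
  Finset.card_biUnion_le_card_mul _ _ _ fun a _ => (card_box _ _).le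

lemma le_card_saus (r : ℕ) {A : Finset (V d)} (h : 0 ∈ A) : (2 * r + 1) ^ d ≤ (saus r A).card := by
  rw [← card_box (0 : V d)]
  refine Finset.card_le_card fun x hx => mem_saus.2 ⟨0, h, ?_⟩
  simpa [mem_box] using hx

lemma card_saus_append (r : ℕ) (l l' : List (St d)) :
    (saus r (trace (l ++ l'))).card ≤ (saus r (trace l)).card + (saus r (trace l')).card := by
  have : saus r (trace (l ++ l')) ⊆
      saus r (trace l) ∪ (saus r (trace l')).image fun x => x - endp l := by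
    intro x hx
    obtain ⟨a, ha, h⟩ := mem_saus.1 hx
    rcases mem_trace_append.1 ha with ha | ha
    · exact Finset.mem_union_left _ (mem_saus.2 ⟨a, ha, h⟩)
    · refine Finset.mem_union_right _ (Finset.mem_image.2 ⟨x + endp l, mem_saus.2 ⟨_, ha, ?_⟩,
        by simp⟩)
      have : x + endp l + (a - endp l) = x + a := by abel
      rw [this]; exact h
  exact (Finset.card_le_card this).trans ((Finset.card_union_le _ _).trans
    (Nat.add_le_add_left Finset.card_image_le _))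

lemma dyadic {r R : ℕ} (hr : 0 < r) (h : r ≤ R) :
    ∃ j, j < R + 1 ∧ 2 ^ j * r ≤ R ∧ R ≤ 2 ^ (j + 1) * r := by
  have hq : R / r ≠ 0 := (Nat.div_pos h hr).ne'
  refine ⟨Nat.log 2 (R / r), ?_, ?_, ?_⟩
  · have h1 := Nat.log_le_self 2 (R / r)
    have h2 := Nat.div_le_self R r
    omega
  · exact le_trans (Nat.mul_le_mul_right _ (Nat.pow_log_le_self 2 hq)) (Nat.div_mul_le_self R r)
  · have h1 := Nat.lt_pow_succ_log_self (b := 2) (by norm_num) (R / r)
    have h2 := Nat.lt_div_mul_add (a := R) hr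
    have h3 : (R / r + 1) * r ≤ 2 ^ (Nat.log 2 (R / r) + 1) * r := Nat.mul_le_mul_right _ h1
    nlinarith

lemma rad_moment (hd : 0 < d) (hd5 : d ≤ 5) {r : ℕ} (hr : 0 < r) (n : ℕ) :
    Ex n (fun l : List (St d) => ind (r ≤ rad (trace l)) * (rad (trace l) : ℝ) ^ d) ≤
      30 * d * 2 ^ d * n ^ 3 * r ^ d / (r : ℝ) ^ 6 := by
  have h1 : ∀ l : List (St d), l.length = n →
      ind (r ≤ rad (trace l)) * (rad (trace l) : ℝ) ^ d ≤
      ∑ j ∈ range (n + 1), ((2 : ℝ) ^ (j + 1) * r) ^ d * ind (2 ^ j * r ≤ rad (trace l)) := by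
    intro l hl
    have hnn : ∀ j ∈ range (n + 1),
        0 ≤ ((2 : ℝ) ^ (j + 1) * r) ^ d * ind (2 ^ j * r ≤ rad (trace l)) :=
      fun j _ => mul_nonneg (by positivity) (ind_nonneg _)
    by_cases h : r ≤ rad (trace l)
    · obtain ⟨j, h1, h2, h3⟩ := dyadic hr h
      have h4 := rad_trace_le l
      refine le_trans ?_ (Finset.single_le_sum hnn (Finset.mem_range.2 (by omega : j < n + 1)))
      rw [ind_pos h, ind_pos h2, one_mul, mul_one]
      refine pow_le_pow_left₀ (by positivity) ?_ d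
      exact_mod_cast h3
    · rw [ind_neg h, zero_mul]; exact Finset.sum_nonneg hnn
  refine (Ex_mono h1).trans ?_
  rw [Ex_sum]
  have hr' : (0 : ℝ) < r := by positivity
  have h2 : ∀ j ∈ range (n + 1), Ex n (fun l : List (St d) =>
      ((2 : ℝ) ^ (j + 1) * r) ^ d * ind (2 ^ j * r ≤ rad (trace l))) ≤
      (15 * d * 2 ^ d * n ^ 3 * r ^ d / (r : ℝ) ^ 6) * (1 / 2) ^ j := by
    intro j _
    rw [Ex_mul]
    refine (mul_le_mul_of_nonneg_left (rad_tail hd (by positivity) n) (by positivity)).trans ?_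
    have h5 : ((2 : ℝ) ^ j) ^ d ≤ (2 ^ j) ^ 5 := pow_le_pow_right₀ (one_le_pow₀ (by norm_num)) hd5
    have e : ((2 : ℝ) ^ (j + 1) * r) ^ d * (15 * d * n ^ 3 / ((2 ^ j * r : ℕ) : ℝ) ^ 6) =
        (15 * d * 2 ^ d * n ^ 3 * r ^ d / (r : ℝ) ^ 6) * ((2 ^ j) ^ d / (2 ^ j) ^ 6) := by
      push_cast
      rw [pow_succ, mul_pow, mul_pow, mul_pow]
      field_simp
    rw [e]
    refine mul_le_mul_of_nonneg_left ?_ (by positivity)
    rw [div_le_iff₀ (by positivity), one_div, inv_pow]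
    refine h5.trans (le_of_eq ?_)
    field_simp
  refine (Finset.sum_le_sum h2).trans ?_
  rw [← Finset.mul_sum]
  have h3 := sum_geometric_two_le (n + 1)
  refine (mul_le_mul_of_nonneg_left h3 (by positivity)).trans (le_of_eq ?_)
  ring

/-- expected volume of the neighbourhood, on the event that the walk goes further than `r` -/
noncomputable def uu (d n r : ℕ) : ℝ :=
  Ex n fun l : List (St d) => ind (r < rad (trace l)) * (saus (2 * r) (trace l)).card

lemma uu_nonneg (n r : ℕ) : 0 ≤ uu d n r :=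
  Ex_nonneg fun _ => mul_nonneg (ind_nonneg _) (Nat.cast_nonneg _)

lemma uu_small (hd : 0 < d) (hd5 : d ≤ 5) {r : ℕ} (hr : 0 < r) (n : ℕ) :
    uu d n r ≤ 30 * d * 14 ^ d * n ^ 3 * r ^ d / (r : ℝ) ^ 6 := by
  have h1 : ∀ l : List (St d), l.length = n →
      ind (r < rad (trace l)) * ((saus (2 * r) (trace l)).card : ℝ) ≤
      7 ^ d * (ind (r ≤ rad (trace l)) * (rad (trace l) : ℝ) ^ d) := by
    intro l _
    by_cases h : r < rad (trace l)
    · rw [ind_pos h, ind_pos h.le, one_mul, one_mul, ← mul_pow]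
      have h2 := card_saus_le (2 * r) (trace l)
      have h3 : (2 * (2 * r + rad (trace l)) + 1) ^ d ≤ (7 * rad (trace l)) ^ d :=
        Nat.pow_le_pow_left (by omega) d
      exact_mod_cast h2.trans h3
    · rw [ind_neg h, zero_mul]
      exact mul_nonneg (by positivity) (mul_nonneg (ind_nonneg _) (by positivity))
  refine (Ex_mono h1).trans ?_
  rw [Ex_mul]
  refine (mul_le_mul_of_nonneg_left (rad_moment hd hd5 hr n) (by positivity)).trans (le_of_eq ?_)
  rw [show (14 : ℝ) = 7 * 2 by norm_num, mul_pow]; ring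

noncomputable def ff (d n r : ℕ) : ℝ := Ex n fun l : List (St d) => (saus (2 * r) (trace l)).card

lemma ff_add (a b r : ℕ) (hd : 0 < d) : ff d (a + b) r ≤ ff d a r + ff d b r := by
  unfold ff
  rw [Ex_append, ← Ex_const hd a (Ex b _), ← Ex_add]
  refine Ex_mono fun l _ => ?_
  rw [← Ex_const hd b ((saus (2 * r) (trace l)).card : ℝ), ← Ex_add]
  refine Ex_mono fun l' _ => ?_
  exact_mod_cast card_saus_append _ l l'

lemma ff_block (hd : 0 < d) (hd5 : d ≤ 5) {r : ℕ} (hr : 0 < r) {n : ℕ} (hn : n ≤ r ^ 2) :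
    ff d n r ≤ (7 ^ d + 30 * d * 14 ^ d) * r ^ d := by
  have h1 : ∀ l : List (St d), l.length = n → ((saus (2 * r) (trace l)).card : ℝ) ≤
      (7 * r) ^ d + ind (r < rad (trace l)) * ((saus (2 * r) (trace l)).card : ℝ) := by
    intro l _
    by_cases h : r < rad (trace l)
    · rw [ind_pos h, one_mul]; exact le_add_of_nonneg_left (by positivity)
    · rw [ind_neg h, zero_mul, add_zero]
      have h2 := card_saus_le (2 * r) (trace l)
      have h3 : (2 * (2 * r + rad (trace l)) + 1) ^ d ≤ (7 * r) ^ d :=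
        Nat.pow_le_pow_left (by omega) d
      exact_mod_cast h2.trans h3
  refine (Ex_mono h1).trans ?_
  rw [Ex_add, Ex_const hd, add_mul, mul_pow]
  refine add_le_add le_rfl ((uu_small hd hd5 hr n).trans ?_)
  have hr' : (0 : ℝ) < r := by positivity
  rw [div_le_iff₀ (by positivity)]
  have h4 : (n : ℝ) ^ 3 ≤ r ^ 6 := by
    have : (n : ℝ) ≤ r ^ 2 := by exact_mod_cast hn
    calc (n : ℝ) ^ 3 ≤ (r ^ 2) ^ 3 := pow_le_pow_left₀ (by positivity) this 3
      _ = r ^ 6 := by ring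
  have : (0 : ℝ) ≤ 30 * d * 14 ^ d * r ^ d := by positivity
  nlinarith

lemma ff_mul (hd : 0 < d) (hd5 : d ≤ 5) {r : ℕ} (hr : 0 < r) (k : ℕ) {n : ℕ} (hn : n ≤ r ^ 2) :
    ff d (k * r ^ 2 + n) r ≤ (k + 1) * ((7 ^ d + 30 * d * 14 ^ d) * r ^ d) := by
  induction k with
  | zero => simpa using ff_block hd hd5 hr hn
  | succ k ih =>
    have e : (k + 1) * r ^ 2 + n = (k * r ^ 2 + n) + r ^ 2 := by ring
    rw [e]
    refine (ff_add _ _ _ hd).trans ?_
    have := ff_block hd hd5 hr (le_refl (r ^ 2))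
    push_cast; linarith

lemma uu_le_ff (n r : ℕ) : uu d n r ≤ ff d n r :=
  Ex_mono fun _ _ => mul_le_of_le_one_left (Nat.cast_nonneg _) (ind_le_one _)

lemma uu_large (hd : 0 < d) (hd5 : d ≤ 5) {r : ℕ} (hr : 0 < r) {n : ℕ} (hn : r ^ 2 ≤ n) :
    uu d n r ≤ 2 * (7 ^ d + 30 * d * 14 ^ d) * n * r ^ d / (r : ℝ) ^ 2 := by
  have hr2 : 0 < r ^ 2 := by positivity
  have h1 := ff_mul hd hd5 hr (n / r ^ 2) (Nat.mod_lt n hr2).le
  rw [Nat.div_add_mod' n (r ^ 2)] at h1
  refine (uu_le_ff n r).trans (h1.trans ?_)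
  have h2 : ((n / r ^ 2 : ℕ) : ℝ) * (r : ℝ) ^ 2 ≤ n := by
    exact_mod_cast Nat.div_mul_le_self n (r ^ 2)
  have h3 : (r : ℝ) ^ 2 ≤ n := by exact_mod_cast hn
  rw [le_div_iff₀ (by positivity)]
  have : (0 : ℝ) ≤ (7 ^ d + 30 * d * 14 ^ d) * r ^ d := by positivity
  nlinarith

/-! ### Green function and range -/

noncomputable def gg (N : ℕ) (z : V d) : ℝ := ∑ k ∈ range (N + 1), pp k z

lemma gg_nonneg (N : ℕ) (z : V d) : 0 ≤ gg N z := Finset.sum_nonneg fun _ _ => pp_nonneg _ _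

lemma gg_mono {M N : ℕ} (h : M ≤ N) (z : V d) : gg M z ≤ gg N z :=
  Finset.sum_le_sum_of_subset_of_nonneg (Finset.range_mono (by omega)) fun _ _ _ => pp_nonneg _ _

lemma av_sum {ι : Type*} (s : Finset ι) (f : ι → St d → ℝ) :
    av (fun e => ∑ i ∈ s, f i e) = ∑ i ∈ s, av (f i) := by
  simp only [av]; rw [Finset.sum_comm, Finset.sum_div]

lemma gg_succ (N : ℕ) (z : V d) : av (fun e => gg N (z - vec e)) ≤ gg (N + 1) z := by
  unfold gg
  rw [av_sum, Finset.sum_range_succ' _ (N + 1)]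
  simp only [pp_succ]
  exact le_add_of_nonneg_right (pp_nonneg _ _)

lemma hit_green (n m : ℕ) (x : V d) :
    (Ex n fun l => ind (x ∈ trace l)) * gg m (0 : V d) ≤ gg (n + m) x ∨ d = 0 := by
  rcases Nat.eq_zero_or_pos d with h | hd
  · exact Or.inr h
  left
  induction n generalizing x with
  | zero =>
    simp only [Ex]
    by_cases h : x = 0
    · subst h; rw [ind_pos (zero_mem_trace _)]; simp
    · rw [ind_neg (fun h' => h (mem_trace_nil.1 h')), zero_mul]; exact gg_nonneg _ _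
  | succ n ih =>
    by_cases h : x = 0
    · subst h
      refine (mul_le_of_le_one_left (gg_nonneg _ _) (Ex_ind_le_one hd _ _)).trans
        (gg_mono (by omega) _)
    rw [Ex_succ, mul_comm, ← av_mul, show n + 1 + m = (n + m) + 1 by ring]
    refine le_trans (av_mono fun e => ?_) (gg_succ _ _)
    refine le_trans (le_of_eq ?_) (ih (x - vec e))
    rw [mul_comm]
    congr 1
    exact Ex_congr fun l _ => ind_congr (by rw [mem_trace_cons]; simp [h])

noncomputable def tau (d n : ℕ) : ℝ := Ex n fun l : List (St d) => (trace l).card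

lemma one_le_tau (hd : 0 < d) (n : ℕ) : 1 ≤ tau d n := by
  rw [← Ex_const hd n 1]
  refine Ex_mono fun l _ => ?_
  exact_mod_cast Finset.card_pos.2 ⟨0, zero_mem_trace l⟩

lemma tau_green (hd : 0 < d) (n : ℕ) : tau d n * gg n (0 : V d) ≤ 2 * n + 1 := by
  have h1 : tau d n = ∑ x ∈ box (0 : V d) n, Ex n fun l => ind (x ∈ trace l) := by
    rw [← Ex_sum]
    refine Ex_congr fun l hl => ?_
    have : ∑ x ∈ box (0 : V d) n, ind (x ∈ trace l) = ∑ x ∈ trace l, (1 : ℝ) := by
      rw [← Finset.sum_subset (s₁ := trace l)]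
      · exact Finset.sum_congr rfl fun x hx => ind_pos hx
      · intro x hx
        rw [mem_box, sub_zero, ← hl]
        exact (nn_le_rad hx).trans (rad_trace_le l)
      · exact fun x _ hx => ind_neg hx
    rw [this]; simp
  rw [h1, Finset.sum_mul]
  refine (Finset.sum_le_sum fun x _ => (hit_green n n x).resolve_right hd.ne').trans ?_
  unfold gg
  rw [Finset.sum_comm]
  refine (Finset.sum_le_card_nsmul _ _ 1 fun k _ => ?_).trans ?_
  · rw [sum_pp]; exact Ex_ind_le_one hd _ _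
  · simp; linarith

lemma pp_lower (hd : 0 < d) (n : ℕ) (s : Finset (V d)) :
    ∑ z ∈ s, pp n z ^ 2 ≤ pp (n + n) (0 : V d) := by
  rw [pp_add]
  have : ∑ z ∈ s, pp n z ^ 2 = Ex n fun l => ∑ z ∈ s, ind (endp l = z) * pp n z := by
    rw [Ex_sum]
    exact Finset.sum_congr rfl fun z _ => by rw [Ex_mul', sq]; rfl
  rw [this]
  refine Ex_mono fun l _ => ?_
  have h2 : ∑ z ∈ s, ind (endp l = z) * pp n z = ∑ z ∈ s, ind (z = endp l) * pp n (endp l) := by
    refine Finset.sum_congr rfl fun z _ => ?_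
    by_cases h : endp l = z
    · rw [h]
    · rw [ind_neg h, ind_neg (Ne.symm h), zero_mul, zero_mul]
  rw [h2, ← Finset.sum_mul, sum_ind_eq]
  have := hd
  exact mul_le_of_le_one_left (pp_nonneg _ _) (ind_le_one _)

lemma pp_two_lower (n : ℕ) : 1 / (400 * ((n : ℝ) + 1)) ≤ pp (n + n) (0 : V 2) := by
  set s := Nat.sqrt n + 1 with hs
  have hs1 : n < s ^ 2 := by rw [sq]; exact Nat.lt_succ_sqrt n
  have hs2 : s ^ 2 ≤ 4 * (n + 1) := by
    have h1 := Nat.sqrt_le n
    have h2 := Nat.sqrt_le_self n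
    rw [hs]; nlinarith
  have hs0 : 0 < s := by omega
  have h1 := rad_tail (d := 2) (by norm_num) (ρ := 2 * s) (by omega) n
  have h2 : 1 / 2 ≤ ∑ z ∈ box (0 : V 2) (2 * s), pp n z := by
    rw [sum_pp]
    have h3 : Ex n (fun l : List (St 2) => 1 - ind (2 * s ≤ rad (trace l))) ≤
        Ex n fun l => ind (endp l ∈ box (0 : V 2) (2 * s)) := by
      refine Ex_mono fun l _ => ?_
      rw [← ind_not]
      refine ind_mono fun h => ?_
      rw [mem_box, sub_zero]
      have := nn_le_rad (endp_mem_trace l)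
      omega
    rw [Ex_sub, Ex_const (by norm_num)] at h3
    have h4 : 15 * ((2 : ℕ) : ℝ) * (n : ℝ) ^ 3 / ((2 * s : ℕ) : ℝ) ^ 6 ≤ 1 / 2 := by
      rw [div_le_iff₀ (by positivity)]
      have h5 : (n : ℝ) ≤ (s : ℝ) ^ 2 := by exact_mod_cast hs1.le
      have h6 : (n : ℝ) ^ 3 ≤ ((s : ℝ) ^ 2) ^ 3 := pow_le_pow_left₀ (by positivity) h5 3
      push_cast
      have : (0 : ℝ) ≤ (s : ℝ) ^ 6 := by positivity
      nlinarith
    linarith
  have h3 := sq_sum_le_card_mul_sum_sq (s := box (0 : V 2) (2 * s)) (f := fun z => pp n z)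
  rw [card_box] at h3
  have h4 := pp_lower (d := 2) (by norm_num) n (box 0 (2 * s))
  have h5 : (((2 * (2 * s) + 1) ^ 2 : ℕ) : ℝ) ≤ 100 * (n + 1) := by
    have : (2 * (2 * s) + 1) ^ 2 ≤ 100 * (n + 1) := by nlinarith
    exact_mod_cast this
  have h6 : 0 ≤ ∑ z ∈ box (0 : V 2) (2 * s), pp n z ^ 2 := Finset.sum_nonneg fun _ _ => sq_nonneg _
  rw [div_le_iff₀ (by positivity)]
  nlinarith [pp_nonneg (n + n) (0 : V 2)]

lemma gg_two_unbounded (C : ℝ) : ∃ m, C ≤ gg m (0 : V 2) := by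
  have h := Real.tendsto_sum_range_one_div_nat_succ_atTop
  obtain ⟨m, hm⟩ := (h.eventually_ge_atTop (400 * C)).exists
  refine ⟨m + m, ?_⟩
  have h1 : ∑ i ∈ range m, pp (i + i) (0 : V 2) ≤ gg (m + m) (0 : V 2) := by
    unfold gg
    rw [← Finset.sum_image (s := range m) (g := fun i => i + i) (f := fun k => pp k (0 : V 2))
      (fun a _ b _ h => by simp only at h; omega)]
    refine Finset.sum_le_sum_of_subset_of_nonneg ?_ fun _ _ _ => pp_nonneg _ _
    intro k hk
    obtain ⟨i, hi, rfl⟩ := Finset.mem_image.1 hk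
    simp only [Finset.mem_range] at hi ⊢; omega
  have h2 : ∑ i ∈ range m, 1 / (400 * ((i : ℝ) + 1)) ≤ ∑ i ∈ range m, pp (i + i) (0 : V 2) :=
    Finset.sum_le_sum fun i _ => pp_two_lower i
  have h3 : ∑ i ∈ range m, 1 / (400 * ((i : ℝ) + 1)) =
      (∑ i ∈ range m, 1 / ((i : ℝ) + 1)) / 400 := by
    rw [Finset.sum_div]
    exact Finset.sum_congr rfl fun i _ => by field_simp
  linarith

/-- in the plane the expected range is `o(n)` -/
lemma tau_two (C : ℝ) (hC : 0 ≤ C) : ∃ n : ℕ, C * tau 2 n ≤ n := by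
  obtain ⟨m, hm⟩ := gg_two_unbounded (3 * C)
  refine ⟨m + 1, ?_⟩
  have h1 := tau_green (d := 2) (by norm_num) (m + 1)
  have h2 := hm.trans (gg_mono (Nat.le_succ m) _)
  have h3 := one_le_tau (d := 2) (by norm_num) (m + 1)
  have h4 : tau 2 (m + 1) * (3 * C) ≤ tau 2 (m + 1) * gg (m + 1) (0 : V 2) :=
    mul_le_mul_of_nonneg_left h2 (by linarith)
  push_cast at *
  have : (0 : ℝ) ≤ m := Nat.cast_nonneg m
  nlinarith

end Pool.Agent.H536Z
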