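import Pool.Agent.H536Z.ModelProd
import Pool.Agent.H536Z.Four

/-! The occupied set of the product description; coordinates in dimension three. -/

set_option autoImplicit false
set_option maxHeartbeats 400000

namespace Pool.Agent.H536Z

open MeasureTheory ProbabilityTheory Finset

variable {d : ℕ}

lemma pos_ofFn' {n j : ℕ} (f : ℕ → St d) (h : j ≤ n) :
    pos (List.ofFn fun k : Fin n => f k) j = ∑ k ∈ range j, vec (f k) := by
  rw [pos_ofFn, Finset.sum_filter, Fin.sum_univ_eq_sum_range (fun k => if k < j then vec (f k) else 0),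
    ← Finset.sum_filter]
  congr 1
  ext k; simp only [Finset.mem_filter, Finset.mem_range]; omega

lemma mem_occ_PW {X E : Type} (σ : E ≃ St d) (off : ℕ) (ι : X ≃ V d)
    (ω : (X → ℕ) × ((X × ℕ → ℕ) × (X × ℕ × ℕ → E))) (a : V d) :
    a ∈ occ (fun x => PW σ off ι x ω) Set.univ (fun _ => True) ↔
      ∃ y : X, ∃ i < ω.1 y, ∃ j, j + off ≤ ω.2.1 (y, i) ∧
        a = ι y + ∑ k ∈ range j, vec (σ (ω.2.2 (y, i, k))) := by
  simp only [occ, PW, Wm, Set.mem_ofPred_eq, Set.mem_iUnion, Set.mem_prod, Set.mem_singleton_iff,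
    Set.mem_univ, true_and]
  constructor
  · rintro ⟨x, A, ⟨i, hi, n, h1, rfl⟩, h2⟩
    obtain ⟨j, hj, h3⟩ := mem_trace.1 h2
    rw [List.length_ofFn] at hj
    rw [pos_ofFn' (fun k => σ (ω.2.2 (ι.symm x, i, k))) hj] at h3
    exact ⟨ι.symm x, i, hi, j, by omega, by rw [h3]; simp⟩
  · rintro ⟨y, i, hi, j, hj, rfl⟩
    refine ⟨ι y, _, ⟨i, by simpa using hi, ω.2.1 (y, i) - off, by simp; omega, rfl⟩, ?_⟩
    refine mem_trace.2 ⟨j, by rw [List.length_ofFn]; omega, ?_⟩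
    rw [pos_ofFn' (fun k => σ (ω.2.2 (ι.symm (ι y), i, k))) (by omega)]
    simp

def io3 : (ℤ × ℤ × ℤ) ≃+ V 3 where
  toFun p := ![p.1, p.2.1, p.2.2]
  invFun a := (a 0, a 1, a 2)
  left_inv _ := rfl
  right_inv a := by funext j; fin_cases j <;> rfl
  map_add' p q := by funext j; fin_cases j <;> rfl

def si3 : Fin 6 ≃ St 3 where
  toFun := ![(0, true), (0, false), (1, true), (1, false), (2, true), (2, false)]
  invFun e := ⟨2 * e.1 + if e.2 then 0 else 1, by have := e.1.2; split_ifs <;> omega⟩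
  left_inv := by decide
  right_inv := by decide

lemma vec_si3 (e : Fin 6) : vec (si3 e) =
    io3 ((![(1, 0, 0), (-1, 0, 0), (0, 1, 0), (0, -1, 0), (0, 0, 1), (0, 0, -1)] :
      Fin 6 → ℤ × ℤ × ℤ) e) := by
  revert e; decide

lemma perc_iff_path3 (ω : (ℤ × ℤ × ℤ → ℕ) × ((ℤ × ℤ × ℤ) × ℕ → ℕ) × ((ℤ × ℤ × ℤ) × ℕ × ℕ → Fin 6)) :
    ((∃ p : ℕ → ℤ × ℤ × ℤ, Function.Injective p ∧ ∀ n : ℕ,
        |(p (n + 1)).1 - (p n).1| + |(p (n + 1)).2.1 - (p n).2.1|
          + |(p (n + 1)).2.2 - (p n).2.2| = 1 ∧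
        ∃ x : ℤ × ℤ × ℤ, ∃ i : ℕ, i < ω.1 x ∧ ∃ j : ℕ, j < ω.2.1 (x, i) ∧
          p n = x + ∑ k ∈ Finset.range j,
            (![(1, 0, 0), (-1, 0, 0), (0, 1, 0), (0, -1, 0), (0, 0, 1), (0, 0, -1)] :
              Fin 6 → ℤ × ℤ × ℤ) (ω.2.2 (x, i, k))) →
      Perc sadj (occ (fun x => PW si3 1 io3.toEquiv x ω) Set.univ fun _ => True)) ∧
    (Perc nadj (occ (fun x => PW si3 1 io3.toEquiv x ω) Set.univ fun _ => True) →
      ∃ p : ℕ → ℤ × ℤ × ℤ, Function.Injective p ∧ ∀ n : ℕ,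
        |(p (n + 1)).1 - (p n).1| + |(p (n + 1)).2.1 - (p n).2.1|
          + |(p (n + 1)).2.2 - (p n).2.2| = 1 ∧
        ∃ x : ℤ × ℤ × ℤ, ∃ i : ℕ, i < ω.1 x ∧ ∃ j : ℕ, j < ω.2.1 (x, i) ∧
          p n = x + ∑ k ∈ Finset.range j,
            (![(1, 0, 0), (-1, 0, 0), (0, 1, 0), (0, -1, 0), (0, 0, 1), (0, 0, -1)] :
              Fin 6 → ℤ × ℤ × ℤ) (ω.2.2 (x, i, k))) := by
  constructor
  · rintro ⟨p, hp, h⟩
    refine perc_of_path (p := fun n => io3 (p n)) (io3.injective.comp hp) fun n => ⟨?_, ?_⟩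
    · refine sadj_symm _ _ (sadj_of_l1 ?_)
      rw [Fin.sum_univ_three]
      exact (h n).1
    · obtain ⟨x, i, hi, j, hj, h2⟩ := (h n).2
      refine (mem_occ_PW _ _ _ _ _).2 ⟨x, i, hi, j, hj, ?_⟩
      rw [h2, map_add, map_sum]
      simp only [vec_si3]
      rfl
  · intro h
    obtain ⟨p, hp, h⟩ := h.exists_path nadj_finite
    refine ⟨fun n => io3.symm (p n), io3.symm.injective.comp hp, fun n => ⟨?_, ?_⟩⟩
    · have := l1_of_nadj (nadj_symm _ _ (h n).1)
      rw [Fin.sum_univ_three] at this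
      exact this
    · obtain ⟨x, i, hi, j, hj, h2⟩ := (mem_occ_PW _ _ _ _ _).1 (h n).2
      refine ⟨x, i, hi, j, hj, ?_⟩
      rw [AddEquiv.symm_apply_eq, h2, map_add, map_sum]
      simp only [vec_si3]
      rfl

lemma pmf_model {X E : Type} [MeasurableSpace E] [DiscreteMeasurableSpace E] [Fintype E]
    [Nonempty E] (σ : E ≃ St d) (off : ℕ) (ι : X ≃ V d) (m : PMF ℕ) (μN : Measure ℕ)
    [IsProbabilityMeasure μN] {v : ℝ} (hv : 0 ≤ v)
    (hN : ∀ j, μN {j} = ENNReal.ofReal (Real.exp (-v) * v ^ j / j.factorial)) :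
    Model ((Measure.infinitePi fun _ : X => μN).prod
      ((Measure.infinitePi fun _ : X × ℕ => m.toMeasure).prod
        (Measure.infinitePi fun _ : X × ℕ × ℕ => (PMF.uniformOfFintype E).toMeasure)))
      (PW σ off ι) v fun n => (m (n + off)).toReal := by
  refine product_model σ off _ _ ι μN hv hN (fun e => ?_) (fun n => ENNReal.toReal_nonneg)
    fun n => ?_
  · rw [PMF.toMeasure_apply_singleton _ _ MeasurableSet.of_discrete, PMF.uniformOfFintype_apply,
      Fintype.card_congr σ]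
    have hd : 0 < d := by
      obtain ⟨e⟩ := ‹Nonempty E›
      exact (σ e).1.pos
    rw [one_div, ENNReal.ofReal_inv_of_pos (by positivity)]
    congr 1
    rw [show (2 * d : ℝ) = ((d * 2 : ℕ) : ℝ) by push_cast; ring, ENNReal.ofReal_natCast]
    simp
  · rw [PMF.toMeasure_apply_singleton _ _ MeasurableSet.of_discrete,
      ENNReal.ofReal_toReal (m.apply_ne_top _)]

lemma pmf_sum_le (m : PMF ℕ) (off M : ℕ) : ∑ n ∈ range M, (m (n + off)).toReal ≤ 1 := by
  rw [← ENNReal.toReal_sum fun n _ => m.apply_ne_top _]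
  refine ENNReal.toReal_le_of_le_ofReal zero_le_one ?_
  rw [ENNReal.ofReal_one, ← m.tsum_coe,
    ← Finset.sum_image (s := range M) (g := fun n => n + off) (f := fun n => m n)
      fun a _ b _ h => by simpa using h]
  exact ENNReal.sum_le_tsum _

end Pool.Agent.H536Z
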