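import Pool.Agent.H536Z.Geo

/-! An abstract multiscale criterion for the absence of percolation. -/

set_option autoImplicit false

namespace Pool.Agent.H536Z

open MeasureTheory ProbabilityTheory

variable {d : ℕ} {Ω : Type*}

def Rn {X : Type*} (r : X → X → Prop) : ℕ → X → X → Prop
  | 0, a, b => a = b
  | n + 1, a, b => ∃ c, Rn r n a c ∧ r c b

lemma reflTransGen_iff {X : Type*} (r : X → X → Prop) (a b : X) :
    Relation.ReflTransGen r a b ↔ ∃ n, Rn r n a b := by
  constructor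
  · intro h
    induction h with
    | refl => exact ⟨0, rfl⟩
    | tail _ h2 ih => obtain ⟨n, hn⟩ := ih; exact ⟨n + 1, _, hn, h2⟩
  · rintro ⟨n, hn⟩
    induction n generalizing b with
    | zero => cases hn; exact Relation.ReflTransGen.refl
    | succ n ih => obtain ⟨c, h1, h2⟩ := hn; exact (ih c h1).tail h2

lemma meas_Rn {X : Type*} [Countable X] {m : MeasurableSpace Ω} (r : Ω → X → X → Prop)
    (h : ∀ a b, MeasurableSet[m] {ω | r ω a b}) (n : ℕ) (a b : X) :
    MeasurableSet[m] {ω | Rn (r ω) n a b} := by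
  induction n generalizing b with
  | zero => exact MeasurableSet.const _
  | succ n ih =>
    have : {ω | Rn (r ω) (n + 1) a b} = ⋃ c, {ω | Rn (r ω) n a c} ∩ {ω | r ω c b} := by
      ext ω; simp [Rn]
    rw [this]
    exact MeasurableSet.iUnion fun c => (ih c).inter (h c b)

lemma meas_CR {X : Type*} [Countable X] {m : MeasurableSpace Ω} (adj : X → X → Prop)
    (S : Ω → Set X) (h : ∀ a, MeasurableSet[m] {ω | a ∈ S ω}) (a b : X) :
    MeasurableSet[m] {ω | CR adj (S ω) a b} := by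
  have : {ω | CR adj (S ω) a b} =
      ⋃ n, {ω | Rn (fun u w => u ∈ S ω ∧ w ∈ S ω ∧ adj u w) n a b} := by
    ext ω; simp [CR, reflTransGen_iff]
  rw [this]
  refine MeasurableSet.iUnion fun n => meas_Rn _ (fun u w => ?_) n a b
  exact (h u).inter ((h w).inter (MeasurableSet.const _))

lemma meas_Perc {X : Type*} [Countable X] {m : MeasurableSpace Ω} (adj : X → X → Prop)
    (S : Ω → Set X) (h : ∀ a, MeasurableSet[m] {ω | a ∈ S ω}) :
    MeasurableSet[m] {ω | Perc adj (S ω)} := by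
  classical
  have : {ω | Perc adj (S ω)} =
      ⋃ a, ⋂ F : Finset X, ⋃ b, ⋃ (_ : b ∉ F), {ω | CR adj (S ω) a b} := by
    ext ω
    simp only [Perc, Set.mem_ofPred_eq, Set.mem_iUnion, Set.mem_iInter, exists_prop]
    refine exists_congr fun a => ⟨fun hi F => ?_, fun hi hf => ?_⟩
    · obtain ⟨b, hb, hb'⟩ := hi.exists_notMem_finite F.finite_toSet
      exact ⟨b, hb', hb⟩
    · obtain ⟨b, hb, hb'⟩ := hi hf.toFinset
      exact hb (hf.mem_toFinset.2 hb')
  rw [this]
  exact MeasurableSet.iUnion fun a => MeasurableSet.iInter fun F => MeasurableSet.iUnion fun b =>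
    MeasurableSet.iUnion fun _ => meas_CR adj S h a b

lemma meas_Cross {m : MeasurableSpace Ω} (S : Ω → Set (V d))
    (h : ∀ a, MeasurableSet[m] {ω | a ∈ S ω}) (z : V d) (r : ℕ) :
    MeasurableSet[m] {ω | Cross (S ω) z r} := by
  have : {ω | Cross (S ω) z r} = ⋃ a, ⋃ b, ⋃ (_ : nn (a - z) ≤ r), ⋃ (_ : 2 * r ≤ nn (b - z)),
      {ω | CR sadj (S ω) a b} := by
    ext ω; simp only [Cross, Set.mem_ofPred_eq, Set.mem_iUnion, exists_prop]
  rw [this]
  exact MeasurableSet.iUnion fun a => MeasurableSet.iUnion fun b => MeasurableSet.iUnion fun _ =>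
    MeasurableSet.iUnion fun _ => meas_CR sadj S h a b

/-- the sigma-algebra of the sets placed at sites of `D` -/
@[instance_reducible] def G (W : V d → Ω → Finset (V d) → Prop) (D : Set (V d)) : MeasurableSpace Ω :=
  MeasurableSpace.generateFrom {s | ∃ x ∈ D, ∃ A, s = {ω | W x ω A}}

lemma G_basic (W : V d → Ω → Finset (V d) → Prop) {D : Set (V d)} {x : V d} (hx : x ∈ D)
    (A : Finset (V d)) : MeasurableSet[G W D] {ω | W x ω A} :=
  MeasurableSpace.measurableSet_generateFrom ⟨x, hx, A, rfl⟩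

lemma G_mono (W : V d → Ω → Finset (V d) → Prop) {D D' : Set (V d)} (h : D ⊆ D') :
    G W D ≤ G W D' :=
  MeasurableSpace.generateFrom_mono fun _ ⟨x, hx, A, hs⟩ => ⟨x, h hx, A, hs⟩

lemma G_le (W : V d → Ω → Finset (V d) → Prop) {D : Set (V d)} {m : MeasurableSpace Ω}
    (h : ∀ x ∈ D, ∀ A, MeasurableSet[m] {ω | W x ω A}) : G W D ≤ m :=
  MeasurableSpace.generateFrom_le fun _ ⟨x, hx, A, hs⟩ => hs ▸ h x hx A

lemma meas_occ' (W : V d → Ω → Finset (V d) → Prop) (D : Set (V d)) (p : Finset (V d) → Prop)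
    {m : MeasurableSpace Ω} (h : ∀ x ∈ D, ∀ A, MeasurableSet[m] {ω | W x ω A}) (a : V d) :
    MeasurableSet[m] {ω | a ∈ occ (fun x => W x ω) D p} := by
  have : {ω | a ∈ occ (fun x => W x ω) D p} =
      ⋃ x, ⋃ (_ : x ∈ D), ⋃ A, ⋃ (_ : p A ∧ a - x ∈ A), {ω | W x ω A} := by
    ext ω; simp only [occ, Set.mem_ofPred_eq, Set.mem_iUnion, exists_prop]
    refine exists_congr fun x => and_congr_right fun _ => exists_congr fun A => ?_
    tauto
  rw [this]
  exact MeasurableSet.iUnion fun x => MeasurableSet.iUnion fun hx => MeasurableSet.iUnion fun A =>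
    MeasurableSet.iUnion fun _ => h x hx A

lemma meas_occ (W : V d → Ω → Finset (V d) → Prop) (D : Set (V d)) (p : Finset (V d) → Prop)
    (a : V d) : MeasurableSet[G W D] {ω | a ∈ occ (fun x => W x ω) D p} :=
  meas_occ' W D p (fun _ hx A => G_basic W hx A) a

lemma indep_real {m1 m2 : MeasurableSpace Ω} [mΩ : MeasurableSpace Ω] {P : Measure Ω}
    (h : Indep m1 m2 P) {s t : Set Ω} (hs : MeasurableSet[m1] s) (ht : MeasurableSet[m2] t) :
    P.real (s ∩ t) = P.real s * P.real t := by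
  have := (Indep_iff m1 m2 P).1 h s t hs ht
  simp only [Measure.real, this, ENNReal.toReal_mul]

section
variable [mΩ : MeasurableSpace Ω] (P : Measure Ω) [IsProbabilityMeasure P]
  (W : V d → Ω → Finset (V d) → Prop)

/-- local crossing events -/
def Cev (z : V d) (r : ℕ) : Set Ω :=
  {ω | Cross (occ (fun x => W x ω) (box z (3 * r)) fun A => rad A ≤ r) z r}

omit mΩ in
lemma Cev_meas (z : V d) (r : ℕ) : MeasurableSet[G W (box z (3 * r))] (Cev W z r) :=
  meas_Cross _ (meas_occ W _ _) z r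

lemma Cev_step (hind : ∀ D D', Disjoint D D' → Indep (G W D) (G W D') P) {r : ℕ} (hr : 0 < r)
    {δ η : ℝ} (hδ0 : 0 ≤ δ) (hδ : ∀ g, P.real (Cev W g r) ≤ δ)
    (hη : ∀ x, P.real {ω | ∃ A, W x ω A ∧ r < rad A} ≤ η) (z : V d) :
    P.real (Cev W z (10 * r)) ≤ (60 * r + 1) ^ d * η + (41 ^ d) ^ 2 * δ ^ 2 := by
  classical
  let Q : Finset (V d × V d) := ((grid z r 20) ×ˢ (grid z r 20)).filter
    fun q => nn (q.1 - z) ≤ 11 * r ∧ 19 * r ≤ nn (q.2 - z)
  have hsub : Cev W z (10 * r) ⊆ (⋃ x ∈ box z (30 * r), {ω | ∃ A, W x ω A ∧ r < rad A}) ∪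
      ⋃ q ∈ Q, (Cev W q.1 r ∩ Cev W q.2 r) := by
    intro ω hω
    by_cases hb : ω ∈ ⋃ x ∈ box z (30 * r), {ω | ∃ A, W x ω A ∧ r < rad A}
    · exact Or.inl hb
    right
    simp only [Set.mem_iUnion, Set.mem_ofPred_eq, exists_prop, not_exists, not_and, not_lt] at hb
    have h1 : Cross (occ (fun x => W x ω) Set.univ fun A => rad A ≤ r) z (10 * r) := by
      refine Cross.mono ?_ hω
      rintro a ⟨x, hx, A, h1, _, h3⟩
      refine ⟨x, trivial, A, h1, hb x ?_ A h1, h3⟩
      have : 3 * (10 * r) = 30 * r := by ring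
      rw [this] at hx; exact hx
    obtain ⟨g, hg, g', hg', h2, h3, h4, h5⟩ := h1.split hr
    simp only [Set.mem_iUnion, exists_prop]
    exact ⟨(g, g'), Finset.mem_filter.2 ⟨Finset.mem_product.2 ⟨hg, hg'⟩, h2, h3⟩,
      h4.occ_local, h5.occ_local⟩
  have hη0 : 0 ≤ η := le_trans measureReal_nonneg (hη z)
  refine (measureReal_mono hsub (measure_ne_top _ _)).trans ((measureReal_union_le _ _).trans (add_le_add ?_ ?_))
  · refine (measureReal_biUnion_finset_le _ _).trans ?_
    refine (Finset.sum_le_card_nsmul _ _ η fun x _ => hη x).trans ?_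
    rw [card_box, nsmul_eq_mul]
    push_cast
    have : (2 * (30 * (r : ℝ)) + 1) = 60 * r + 1 := by ring
    rw [this]
  · refine (measureReal_biUnion_finset_le _ _).trans ?_
    have hq : ∀ q ∈ Q, P.real (Cev W q.1 r ∩ Cev W q.2 r) ≤ δ ^ 2 := by
      intro q hq
      obtain ⟨_, h2, h3⟩ := Finset.mem_filter.1 hq
      have hd : Disjoint (box q.1 (3 * r) : Set (V d)) (box q.2 (3 * r)) := by
        rw [Set.disjoint_left]
        intro x hx hx'
        simp only [Finset.mem_coe, mem_box] at hx hx'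
        have t1 := nn_tri q.2 x z
        have t2 := nn_tri x q.1 z
        have t3 := nn_sub_comm q.2 x
        omega
      rw [indep_real (hind _ _ hd) (Cev_meas W _ _) (Cev_meas W _ _), sq]
      exact mul_le_mul (hδ _) (hδ _) measureReal_nonneg hδ0
    refine (Finset.sum_le_card_nsmul _ _ _ hq).trans ?_
    rw [nsmul_eq_mul]
    refine mul_le_mul_of_nonneg_right ?_ (sq_nonneg _)
    have h1 : Q.card ≤ (41 ^ d) ^ 2 := by
      refine (Finset.card_filter_le _ _).trans ?_
      rw [Finset.card_product, sq]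
      exact Nat.mul_le_mul (card_grid z r 20) (card_grid z r 20)
    exact_mod_cast h1

lemma Cev_bound (hind : ∀ D D', Disjoint D D' → Indep (G W D) (G W D') P) {ε : ℝ}
    (hε0 : 0 ≤ ε) (hε : 4 * (41 ^ d) ^ 2 * ε ≤ 1)
    (h0 : ∀ x, 7 ^ d * P.real {ω | ∃ A, W x ω A} ≤ ε)
    (ha : ∀ (k : ℕ) x,
      (60 * 10 ^ k + 1) ^ d * P.real {ω | ∃ A, W x ω A ∧ 10 ^ k < rad A} ≤ ε)
    (k : ℕ) (z : V d) : P.real (Cev W z (10 ^ k)) ≤ 2 * ε := by
  induction k generalizing z with
  | zero =>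
    have hsub : Cev W z (10 ^ 0) ⊆ ⋃ x ∈ box z 3, {ω | ∃ A, W x ω A} := by
      rintro ω ⟨a, b, h1, h2, h3⟩
      have hab : a ≠ b := by rintro rfl; simp at h1 h2; omega
      obtain ⟨x, hx, A, h4, _⟩ := h3.mem_of_ne hab
      simp only [Set.mem_iUnion, exists_prop]
      exact ⟨x, hx, A, h4⟩
    refine (measureReal_mono hsub (measure_ne_top _ _)).trans ((measureReal_biUnion_finset_le _ _).trans ?_)
    have h7 : (0 : ℝ) < 7 ^ d := by positivity
    refine (Finset.sum_le_card_nsmul _ _ (ε / 7 ^ d) fun x _ => ?_).trans ?_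
    · rw [le_div_iff₀ h7, mul_comm]; exact h0 x
    · rw [card_box, nsmul_eq_mul]
      push_cast
      rw [mul_div_cancel₀ _ h7.ne']; linarith
  | succ k ih =>
    have hp : (0 : ℝ) < (60 * 10 ^ k + 1) ^ d := by positivity
    have := Cev_step P W hind (r := 10 ^ k) (by positivity) (by positivity) ih
      (η := ε / (60 * 10 ^ k + 1) ^ d) (fun x => by
        rw [le_div_iff₀ hp, mul_comm]; exact ha k x) z
    rw [pow_succ, mul_comm (10 ^ k) 10]
    refine this.trans ?_
    push_cast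
    rw [mul_div_cancel₀ _ hp.ne']
    nlinarith

theorem upper (hmeas : ∀ x A, MeasurableSet {ω | W x ω A})
    (hind : ∀ D D', Disjoint D D' → Indep (G W D) (G W D') P) {ε : ℝ}
    (hε0 : 0 ≤ ε) (hε : 4 * (41 ^ d) ^ 2 * ε ≤ 1)
    (h0 : ∀ x, 7 ^ d * P.real {ω | ∃ A, W x ω A} ≤ ε)
    (ha : ∀ (k : ℕ) x,
      (60 * 10 ^ k + 1) ^ d * P.real {ω | ∃ A, W x ω A ∧ 10 ^ k < rad A} ≤ ε)
    (hb : ∀ k0 : ℕ, ∃ k ≥ k0, P.real {ω | ∃ x A, W x ω A ∧ 10 ^ k < rad A ∧
      ∃ a ∈ A, nn (x + a) ≤ 2 * 10 ^ k} ≤ 1 / 4)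
    (hfin : ∀ x, ∀ᵐ ω ∂P, {A | W x ω A}.Finite) :
    P {ω | Perc sadj (occ (fun x => W x ω) Set.univ fun _ => True)} = 0 := by
  classical
  have hε2 : 2 * ε ≤ 1 / 2 := by
    have : (1 : ℝ) ≤ (41 ^ d) ^ 2 := one_le_pow₀ (one_le_pow₀ (by norm_num))
    nlinarith
  -- the percolation event has probability at most 3/4
  let T : Set Ω := {ω | Perc sadj (occ (fun x => W x ω) Set.univ fun _ => True)}
  let C : ℕ → Set Ω := fun k => {ω | Cross (occ (fun x => W x ω) Set.univ fun _ => True) 0 (10 ^ k)}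
  have hC : ∀ k0 : ℕ, ∃ k ≥ k0, P.real (C k) ≤ 3 / 4 := by
    intro k0
    obtain ⟨k, hk, hk'⟩ := hb k0
    refine ⟨k, hk, ?_⟩
    have hsub : C k ⊆ Cev W 0 (10 ^ k) ∪ {ω | ∃ x A, W x ω A ∧ 10 ^ k < rad A ∧
        ∃ a ∈ A, nn (x + a) ≤ 2 * 10 ^ k} := by
      intro ω hω
      by_cases hb : ∃ x A, W x ω A ∧ 10 ^ k < rad A ∧ ∃ a ∈ A, nn (x + a) ≤ 2 * 10 ^ k
      · exact Or.inr hb
      left
      push Not at hb
      refine Cross.occ_local (Cross.mono ?_ (Cross.local hω))
      rintro a ⟨⟨x, _, A, h1, _, h3⟩, h4⟩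
      refine ⟨x, trivial, A, h1, ?_, h3⟩
      by_contra hlt
      have := hb x A h1 (not_le.1 hlt) _ h3
      simp only [Set.mem_ofPred_eq, sub_zero] at h4
      rw [add_sub_cancel] at this
      omega
    have := Cev_bound P W hind hε0 hε h0 ha k 0
    refine (measureReal_mono hsub (measure_ne_top _ _)).trans ((measureReal_union_le _ _).trans ?_)
    linarith
  have hT : P T ≤ ENNReal.ofReal (3 / 4) := by
    have hsub : T ⊆ ⋃ k0 : ℕ, ⋂ k ≥ k0, C k := by
      intro ω hω
      obtain ⟨r0, hr0⟩ := Perc.cross hω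
      simp only [Set.mem_iUnion, Set.mem_iInter]
      refine ⟨r0, fun k hk => hr0 _ ?_⟩
      exact le_trans hk (Nat.lt_pow_self (by norm_num)).le
    refine (measure_mono hsub).trans ?_
    rw [Monotone.measure_iUnion]
    · refine iSup_le fun k0 => ?_
      obtain ⟨k, hk, hk'⟩ := hC k0
      refine (measure_mono (Set.biInter_subset_of_mem (t := C) hk)).trans ?_
      rw [← ENNReal.ofReal_toReal (measure_ne_top P (C k))]
      exact ENNReal.ofReal_le_ofReal hk'
    · intro k1 k2 h12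
      exact Set.biInter_subset_biInter_left fun k hk => le_trans h12 hk
  -- the tail event
  let Tn : ℕ → Set Ω := fun n =>
    {ω | Perc sadj (occ (fun x => W x ω) (box (0 : V d) n : Set (V d))ᶜ fun _ => True)}
  let T' : Set Ω := ⋂ n, Tn n
  have hocc : ∀ ω (D D' : Set (V d)), D ⊆ D' → occ (fun x => W x ω) D (fun _ => True) ⊆
      occ (fun x => W x ω) D' fun _ => True := by
    rintro ω D D' h a ⟨x, hx, h'⟩; exact ⟨x, h hx, h'⟩
  have hbox : ∀ m n : ℕ, m ≤ n → (box (0 : V d) m : Set (V d)) ⊆ box (0 : V d) n := by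
    intro m n h x hx
    simp only [Finset.mem_coe, mem_box] at hx ⊢; omega
  have hT'T : T' ⊆ T := by
    intro ω hω
    exact Perc.mono (hocc ω _ _ (Set.subset_univ _)) (fun _ _ h => h) (Set.mem_iInter.1 hω 0)
  have hTn : ∀ n, MeasurableSet[G W (box (0 : V d) n : Set (V d))ᶜ] T' := by
    intro n
    have : T' = ⋂ m, Tn (n + m) := by
      ext ω
      simp only [T', Set.mem_iInter]
      refine ⟨fun h m => h _, fun h m => ?_⟩
      exact Perc.mono (hocc ω _ _ (Set.compl_subset_compl.2 (hbox _ _ (by omega))))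
        (fun _ _ h => h) (h m)
    rw [this]
    refine MeasurableSet.iInter fun m => ?_
    refine G_mono W (Set.compl_subset_compl.2 (hbox n (n + m) (by omega))) _ ?_
    exact meas_Perc sadj _ (meas_occ W _ _)
  let m1 : MeasurableSpace Ω := MeasurableSpace.generateFrom {T'}
  have hGle : ∀ D, G W D ≤ mΩ := fun D => G_le W fun x _ A => hmeas x A
  have hi : ∀ n : ℕ, Indep (G W (box (0 : V d) n : Set (V d))) m1 P := by
    intro n
    refine indep_of_indep_of_le_right (hind _ _ disjoint_compl_right) ?_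
    exact MeasurableSpace.generateFrom_le fun s hs => by rw [hs]; exact hTn n
  have hm1 : m1 ≤ mΩ := MeasurableSpace.generateFrom_le fun s hs => by
    rw [hs]; exact hGle _ _ (hTn 0)
  have hi' := indep_iSup_of_monotone hi (fun n => hGle _) hm1
    (fun m n h => G_mono W (hbox m n h))
  have hT'1 : MeasurableSet[⨆ n : ℕ, G W (box (0 : V d) n : Set (V d))] T' := by
    refine G_le W (fun x _ A => ?_) _ (hTn 0)
    refine le_iSup (fun n : ℕ => G W (box (0 : V d) n : Set (V d))) (nn (x - 0)) _ ?_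
    exact G_basic W (by simp only [Finset.mem_coe, mem_box]; exact le_rfl) A
  have hself := (Indep_iff _ _ P).1 hi' T' T' hT'1
    (MeasurableSpace.measurableSet_generateFrom rfl)
  rw [Set.inter_self] at hself
  have hT'0 : P T' = 0 := by
    by_contra hne
    have h1 : P T' = 1 := by
      have := (ENNReal.mul_right_inj hne (measure_ne_top P T')).1
        (by rw [mul_one]; exact hself : P T' * 1 = P T' * P T')
      exact this.symm
    have h2 := (measure_mono hT'T).trans hT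
    rw [h1] at h2
    have h3 : ENNReal.ofReal (3 / 4) < 1 := by
      rw [ENNReal.ofReal_lt_one]; norm_num
    exact absurd h2 (not_le.2 h3)
  have hae : ∀ᵐ ω ∂P, ∀ x, {A | W x ω A}.Finite := ae_all_iff.2 hfin
  refine le_antisymm (le_trans (measure_mono_ae ?_) hT'0.le) bot_le
  filter_upwards [hae] with ω hω hperc
  refine Set.mem_iInter.2 fun n => ?_
  have hF : (⋃ x ∈ (box (0 : V d) n : Set (V d)), ⋃ A ∈ {A | W x ω A},
      ((A.image fun a => x + a : Finset (V d)) : Set (V d))).Finite :=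
    (box (0 : V d) n).finite_toSet.biUnion fun x _ => (hω x).biUnion fun A _ =>
      Finset.finite_toSet _
  refine (Perc.remove_finite sadj_finite hperc hF).mono ?_ fun _ _ h => h
  rintro a ⟨⟨x, _, A, h1, _, h3⟩, h4⟩
  refine ⟨x, fun hx => h4 ?_, A, h1, trivial, h3⟩
  simp only [Set.mem_iUnion, exists_prop]
  exact ⟨x, hx, A, h1, Finset.mem_coe.2 (Finset.mem_image.2 ⟨_, h3, by simp⟩)⟩

end

end Pool.Agent.H536Z
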