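import Pool.Agent.H536Z.Geo

/-! Simple random walk as an average over lists of steps. -/

set_option autoImplicit false

namespace Pool.Agent.H536Z

open Finset

abbrev St (d : ℕ) := Fin d × Bool

variable {d : ℕ}

def vec (e : St d) : V d := Pi.single e.1 (if e.2 then 1 else -1)

def flip (e : St d) : St d := (e.1, !e.2)

lemma vec_flip (e : St d) : vec (flip e) = -vec e := by
  obtain ⟨i, b⟩ := e
  cases b <;> simp [vec, flip, Pi.single_neg]

lemma nn_vec (e : St d) : nn (vec e) ≤ 1 := by
  rw [nn_le]; intro j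
  obtain ⟨i, b⟩ := e
  by_cases h : j = i
  · subst h; cases b <;> simp [vec]
  · simp [vec, Pi.single_eq_of_ne h]

noncomputable def av (f : St d → ℝ) : ℝ := (∑ e, f e) / (2 * d)

noncomputable def Ex : ℕ → (List (St d) → ℝ) → ℝ
  | 0, F => F []
  | n + 1, F => av fun e => Ex n fun l => F (e :: l)

open Classical in
noncomputable def ind (p : Prop) : ℝ := if p then 1 else 0

lemma ind_pos {p : Prop} (h : p) : ind p = 1 := by simp [ind, h]
lemma ind_neg {p : Prop} (h : ¬ p) : ind p = 0 := by simp [ind, h]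
lemma ind_nonneg (p : Prop) : 0 ≤ ind p := by unfold ind; split_ifs <;> norm_num
lemma ind_le_one (p : Prop) : ind p ≤ 1 := by unfold ind; split_ifs <;> norm_num
lemma ind_mono {p q : Prop} (h : p → q) : ind p ≤ ind q := by
  by_cases hp : p
  · rw [ind_pos hp, ind_pos (h hp)]
  · rw [ind_neg hp]; exact ind_nonneg _
lemma ind_congr {p q : Prop} (h : p ↔ q) : ind p = ind q := by rw [propext h]
lemma ind_and (p q : Prop) : ind (p ∧ q) = ind p * ind q := by
  by_cases hp : p <;> by_cases hq : q <;> simp [ind, hp, hq]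
lemma ind_not (p : Prop) : ind (¬ p) = 1 - ind p := by
  by_cases hp : p <;> simp [ind, hp]

lemma sum_ind_eq {X : Type*} (s : Finset X) (a : X) : ∑ x ∈ s, ind (x = a) = ind (a ∈ s) := by
  classical
  by_cases h : a ∈ s
  · rw [ind_pos h, Finset.sum_eq_single a (fun b _ hb => ind_neg hb) (fun h' => absurd h h'),
      ind_pos rfl]
  · rw [ind_neg h]
    exact Finset.sum_eq_zero fun x hx => ind_neg (by rintro rfl; exact h hx)

lemma sum_ind_mem {X : Type*} (s t : Finset X) : ∑ x ∈ s, ind (x ∈ t) ≤ t.card := by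
  classical
  have : ∑ x ∈ s, ind (x ∈ t) = ((s.filter (· ∈ t)).card : ℝ) := by
    rw [Finset.card_filter]; push_cast
    exact Finset.sum_congr rfl fun x _ => by simp [ind]
  rw [this]
  exact_mod_cast Finset.card_le_card fun x hx => (Finset.mem_filter.1 hx).2

lemma av_mono {f g : St d → ℝ} (h : ∀ e, f e ≤ g e) : av f ≤ av g :=
  div_le_div_of_nonneg_right (Finset.sum_le_sum fun e _ => h e) (by positivity)

lemma av_add (f g : St d → ℝ) : av (fun e => f e + g e) = av f + av g := by
  simp [av, Finset.sum_add_distrib, add_div]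

lemma av_mul (c : ℝ) (f : St d → ℝ) : av (fun e => c * f e) = c * av f := by
  simp [av, ← Finset.mul_sum, mul_div_assoc]

lemma av_const (hd : 0 < d) (c : ℝ) : av (fun _ : St d => c) = c := by
  have : (d : ℝ) ≠ 0 := by positivity
  simp [av]; field_simp

lemma av_eq (f : St d → ℝ) : av f = (∑ i, (f (i, true) + f (i, false)) / 2) / d := by
  rw [av, Fintype.sum_prod_type, ← Finset.sum_div, div_div]
  simp

lemma av_flip (f : St d → ℝ) : av (fun e => f (flip e)) = av f := by
  rw [av_eq, av_eq]; simp [flip, add_comm]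

lemma av_le_of_pairs (hd : 0 < d) {f : St d → ℝ} {c : ℝ}
    (h : ∀ i, f (i, true) + f (i, false) ≤ 2 * c) : av f ≤ c := by
  have hd' : (0 : ℝ) < d := by positivity
  rw [av_eq, div_le_iff₀ hd']
  refine (Finset.sum_le_card_nsmul _ _ c fun i _ => by linarith [h i]).trans ?_
  simp [mul_comm]

lemma Ex_succ (n : ℕ) (F : List (St d) → ℝ) :
    Ex (n + 1) F = av fun e => Ex n fun l => F (e :: l) := rfl

lemma Ex_mono {n : ℕ} {F G : List (St d) → ℝ} (h : ∀ l, l.length = n → F l ≤ G l) :
    Ex n F ≤ Ex n G := by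
  induction n generalizing F G with
  | zero => exact h [] rfl
  | succ n ih => exact av_mono fun e => ih fun l hl => h _ (by simp [hl])

lemma Ex_congr {n : ℕ} {F G : List (St d) → ℝ} (h : ∀ l, l.length = n → F l = G l) :
    Ex n F = Ex n G :=
  le_antisymm (Ex_mono fun l hl => (h l hl).le) (Ex_mono fun l hl => (h l hl).ge)

lemma Ex_add (n : ℕ) (F G : List (St d) → ℝ) :
    Ex n (fun l => F l + G l) = Ex n F + Ex n G := by
  induction n generalizing F G with
  | zero => rfl
  | succ n ih => simp only [Ex_succ, ih, av_add]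

lemma Ex_mul (n : ℕ) (c : ℝ) (F : List (St d) → ℝ) : Ex n (fun l => c * F l) = c * Ex n F := by
  induction n generalizing F with
  | zero => rfl
  | succ n ih => simp only [Ex_succ, ih, av_mul]

lemma Ex_mul' (n : ℕ) (c : ℝ) (F : List (St d) → ℝ) : Ex n (fun l => F l * c) = Ex n F * c := by
  simp only [mul_comm _ c, Ex_mul]

lemma Ex_sub (n : ℕ) (F G : List (St d) → ℝ) :
    Ex n (fun l => F l - G l) = Ex n F - Ex n G := by
  have := Ex_add n F (fun l => (-1) * G l)
  rw [Ex_mul] at this
  simp only [sub_eq_add_neg]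
  simpa using this

lemma Ex_const (hd : 0 < d) (n : ℕ) (c : ℝ) : Ex n (fun _ : List (St d) => c) = c := by
  induction n with
  | zero => rfl
  | succ n ih => simp only [Ex_succ, ih, av_const hd]

lemma Ex_zero (n : ℕ) : Ex n (fun _ : List (St d) => 0) = 0 := by
  have := Ex_mul n 0 (fun _ : List (St d) => 0)
  simpa using this

lemma Ex_nonneg {n : ℕ} {F : List (St d) → ℝ} (h : ∀ l, 0 ≤ F l) : 0 ≤ Ex n F := by
  rw [← Ex_zero (d := d) n]; exact Ex_mono fun l _ => h l

lemma Ex_sum {ι : Type*} (n : ℕ) (s : Finset ι) (F : ι → List (St d) → ℝ) :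
    Ex n (fun l => ∑ i ∈ s, F i l) = ∑ i ∈ s, Ex n (F i) := by
  classical
  induction s using Finset.induction_on with
  | empty => simp [Ex_zero]
  | insert a s ha ih => simp only [Finset.sum_insert ha, Ex_add, ih]

lemma Ex_le_const (hd : 0 < d) {n : ℕ} {F : List (St d) → ℝ} {c : ℝ}
    (h : ∀ l, l.length = n → F l ≤ c) : Ex n F ≤ c := by
  rw [← Ex_const hd n c]; exact Ex_mono h

lemma Ex_ind_le_one (hd : 0 < d) (n : ℕ) (φ : List (St d) → Prop) :
    Ex n (fun l => ind (φ l)) ≤ 1 := Ex_le_const hd fun _ _ => ind_le_one _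

lemma Ex_ind_nonneg (n : ℕ) (φ : List (St d) → Prop) : 0 ≤ Ex n (fun l => ind (φ l)) :=
  Ex_nonneg fun _ => ind_nonneg _

lemma Ex_append (a b : ℕ) (F : List (St d) → ℝ) :
    Ex (a + b) F = Ex a fun l => Ex b fun l' => F (l ++ l') := by
  induction a generalizing F with
  | zero => simp [Ex]
  | succ a ih => rw [Nat.succ_add]; simp only [Ex_succ, ih, List.cons_append]

lemma Ex_flip (n : ℕ) (F : List (St d) → ℝ) : Ex n (fun l => F (l.map flip)) = Ex n F := by
  induction n generalizing F with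
  | zero => rfl
  | succ n ih =>
    simp only [Ex_succ, List.map_cons]
    rw [← av_flip fun e => Ex n fun l => F (e :: l)]
    congr 1; funext e
    exact ih fun l => F (flip e :: l)

lemma Ex_eq_sum (n : ℕ) (F : List (St d) → ℝ) :
    Ex n F = (∑ s : Fin n → St d, F (List.ofFn s)) / (2 * d) ^ n := by
  induction n generalizing F with
  | zero => simp [Ex]
  | succ n ih =>
    simp only [Ex_succ, ih, av]
    rw [← Finset.sum_div, div_div, ← pow_succ, ← (Fin.consEquiv fun _ => St d).sum_comp,
      Fintype.sum_prod_type (α₂ := Fin n → St d)]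
    simp only [Fin.consEquiv, Equiv.coe_fn_mk, List.ofFn_succ, Fin.cons_zero, Fin.cons_succ]

lemma exists_of_Ex_pos {n : ℕ} {φ : List (St d) → Prop} (h : 0 < Ex n fun l => ind (φ l)) :
    ∃ l, l.length = n ∧ φ l := by
  by_contra hc
  push Not at hc
  have : Ex n (fun l => ind (φ l)) = Ex n (fun _ : List (St d) => 0) :=
    Ex_congr fun l hl => ind_neg (hc l hl)
  rw [this, Ex_zero] at h
  exact lt_irrefl _ h

def endp (l : List (St d)) : V d := (l.map vec).sum

def pos (l : List (St d)) (t : ℕ) : V d := endp (l.take t)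

def trace (l : List (St d)) : Finset (V d) := (Finset.range (l.length + 1)).image (pos l)

@[simp] lemma endp_nil : endp ([] : List (St d)) = 0 := rfl
@[simp] lemma endp_cons (e : St d) (l : List (St d)) : endp (e :: l) = vec e + endp l := by
  simp [endp]
lemma endp_append (l l' : List (St d)) : endp (l ++ l') = endp l + endp l' := by simp [endp]
lemma endp_flip (l : List (St d)) : endp (l.map flip) = -endp l := by
  induction l with
  | nil => simp
  | cons e l ih => simp [ih, vec_flip, add_comm]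

@[simp] lemma pos_zero (l : List (St d)) : pos l 0 = 0 := by simp [pos]
lemma pos_cons (e : St d) (l : List (St d)) (t : ℕ) : pos (e :: l) (t + 1) = vec e + pos l t := by
  simp [pos]
lemma pos_length (l : List (St d)) : pos l l.length = endp l := by simp [pos]
lemma pos_append_left (l l' : List (St d)) {t : ℕ} (h : t ≤ l.length) :
    pos (l ++ l') t = pos l t := by
  simp [pos, List.take_append_of_le_length h]
lemma pos_append_right (l l' : List (St d)) (t : ℕ) :
    pos (l ++ l') (l.length + t) = endp l + pos l' t := by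
  simp [pos, List.take_append, endp_append, List.take_of_length_le]

lemma mem_trace {l : List (St d)} {a : V d} : a ∈ trace l ↔ ∃ t ≤ l.length, pos l t = a := by
  simp [trace]

lemma pos_mem_trace (l : List (St d)) {t : ℕ} (h : t ≤ l.length) : pos l t ∈ trace l :=
  mem_trace.2 ⟨t, h, rfl⟩

lemma zero_mem_trace (l : List (St d)) : 0 ∈ trace l := mem_trace.2 ⟨0, Nat.zero_le _, by simp⟩

lemma endp_mem_trace (l : List (St d)) : endp l ∈ trace l := mem_trace.2 ⟨_, le_rfl, pos_length l⟩

lemma mem_trace_nil {a : V d} : a ∈ trace ([] : List (St d)) ↔ a = 0 := by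
  simp [mem_trace, eq_comm]

lemma mem_trace_cons {e : St d} {l : List (St d)} {a : V d} :
    a ∈ trace (e :: l) ↔ a = 0 ∨ a - vec e ∈ trace l := by
  simp only [mem_trace, List.length_cons]
  constructor
  · rintro ⟨t, ht, rfl⟩
    cases t with
    | zero => simp
    | succ t => exact Or.inr ⟨t, by omega, by simp [pos_cons]⟩
  · rintro (rfl | ⟨t, ht, h⟩)
    · exact ⟨0, Nat.zero_le _, by simp⟩
    · exact ⟨t + 1, by omega, by rw [pos_cons, h]; simp⟩

lemma mem_trace_append {l l' : List (St d)} {a : V d} :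
    a ∈ trace (l ++ l') ↔ a ∈ trace l ∨ a - endp l ∈ trace l' := by
  simp only [mem_trace, List.length_append]
  constructor
  · rintro ⟨t, ht, rfl⟩
    by_cases h : t ≤ l.length
    · exact Or.inl ⟨t, h, (pos_append_left l l' h).symm⟩
    · obtain ⟨u, rfl⟩ : ∃ u, t = l.length + u := ⟨t - l.length, by omega⟩
      exact Or.inr ⟨u, by omega, by simp [pos_append_right]⟩
  · rintro (⟨t, ht, rfl⟩ | ⟨t, ht, h⟩)
    · exact ⟨t, by omega, pos_append_left l l' ht⟩
    · exact ⟨l.length + t, by omega, by rw [pos_append_right, h]; simp⟩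

lemma rad_trace_le (l : List (St d)) : rad (trace l) ≤ l.length := by
  rw [rad_le]
  induction l with
  | nil => intro a ha; rw [mem_trace_nil.1 ha, nn_zero]; simp
  | cons e l ih =>
    intro a ha
    rcases mem_trace_cons.1 ha with rfl | h
    · rw [nn_zero]; exact Nat.zero_le _
    · have h1 := ih _ h
      have h2 := nn_add (a - vec e) (vec e)
      have h3 := nn_vec e
      rw [sub_add_cancel] at h2
      simp only [List.length_cons]; omega

/-- nearest neighbour adjacency -/
def nadj (a b : V d) : Prop := ∃ e : St d, b = a + vec e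

lemma nadj_symm (a b : V d) (h : nadj a b) : nadj b a := by
  obtain ⟨e, rfl⟩ := h
  exact ⟨flip e, by simp [vec_flip]⟩

lemma nadj_finite (u : V d) : {w | nadj u w}.Finite :=
  (Set.finite_range fun e : St d => u + vec e).subset fun _ ⟨e, he⟩ => ⟨e, he.symm⟩

lemma trace_conn (l : List (St d)) (x : V d) :
    ∀ a ∈ trace l, CR nadj {b | b - x ∈ trace l} x (x + a) := by
  induction l generalizing x with
  | nil => intro a ha; rw [mem_trace_nil.1 ha, add_zero]; exact CR.refl _ _
  | cons e l ih =>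
    intro a ha
    rcases mem_trace_cons.1 ha with rfl | h
    · rw [add_zero]; exact CR.refl _ _
    · have h1 := ih (x + vec e) _ h
      have h2 : x + vec e + (a - vec e) = x + a := by abel
      rw [h2] at h1
      have h3 : CR nadj {b | b - x ∈ trace (e :: l)} (x + vec e) (x + a) := by
        refine h1.mono (fun b hb => ?_) fun _ _ h => h
        refine (mem_trace_cons (a := b - x)).2 (Or.inr ?_)
        have : b - x - vec e = b - (x + vec e) := by abel
        rw [this]; exact hb
      refine Relation.ReflTransGen.head ⟨?_, ?_, e, rfl⟩ h3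
      · simp [zero_mem_trace]
      · exact mem_trace_cons.2 (Or.inr (by simp [zero_mem_trace]))

/-- increments of the walk -/
lemma Ex_incr' (hd : 0 < d) (F : V d → ℝ) (t u w : ℕ) :
    Ex (t + (u + w)) (fun l => F (pos l (t + u) - pos l t)) = Ex u fun l => F (endp l) := by
  rw [Ex_append, ← Ex_const hd t (Ex u fun l => F (endp l))]
  refine Ex_congr fun l hl => ?_
  rw [Ex_append]
  refine Ex_congr fun l2 hl2 => ?_
  rw [← Ex_const hd w (F (endp l2))]
  refine Ex_congr fun l3 _ => ?_
  rw [pos_append_left l _ hl.ge, ← hl, pos_append_right, pos_length,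
    pos_append_left l2 _ hl2.ge, ← hl2, pos_length]
  simp

lemma Ex_incr (hd : 0 < d) (F : V d → ℝ) {N t t' : ℕ} (ht : t ≤ N) (ht' : t' ≤ N) :
    Ex N (fun l => F (pos l t - pos l t')) = Ex (t - t' + (t' - t)) fun l => F (endp l) := by
  rcases le_total t' t with h | h
  · obtain ⟨u, rfl⟩ := Nat.exists_eq_add_of_le h
    obtain ⟨w, rfl⟩ := Nat.exists_eq_add_of_le ht
    rw [add_assoc, Ex_incr' hd]
    congr 1; omega
  · obtain ⟨u, rfl⟩ := Nat.exists_eq_add_of_le h
    obtain ⟨w, rfl⟩ := Nat.exists_eq_add_of_le ht'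
    have := Ex_incr' hd (fun z => F (-z)) t u w
    simp only [neg_sub] at this
    rw [add_assoc, this, ← Ex_flip]
    simp only [endp_flip, neg_neg]
    congr 1; omega

/-! ### maximal inequality -/

noncomputable def phi (n : ℕ) (x : ℝ) : ℝ := x ^ 6 + 15 * n * x ^ 4 + 45 * n ^ 2 * x ^ 2 + 15 * n ^ 3

lemma phi_step (n : ℕ) (x : ℝ) : phi n (x + 1) + phi n (x - 1) ≤ 2 * phi (n + 1) x := by
  unfold phi; push_cast
  have : (0 : ℝ) ≤ n := Nat.cast_nonneg n
  nlinarith [sq_nonneg x]

lemma phi_mono (n : ℕ) (x : ℝ) : phi n x ≤ phi (n + 1) x := by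
  unfold phi; push_cast
  have h : (0 : ℝ) ≤ n := Nat.cast_nonneg n
  have h2 : 0 ≤ x ^ 4 := by positivity
  nlinarith [sq_nonneg x, mul_nonneg h (sq_nonneg x), mul_nonneg h h]

lemma max_coord (hd : 0 < d) (j : Fin d) {ρ : ℕ} (hρ : 0 < ρ) (n : ℕ) (x : ℤ) :
    Ex n (fun l : List (St d) => ind (∃ a ∈ trace l, ρ ≤ (x + a j).natAbs)) ≤
      phi n x / (ρ : ℝ) ^ 6 := by
  have hρ' : (0 : ℝ) < (ρ : ℝ) ^ 6 := by positivity
  have big : ∀ (n : ℕ) (x : ℤ), ρ ≤ x.natAbs → 1 ≤ phi n x / (ρ : ℝ) ^ 6 := by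
    intro n x hx
    rw [le_div_iff₀ hρ', one_mul]
    have h1 : (ρ : ℝ) ≤ |(x : ℝ)| := by
      have : ((ρ : ℤ) : ℝ) ≤ ((|x| : ℤ) : ℝ) := by
        exact_mod_cast (by rw [Int.abs_eq_natAbs]; omega : (ρ : ℤ) ≤ |x|)
      simpa using this
    have h2 : (ρ : ℝ) ^ 6 ≤ (x : ℝ) ^ 6 := by
      rw [← Even.pow_abs (by decide : Even 6) (x : ℝ)]
      exact pow_le_pow_left₀ (by positivity) h1 6
    unfold phi
    have : 0 ≤ 15 * (n : ℝ) * (x : ℝ) ^ 4 + 45 * n ^ 2 * (x : ℝ) ^ 2 + 15 * n ^ 3 := by positivity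
    linarith
  induction n generalizing x with
  | zero =>
    by_cases hx : ρ ≤ x.natAbs
    · exact (ind_le_one _).trans (big 0 x hx)
    · simp only [Ex]
      rw [ind_neg]
      · unfold phi; positivity
      · rintro ⟨a, ha, h⟩
        rw [mem_trace_nil.1 ha] at h
        simp at h; exact hx h
  | succ n ih =>
    by_cases hx : ρ ≤ x.natAbs
    · exact (Ex_ind_le_one hd _ _).trans (big _ x hx)
    rw [Ex_succ]
    have h1 : ∀ e : St d, Ex n (fun l => ind (∃ a ∈ trace (e :: l), ρ ≤ (x + a j).natAbs)) ≤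
        phi n ((x + vec e j : ℤ) : ℝ) / (ρ : ℝ) ^ 6 := by
      intro e
      refine le_trans (Ex_mono fun l _ => ind_mono ?_) (ih (x + vec e j))
      rintro ⟨a, ha, h⟩
      rcases mem_trace_cons.1 ha with rfl | ha
      · simp at h; exact absurd h hx
      · exact ⟨_, ha, by simpa using h⟩
    refine (av_mono h1).trans (av_le_of_pairs hd fun i => ?_)
    rw [← add_div, ← mul_div_assoc]
    refine div_le_div_of_nonneg_right ?_ hρ'.le
    by_cases h : j = i
    · subst h
      have := phi_step n x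
      simpa [vec, sub_eq_add_neg] using this
    · have := phi_mono n x
      simp only [vec, Pi.single_eq_of_ne h, add_zero]
      linarith

lemma rad_tail (hd : 0 < d) {ρ : ℕ} (hρ : 0 < ρ) (n : ℕ) :
    Ex n (fun l : List (St d) => ind (ρ ≤ rad (trace l))) ≤ 15 * d * n ^ 3 / (ρ : ℝ) ^ 6 := by
  have h1 : ∀ l : List (St d), ind (ρ ≤ rad (trace l)) ≤
      ∑ j : Fin d, ind (∃ a ∈ trace l, ρ ≤ ((0 : ℤ) + a j).natAbs) := by
    intro l
    by_cases h : ρ ≤ rad (trace l)
    · have : ∃ j : Fin d, ∃ a ∈ trace l, ρ ≤ ((0 : ℤ) + a j).natAbs := by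
        by_contra hc
        push Not at hc
        have : rad (trace l) ≤ ρ - 1 := by
          rw [rad_le]; intro a ha; rw [nn_le]; intro j
          have := hc j a ha
          simp only [zero_add] at this; omega
        omega
      obtain ⟨j, hj⟩ := this
      rw [ind_pos h, ← ind_pos hj]
      exact Finset.single_le_sum (f := fun j : Fin d =>
        ind (∃ a ∈ trace l, ρ ≤ ((0 : ℤ) + a j).natAbs)) (fun _ _ => ind_nonneg _)
        (Finset.mem_univ j)
    · rw [ind_neg h]; exact Finset.sum_nonneg fun _ _ => ind_nonneg _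
  refine (Ex_mono fun l _ => h1 l).trans ?_
  rw [Ex_sum]
  refine (Finset.sum_le_sum fun j _ => max_coord hd j hρ n 0).trans ?_
  simp [phi]
  apply le_of_eq; ring

end Pool.Agent.H536Z
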